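import Mathlib

set_option autoImplicit false

/-! Counting the bumps of a cycle. -/

namespace Pool.Agent.K7.H2.FO

open Finset

/-- the bumps of a cycle -/
noncomputable def bumps (L : ℕ) (α β c v : ℝ) : Finset ℕ :=
  (range L).filter fun i => c + α * i < Int.fract (v + β * i)

/-- arcs meeting a given arc -/
noncomputable def arcs (L : ℕ) (α β' c : ℝ) (j : ℕ) : Finset ℕ :=
  (range L).filter fun i => Int.fract (β' * ((i : ℝ) - j)) < 1 - c - α * i

theorem bumps_sub {L : ℕ} {α β c v : ℝ} (hα : 0 ≤ α) (hc : 0 ≤ c) (hne : (bumps L α β c v).Nonempty) :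
    ∃ j < L, bumps L α β c v ⊆ arcs L α (β - α) c j := by
  obtain ⟨j, hj, hmin⟩ := Finset.exists_min_image (bumps L α β c v)
    (fun i => Int.fract (v + β * i) - (c + α * i)) hne
  have hj' := hj
  unfold bumps at hj'
  rw [mem_filter, mem_range] at hj'
  refine ⟨j, hj'.1, fun i hi => ?_⟩
  have h1 := hmin i hi
  unfold bumps at hi
  rw [mem_filter, mem_range] at hi
  unfold arcs
  rw [mem_filter, mem_range]
  refine ⟨hi.1, ?_⟩
  have h3 := Int.fract_lt_one (v + β * i)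
  have h4 := hj'.2
  have h5 : (0 : ℝ) ≤ α * i := mul_nonneg hα (Nat.cast_nonneg i)
  have h2 : Int.fract ((β - α) * ((i : ℝ) - j)) =
      (Int.fract (v + β * i) - (c + α * i)) - (Int.fract (v + β * j) - (c + α * j)) := by
    rw [Int.fract_eq_iff]
    refine ⟨by linarith, by linarith, ⌊v + β * i⌋ - ⌊v + β * j⌋, ?_⟩
    push_cast
    have h6 := Int.floor_add_fract (v + β * i)
    have h7 := Int.floor_add_fract (v + β * j)
    linarith
  rw [h2]
  linarith

/-- a lower bound for `M * fract (β' * δ)` when `B1 ≤ M * β' ≤ B2` -/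
def flo (M B1 B2 δ : ℤ) : ℤ :=
  if (if 0 ≤ δ then B1 * δ else B2 * δ) / M = (if 0 ≤ δ then B2 * δ else B1 * δ) / M then
    (if 0 ≤ δ then B1 * δ else B2 * δ) % M else 0

theorem flo_le {M B1 B2 δ : ℤ} (hM : 0 < M) {x : ℝ} (h1 : (B1 : ℝ) ≤ M * x) (h2 : (M : ℝ) * x ≤ B2) :
    (flo M B1 B2 δ : ℝ) ≤ M * Int.fract (x * δ) := by
  have hMR : (0 : ℝ) < M := by exact_mod_cast hM
  obtain ⟨lo, hlo⟩ : ∃ lo : ℤ, lo = if 0 ≤ δ then B1 * δ else B2 * δ := ⟨_, rfl⟩
  obtain ⟨hi, hhi⟩ : ∃ hi : ℤ, hi = if 0 ≤ δ then B2 * δ else B1 * δ := ⟨_, rfl⟩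
  unfold flo
  rw [← hlo, ← hhi]
  have hl : (lo : ℝ) ≤ M * (x * δ) := by
    rw [hlo]
    split_ifs with h
    · have : (0 : ℝ) ≤ δ := by exact_mod_cast h
      push_cast
      nlinarith
    · have : (δ : ℝ) ≤ 0 := by exact_mod_cast (not_le.1 h).le
      push_cast
      nlinarith
  have hh : M * (x * δ) ≤ (hi : ℝ) := by
    rw [hhi]
    split_ifs with h
    · have : (0 : ℝ) ≤ δ := by exact_mod_cast h
      push_cast
      nlinarith
    · have : (δ : ℝ) ≤ 0 := by exact_mod_cast (not_le.1 h).le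
      push_cast
      nlinarith
  split_ifs with h
  · obtain ⟨k, hk⟩ : ∃ k, k = lo / M := ⟨_, rfl⟩
    have e1 : M * k + lo % M = lo := by rw [hk]; exact Int.mul_ediv_add_emod lo M
    have e2 : M * k + hi % M = hi := by rw [hk, h]; exact Int.mul_ediv_add_emod hi M
    have e3 := Int.emod_lt_of_pos hi hM
    have e4 := Int.emod_nonneg lo hM.ne'
    have e1R : (M : ℝ) * k + ((lo % M : ℤ) : ℝ) = lo := by exact_mod_cast e1
    have e2R : (M : ℝ) * k + ((hi % M : ℤ) : ℝ) = hi := by exact_mod_cast e2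
    have e3R : ((hi % M : ℤ) : ℝ) < M := by exact_mod_cast e3
    have e4R : (0 : ℝ) ≤ ((lo % M : ℤ) : ℝ) := by exact_mod_cast e4
    have hfl : ⌊x * δ⌋ = k := by
      rw [Int.floor_eq_iff]
      constructor
      · have : (M : ℝ) * k ≤ M * (x * δ) := by linarith
        exact le_of_mul_le_mul_left this hMR
      · have : (M : ℝ) * (x * δ) < M * (k + 1) := by linarith
        exact lt_of_mul_lt_mul_left this hMR.le
    rw [Int.fract, hfl]
    linarith
  · have := Int.fract_nonneg (x * δ)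
    push_cast
    positivity

/-- an upper bound for `M * fract x` when `lo ≤ M * x ≤ hi` -/
def fhi (M lo hi : ℤ) : ℤ := if lo / M = hi / M then hi % M else M

theorem le_fhi {M lo hi : ℤ} (hM : 0 < M) {x : ℝ} (h1 : (lo : ℝ) ≤ M * x) (h2 : (M : ℝ) * x ≤ hi) :
    M * Int.fract x ≤ (fhi M lo hi : ℝ) := by
  have hMR : (0 : ℝ) < M := by exact_mod_cast hM
  unfold fhi
  split_ifs with h
  · obtain ⟨k, hk⟩ : ∃ k, k = lo / M := ⟨_, rfl⟩
    have e1 : M * k + lo % M = lo := by rw [hk]; exact Int.mul_ediv_add_emod lo M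
    have e2 : M * k + hi % M = hi := by rw [hk, h]; exact Int.mul_ediv_add_emod hi M
    have e3 := Int.emod_lt_of_pos hi hM
    have e4 := Int.emod_nonneg lo hM.ne'
    have e1R : (M : ℝ) * k + ((lo % M : ℤ) : ℝ) = lo := by exact_mod_cast e1
    have e2R : (M : ℝ) * k + ((hi % M : ℤ) : ℝ) = hi := by exact_mod_cast e2
    have e3R : ((hi % M : ℤ) : ℝ) < M := by exact_mod_cast e3
    have e4R : (0 : ℝ) ≤ ((lo % M : ℤ) : ℝ) := by exact_mod_cast e4
    have hfl : ⌊x⌋ = k := by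
      rw [Int.floor_eq_iff]
      constructor
      · have : (M : ℝ) * k ≤ M * x := by linarith
        exact le_of_mul_le_mul_left this hMR
      · have : (M : ℝ) * x < M * (k + 1) := by linarith
        exact lt_of_mul_lt_mul_left this hMR.le
    rw [Int.fract, hfl]
    linarith
  · have := Int.fract_lt_one x
    nlinarith

/-- computable bound for the number of arcs -/
def cntA (M A1 B1 B2 c : ℤ) (L j : ℕ) : ℕ :=
  ((List.range L).filter fun i : ℕ => decide (flo M B1 B2 ((i : ℤ) - j) < M - c - A1 * i)).length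

theorem card_filter_list (L : ℕ) (p : ℕ → Prop) [DecidablePred p] (q : ℕ → Bool)
    (h : ∀ i < L, p i → q i = true) : ((range L).filter p).card ≤ ((List.range L).filter q).length := by
  have h1 : ((List.range L).filter q).length = ((range L).filter fun i => q i = true).card := by
    rw [← List.toFinset_card_of_nodup ((List.nodup_range).filter _)]
    congr 1
    ext i
    simp
  rw [h1]
  apply card_le_card
  intro i hi
  rw [mem_filter, mem_range] at hi ⊢
  exact ⟨hi.1, h i hi.1 hi.2⟩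

theorem arcs_le {M A1 B1 B2 c : ℤ} (hM : 0 < M) {α β' cr : ℝ} (h1 : (B1 : ℝ) ≤ M * β')
    (h2 : (M : ℝ) * β' ≤ B2) (h3 : (A1 : ℝ) ≤ M * α) (h4 : (c : ℝ) ≤ M * cr) (L j : ℕ) :
    (arcs L α β' cr j).card ≤ cntA M A1 B1 B2 c L j := by
  unfold arcs cntA
  refine card_filter_list L (fun i => Int.fract (β' * ((i : ℝ) - j)) < 1 - cr - α * i) _ fun i hi hlt => ?_
  rw [decide_eq_true_eq]
  have h5 := flo_le (δ := (i : ℤ) - j) hM h1 h2
  have hMR : (0 : ℝ) < M := by exact_mod_cast hM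
  have h6 : (M : ℝ) * Int.fract (β' * ((i : ℝ) - j)) < M * (1 - cr - α * i) :=
    mul_lt_mul_of_pos_left hlt hMR
  have h7 : (0 : ℝ) ≤ i := Nat.cast_nonneg i
  have h8 : (A1 : ℝ) * i ≤ M * α * i := mul_le_mul_of_nonneg_right h3 h7
  have h9 : ((flo M B1 B2 ((i : ℤ) - j) : ℤ) : ℝ) < ((M - c - A1 * i : ℤ) : ℝ) := by
    push_cast at h5 ⊢
    linarith
  exact_mod_cast h9

/-- one row of the table -/
def okrow (M A1 A2 B1 B2 G c c' : ℤ) (L q : ℕ) : Bool :=
  ((List.range L).all fun j => decide (cntA M A1 B1 B2 c L j ≤ q)) && decide (c' + A2 * ((q : ℤ) - 1) ≤ G)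

/-- the table -/
def oktab (M A1 A2 B1 B2 G : ℤ) (L : ℕ) : ℤ → List (ℤ × ℕ) → Bool
  | c, [] => decide (A2 ≤ c)
  | c, (c', q) :: rest => okrow M A1 A2 B1 B2 G c c' L q && oktab M A1 A2 B1 B2 G L c' rest

theorem oktab_spec {M A1 A2 B1 B2 G : ℤ} {L : ℕ} (hM : 0 < M) {α β γ : ℝ} (hα : 0 ≤ α)
    (hB1 : (B1 : ℝ) ≤ M * (β - α))
    (hB2 : (M : ℝ) * (β - α) ≤ B2) (hA1 : (A1 : ℝ) ≤ M * α) (hA2 : (M : ℝ) * α ≤ A2) (hG : (G : ℝ) ≤ M * γ)
    {ψ v : ℝ} (hψ : 0 ≤ ψ) (hψα : ψ < α) : ∀ (tab : List (ℤ × ℕ)) (c : ℤ), (c : ℝ) ≤ M * ψ →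
    oktab M A1 A2 B1 B2 G L c tab = true →
    (bumps L α β ψ v).card = 0 ∨ ψ + α * (((bumps L α β ψ v).card : ℝ) - 1) ≤ γ := by
  have hMR : (0 : ℝ) < M := by exact_mod_cast hM
  intro tab
  induction tab with
  | nil =>
    intro c hc h
    exfalso
    unfold oktab at h
    rw [decide_eq_true_eq] at h
    have h' : (A2 : ℝ) ≤ c := by exact_mod_cast h
    have := mul_lt_mul_of_pos_left hψα hMR
    linarith
  | cons hd rest ih =>
    obtain ⟨c', q⟩ := hd
    intro c hc h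
    unfold oktab at h
    rw [Bool.and_eq_true] at h
    rcases le_or_gt (c' : ℝ) (M * ψ) with h1 | h1
    · exact ih c' h1 h.2
    · have h2 := h.1
      unfold okrow at h2
      rw [Bool.and_eq_true, List.all_eq_true, decide_eq_true_eq] at h2
      obtain ⟨h3, h4⟩ := h2
      rcases Finset.eq_empty_or_nonempty (bumps L α β ψ v) with he | hne
      · left; rw [he]; rfl
      · right
        obtain ⟨j, hj, hsub⟩ := bumps_sub hα hψ hne
        have h5 := card_le_card hsub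
        have h6 := arcs_le hM hB1 hB2 hA1 hc L j
        have h7 := h3 j (List.mem_range.2 hj)
        rw [decide_eq_true_eq] at h7
        have h8 : ((bumps L α β ψ v).card : ℝ) ≤ q := by exact_mod_cast (h5.trans (h6.trans h7))
        have h4R : (c' : ℝ) + A2 * ((q : ℝ) - 1) ≤ G := by exact_mod_cast h4
        have hpos : 1 ≤ (bumps L α β ψ v).card := hne.card_pos
        have hposR : (1 : ℝ) ≤ ((bumps L α β ψ v).card : ℝ) := by exact_mod_cast hpos
        have h9 : M * α * (((bumps L α β ψ v).card : ℝ) - 1) ≤ A2 * ((q : ℝ) - 1) := by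
          apply mul_le_mul hA2 (by linarith) (by linarith)
          exact le_trans (mul_nonneg hMR.le hα) hA2
        have h10 : (M : ℝ) * (ψ + α * (((bumps L α β ψ v).card : ℝ) - 1)) ≤ M * γ := by
          rw [mul_add, ← mul_assoc]
          linarith
        exact le_of_mul_le_mul_left h10 hMR

/-- computable bound for the number of bumps when `M v = V` -/
def cntF (M A1 b1 b2 V P : ℤ) (L : ℕ) : ℕ :=
  ((List.range L).filter fun i : ℕ => decide (P + A1 * i < fhi M (V + b1 * i) (V + b2 * i))).length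

theorem bumps_le {M A1 b1 b2 V P : ℤ} (hM : 0 < M) {α β c v : ℝ} (h1 : (b1 : ℝ) ≤ M * β)
    (h2 : (M : ℝ) * β ≤ b2) (h3 : (A1 : ℝ) ≤ M * α) (h4 : (P : ℝ) ≤ M * c) (h5 : (V : ℝ) = M * v) (L : ℕ) :
    (bumps L α β c v).card ≤ cntF M A1 b1 b2 V P L := by
  unfold bumps cntF
  refine card_filter_list L (fun i => c + α * i < Int.fract (v + β * i)) _ fun i hi hlt => ?_
  rw [decide_eq_true_eq]
  have hMR : (0 : ℝ) < M := by exact_mod_cast hM
  have h7 : (0 : ℝ) ≤ i := Nat.cast_nonneg i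
  have h6 : (M : ℝ) * (c + α * i) < M * Int.fract (v + β * i) := mul_lt_mul_of_pos_left hlt hMR
  have h8 : (A1 : ℝ) * i ≤ M * α * i := mul_le_mul_of_nonneg_right h3 h7
  have h9 : (b1 : ℝ) * i ≤ M * β * i := mul_le_mul_of_nonneg_right h1 h7
  have h10 : M * β * i ≤ (b2 : ℝ) * i := mul_le_mul_of_nonneg_right h2 h7
  have h11 : M * Int.fract (v + β * i) ≤ (fhi M (V + b1 * i) (V + b2 * i) : ℝ) := by
    apply le_fhi hM
    · push_cast
      linarith
    · push_cast
      linarith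
  have h12 : ((P + A1 * i : ℤ) : ℝ) < ((fhi M (V + b1 * i) (V + b2 * i) : ℤ) : ℝ) := by
    push_cast
    linarith
  exact_mod_cast h12

end Pool.Agent.K7.H2.FO
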