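import Pool.Agent.K7.H2.FO.Arcs

set_option autoImplicit false

/-! Counting the bumps of a cycle from below. -/

namespace Pool.Agent.K7.H2.FO

open Finset

/-- the columns without bump -/
noncomputable def nbumps (L : ℕ) (α β c v : ℝ) : Finset ℕ :=
  (range L).filter fun i => Int.fract (v + β * i) ≤ c + α * i

/-- arcs meeting a given arc -/
noncomputable def narcs (L : ℕ) (α β c : ℝ) (j : ℕ) : Finset ℕ :=
  (range L).filter fun i => Int.fract (β * ((i : ℝ) - j)) ≤ c + α * i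

theorem nbumps_sub {L : ℕ} {α β c v : ℝ} (hne : (nbumps L α β c v).Nonempty) :
    ∃ j < L, nbumps L α β c v ⊆ narcs L α β c j := by
  obtain ⟨j, hj, hmin⟩ := Finset.exists_min_image (nbumps L α β c v)
    (fun i => Int.fract (v + β * i)) hne
  have hj' := hj
  unfold nbumps at hj'
  rw [mem_filter, mem_range] at hj'
  refine ⟨j, hj'.1, fun i hi => ?_⟩
  have h1 := hmin i hi
  unfold nbumps at hi
  rw [mem_filter, mem_range] at hi
  unfold narcs
  rw [mem_filter, mem_range]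
  refine ⟨hi.1, ?_⟩
  have h3 := Int.fract_lt_one (v + β * i)
  have h4 := Int.fract_nonneg (v + β * j)
  have h2 : Int.fract (β * ((i : ℝ) - j)) = Int.fract (v + β * i) - Int.fract (v + β * j) := by
    rw [Int.fract_eq_iff]
    refine ⟨by linarith, by linarith, ⌊v + β * i⌋ - ⌊v + β * j⌋, ?_⟩
    push_cast
    have h6 := Int.floor_add_fract (v + β * i)
    have h7 := Int.floor_add_fract (v + β * j)
    linarith
  rw [h2]
  linarith [hi.2]

/-- computable bound for the number of arcs -/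
def cntN (M a2 b1 b2 c' : ℤ) (L j : ℕ) : ℕ :=
  ((List.range L).filter fun i : ℕ => decide (flo M b1 b2 ((i : ℤ) - j) ≤ c' + a2 * i)).length

theorem narcs_le {M a2 b1 b2 c' : ℤ} (hM : 0 < M) {α β cr : ℝ} (h1 : (b1 : ℝ) ≤ M * β)
    (h2 : (M : ℝ) * β ≤ b2) (h3 : (M : ℝ) * α ≤ a2) (h4 : (M : ℝ) * cr ≤ c') (L j : ℕ) :
    (narcs L α β cr j).card ≤ cntN M a2 b1 b2 c' L j := by
  unfold narcs cntN
  refine card_filter_list L (fun i => Int.fract (β * ((i : ℝ) - j)) ≤ cr + α * i) _ fun i hi hlt => ?_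
  rw [decide_eq_true_eq]
  have h5 := flo_le (δ := (i : ℤ) - j) hM h1 h2
  have hMR : (0 : ℝ) < M := by exact_mod_cast hM
  have h6 : (M : ℝ) * Int.fract (β * ((i : ℝ) - j)) ≤ M * (cr + α * i) :=
    mul_le_mul_of_nonneg_left hlt hMR.le
  have h7 : (0 : ℝ) ≤ i := Nat.cast_nonneg i
  have h8 : M * α * i ≤ (a2 : ℝ) * i := mul_le_mul_of_nonneg_right h3 h7
  have h9 : ((flo M b1 b2 ((i : ℤ) - j) : ℤ) : ℝ) ≤ ((c' + a2 * i : ℤ) : ℝ) := by
    push_cast at h5 ⊢
    linarith
  exact_mod_cast h9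

/-- computable bound for the number of sources -/
def gcnt (M a1 G c : ℤ) (L : ℕ) : ℕ :=
  ((List.range L).filter fun i : ℕ => decide (c + a1 * i ≤ G)).length

theorem gcnt_spec {M a1 G c : ℤ} (hM : 0 < M) {α γ ψ : ℝ} (h1 : (a1 : ℝ) ≤ M * α)
    (h2 : (M : ℝ) * γ ≤ G) (h3 : (c : ℝ) ≤ M * ψ) (L : ℕ) :
    ((range L).filter fun i : ℕ => ψ + α * i ≤ γ).card ≤ gcnt M a1 G c L := by
  unfold gcnt
  refine card_filter_list L (fun i : ℕ => ψ + α * i ≤ γ) _ fun i hi hlt => ?_
  rw [decide_eq_true_eq]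
  have hMR : (0 : ℝ) < M := by exact_mod_cast hM
  have h6 : (M : ℝ) * (ψ + α * i) ≤ M * γ := mul_le_mul_of_nonneg_left hlt hMR.le
  have h7 : (0 : ℝ) ≤ i := Nat.cast_nonneg i
  have h8 : (a1 : ℝ) * i ≤ M * α * i := mul_le_mul_of_nonneg_right h1 h7
  have h9 : ((c + a1 * i : ℤ) : ℝ) ≤ ((G : ℤ) : ℝ) := by
    push_cast
    linarith
  exact_mod_cast h9

theorem bumps_ge {L L' : ℕ} (hL : L' ≤ L) {α β c v : ℝ} {q : ℕ} (h : (nbumps L' α β c v).card ≤ q) :
    L' ≤ (bumps L α β c v).card + q := by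
  classical
  have h1 : range L' ⊆ bumps L α β c v ∪ nbumps L' α β c v := by
    intro i hi
    rw [mem_range] at hi
    rw [mem_union]
    unfold bumps nbumps
    rw [mem_filter, mem_filter, mem_range, mem_range]
    rcases lt_or_ge (c + α * i) (Int.fract (v + β * i)) with h2 | h2
    · exact Or.inl ⟨by omega, h2⟩
    · exact Or.inr ⟨hi, h2⟩
  have h2 := card_le_card h1
  rw [card_range] at h2
  have h3 := card_union_le (bumps L α β c v) (nbumps L' α β c v)
  omega

/-- one row of the table -/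
def okrowE (M a1 a2 b1 b2 G c c' : ℤ) (L L' : ℕ) : Bool :=
  decide (L' ≤ L) &&
    ((List.range L').all fun j => decide (cntN M a2 b1 b2 c' L' j + gcnt M a1 G c L ≤ L')) &&
    decide (gcnt M a1 G c L ≤ L')

/-- the table -/
def oktabE (M a1 a2 b1 b2 G : ℤ) (L : ℕ) : ℤ → List (ℤ × ℕ) → Bool
  | c, [] => decide (a2 ≤ c)
  | c, (c', L') :: rest => okrowE M a1 a2 b1 b2 G c c' L L' && oktabE M a1 a2 b1 b2 G L c' rest

theorem oktabE_spec {M a1 a2 b1 b2 G : ℤ} {L : ℕ} (hM : 0 < M) {α β γ : ℝ}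
    (hb1 : (b1 : ℝ) ≤ M * β) (hb2 : (M : ℝ) * β ≤ b2) (ha1 : (a1 : ℝ) ≤ M * α)
    (ha2 : (M : ℝ) * α ≤ a2) (hG : (M : ℝ) * γ ≤ G)
    {ψ v : ℝ} (hψα : ψ < α) : ∀ (tab : List (ℤ × ℕ)) (c : ℤ), (c : ℝ) ≤ M * ψ →
    oktabE M a1 a2 b1 b2 G L c tab = true →
    ((range L).filter fun i : ℕ => ψ + α * i ≤ γ).card ≤ (bumps L α β ψ v).card := by
  have hMR : (0 : ℝ) < M := by exact_mod_cast hM
  intro tab
  induction tab with
  | nil =>
    intro c hc h
    exfalso
    unfold oktabE at h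
    rw [decide_eq_true_eq] at h
    have h' : (a2 : ℝ) ≤ c := by exact_mod_cast h
    have := mul_lt_mul_of_pos_left hψα hMR
    linarith
  | cons hd rest ih =>
    obtain ⟨c', L'⟩ := hd
    intro c hc h
    unfold oktabE at h
    rw [Bool.and_eq_true] at h
    rcases le_or_gt (c' : ℝ) (M * ψ) with h1 | h1
    · exact ih c' h1 h.2
    · have h2 := h.1
      unfold okrowE at h2
      rw [Bool.and_eq_true, Bool.and_eq_true, List.all_eq_true, decide_eq_true_eq,
        decide_eq_true_eq] at h2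
      obtain ⟨⟨h3, h4⟩, h5⟩ := h2
      have h6 := gcnt_spec hM ha1 hG hc L (γ := γ)
      rcases Finset.eq_empty_or_nonempty (nbumps L' α β ψ v) with he | hne
      · have h7 := bumps_ge h3 (α := α) (β := β) (c := ψ) (v := v) (q := 0) (by rw [he]; simp)
        omega
      · obtain ⟨j, hj, hsub⟩ := nbumps_sub hne
        have h7 := card_le_card hsub
        have h8 := narcs_le hM hb1 hb2 ha2 h1.le L' j
        have h9 := h4 j (List.mem_range.2 hj)
        rw [decide_eq_true_eq] at h9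
        have h10 := bumps_ge h3 (α := α) (β := β) (c := ψ) (v := v) (q := cntN M a2 b1 b2 c' L' j)
          (h7.trans h8)
        omega

/-- a lower bound for `M * fract x` when `lo ≤ M * x ≤ hi` -/
def flo2 (M lo hi : ℤ) : ℤ := if lo / M = hi / M then lo % M else 0

theorem flo2_le {M lo hi : ℤ} (hM : 0 < M) {x : ℝ} (h1 : (lo : ℝ) ≤ M * x) (h2 : (M : ℝ) * x ≤ hi) :
    (flo2 M lo hi : ℝ) ≤ M * Int.fract x := by
  have hMR : (0 : ℝ) < M := by exact_mod_cast hM
  unfold flo2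
  split_ifs with h
  · obtain ⟨k, hk⟩ : ∃ k, k = lo / M := ⟨_, rfl⟩
    have e1 : M * k + lo % M = lo := by rw [hk]; exact Int.mul_ediv_add_emod lo M
    have e2 : M * k + hi % M = hi := by rw [hk, h]; exact Int.mul_ediv_add_emod hi M
    have e3 := Int.emod_lt_of_pos hi hM
    have e4 := Int.emod_nonneg lo hM.ne'
    have e1R : (M : ℝ) * k + ((lo % M : ℤ) : ℝ) = lo := by exact_mod_cast e1
    have e2R : (M : ℝ) * k + ((hi % M : ℤ) : ℝ) = hi := by exact_mod_cast e2
    have e3R : ((hi % M : ℤ) : ℝ) < M := by exact_mod_cast e3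
    have e4R : (0 : ℝ) ≤ ((lo % M : ℤ) : ℝ) := by exact_mod_cast e4
    have hfl : ⌊x⌋ = k := by
      rw [Int.floor_eq_iff]
      constructor
      · have : (M : ℝ) * k ≤ M * x := by linarith
        exact le_of_mul_le_mul_left this hMR
      · have : (M : ℝ) * x < M * (k + 1) := by linarith
        exact lt_of_mul_lt_mul_left this hMR.le
    rw [Int.fract, hfl]
    linarith
  · have := Int.fract_nonneg x
    push_cast
    positivity

/-- computable lower bound for the number of bumps when `M v = V` -/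
def cntB (M a2 b1 b2 V P : ℤ) (L : ℕ) : ℕ :=
  ((List.range L).filter fun i : ℕ => decide (P + a2 * i < flo2 M (V + b1 * i) (V + b2 * i))).length

theorem card_filter_list_ge (L : ℕ) (p : ℕ → Prop) [DecidablePred p] (q : ℕ → Bool)
    (h : ∀ i < L, q i = true → p i) : ((List.range L).filter q).length ≤ ((range L).filter p).card := by
  have h1 : ((List.range L).filter q).length = ((range L).filter fun i => q i = true).card := by
    rw [← List.toFinset_card_of_nodup ((List.nodup_range).filter _)]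
    congr 1
    ext i
    simp
  rw [h1]
  apply card_le_card
  intro i hi
  rw [mem_filter, mem_range] at hi ⊢
  exact ⟨hi.1, h i hi.1 hi.2⟩

theorem cntB_le {M a2 b1 b2 V P : ℤ} (hM : 0 < M) {α β c v : ℝ} (h1 : (b1 : ℝ) ≤ M * β)
    (h2 : (M : ℝ) * β ≤ b2) (h3 : (M : ℝ) * α ≤ a2) (h4 : (M : ℝ) * c ≤ P) (h5 : (V : ℝ) = M * v) (L : ℕ) :
    cntB M a2 b1 b2 V P L ≤ (bumps L α β c v).card := by
  unfold bumps cntB
  refine card_filter_list_ge L (fun i => c + α * i < Int.fract (v + β * i)) _ fun i hi hlt => ?_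
  rw [decide_eq_true_eq] at hlt
  have hMR : (0 : ℝ) < M := by exact_mod_cast hM
  have h7 : (0 : ℝ) ≤ i := Nat.cast_nonneg i
  have h8 : M * α * i ≤ (a2 : ℝ) * i := mul_le_mul_of_nonneg_right h3 h7
  have h9 : (b1 : ℝ) * i ≤ M * β * i := mul_le_mul_of_nonneg_right h1 h7
  have h10 : M * β * i ≤ (b2 : ℝ) * i := mul_le_mul_of_nonneg_right h2 h7
  have h11 : (flo2 M (V + b1 * i) (V + b2 * i) : ℝ) ≤ M * Int.fract (v + β * i) := by
    apply flo2_le hM
    · push_cast
      linarith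
    · push_cast
      linarith
  have h12 : ((P + a2 * i : ℤ) : ℝ) < ((flo2 M (V + b1 * i) (V + b2 * i) : ℤ) : ℝ) := by
    exact_mod_cast hlt
  push_cast at h12
  have h13 : (M : ℝ) * (c + α * i) < M * Int.fract (v + β * i) := by linarith
  exact lt_of_mul_lt_mul_left h13 hMR.le

end Pool.Agent.K7.H2.FO
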