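import Pool.Agent.K7.H2.FO.Inst

set_option autoImplicit false

/-! The numerical certificates. -/

namespace Pool.Agent.K7.H2.FO

theorem cert_12 : cert 12 1000000 3464101 3464102 96225 96226 718232 718235 622007 622009 616000 11 [(38644, 7), (96226, 6)] = true := by decide +kernel

theorem cert_14 : cert 14 1000000 3741657 3741658 89087 89088 449443 449445 360356 360357 571000 12 [(36472, 7), (89088, 6)] = true := by decide +kernel

theorem cert_17 : cert 17 1000000 4123105 4123106 80845 80846 296795 296797 215950 215951 569000 13 [(3078, 8), (80846, 7)] = true := by decide +kernel

theorem cert_18 : cert 18 1000000 4242640 4242641 78567 78568 268245 268247 189678 189679 575000 13 [(25024, 8), (78568, 7)] = true := by decide +kernel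

theorem cert_19 : cert 19 1000000 4358898 4358899 76471 76472 245296 245297 168824 168825 631000 14 [(19224, 9), (76472, 8)] = true := by decide +kernel

theorem cert_20 : cert 20 1000000 4472135 4472136 74535 74536 226428 226429 151892 151893 565000 14 [(43248, 8), (74536, 7)] = true := by decide +kernel

theorem cert_22 : cert 22 1000000 4690415 4690416 71066 71067 197190 197191 126123 126124 624000 15 [(55464, 9), (71067, 8)] = true := by decide +kernel

theorem cert_23 : cert 23 1000000 4795831 4795832 69504 69505 185614 185616 116110 116111 561000 15 [(4960, 9), (69505, 8)] = true := by decide +kernel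

theorem cert_24 : cert 24 1000000 4898979 4898980 68041 68042 175532 175533 107491 107492 581000 15 [(36664, 9), (68042, 8)] = true := by decide +kernel

theorem cert_26 : cert 26 1000000 5099019 5099020 65372 65373 158804 158805 93432 93433 571000 16 [(48016, 9), (65373, 8)] = true := by decide +kernel

theorem cert_27 : cert 27 1000000 5196152 5196153 64150 64151 151780 151781 87630 87631 569000 16 [(55792, 9), (64151, 8)] = true := by decide +kernel

theorem cert_28 : cert 28 1000000 5291502 5291503 62994 62995 145464 145465 82470 82471 603000 16 [(36045, 10), (62995, 9)] = true := by decide +kernel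

theorem cert_29 : cert 29 1000000 5385164 5385165 61898 61899 139752 139753 77854 77855 579000 17 [(21909, 10), (61899, 9)] = true := by decide +kernel

theorem cert_30 : cert 30 1000000 5477225 5477226 60858 60859 134559 134560 73701 73702 564000 17 [(16269, 10), (60859, 9)] = true := by decide +kernel

theorem cert_31 : cert 31 1000000 5567764 5567765 59868 59869 129814 129815 69946 69947 571000 17 [(32179, 10), (59869, 9)] = true := by decide +kernel

theorem cert_32 : cert 32 1000000 5656854 5656855 58925 58926 125461 125462 66536 66537 588000 17 [(57666, 10), (58926, 9)] = true := by decide +kernel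

theorem cert_33 : cert 33 1000000 5744562 5744563 58025 58026 121452 121453 63426 63427 561000 18 [(38766, 10), (58026, 9)] = true := by decide +kernel

theorem cert_34 : cert 34 1000000 5830951 5830952 57166 57167 117746 117747 60579 60580 543000 18 [(28497, 10), (57167, 9)] = true := by decide +kernel

theorem cert_35 : cert 35 1000000 5916079 5916080 56343 56344 114308 114309 57965 57966 550000 18 [(42904, 10), (56344, 9)] = true := by decide +kernel

end Pool.Agent.K7.H2.FO
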