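import Mathlib

set_option autoImplicit false

/-! Nonvanishing of determinants of matrices `c i j * P ^ ((s i - x j) ^ 2)`. -/

namespace Pool.Agent.K7.H2.FO

open Finset

theorem perm_eq_one {q : ℕ} {s x : Fin q → ℕ} (hs : StrictMono s) (hx : StrictMono x)
    {σ : Equiv.Perm (Fin q)} (h : Monovary s (x ∘ σ)) : σ = 1 := by
  have hmono : StrictMono (fun i : Fin q => σ.symm i) := by
    intro a b hab
    rcases lt_trichotomy (σ.symm a) (σ.symm b) with h1 | h1 | h1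
    · exact h1
    · exact absurd (σ.symm.injective h1) hab.ne
    · exfalso
      have h2 : (x ∘ σ) (σ.symm a) < (x ∘ σ) (σ.symm b) := by
        simp only [Function.comp_apply, Equiv.apply_symm_apply]
        exact hx hab
      have h3 := h h2
      have h4 := hs h1
      omega
  have h4 : Set.range (fun i : Fin q => σ.symm i) = Set.range (id : Fin q → Fin q) := by
    rw [Set.range_id]
    exact Set.eq_univ_of_forall fun b => ⟨σ b, by simp⟩
  have h5 := (hmono.range_inj strictMono_id).1 h4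
  apply Equiv.ext
  intro i
  have := congrFun h5 (σ i)
  simp only [Equiv.symm_apply_apply, id] at this
  rw [← this]
  rfl

theorem sum_sq_lt {q : ℕ} {s x : Fin q → ℕ} (hs : StrictMono s) (hx : StrictMono x)
    (hlt : ∀ i j, x j ≤ s i) {σ : Equiv.Perm (Fin q)} (hσ : σ ≠ 1) :
    ∑ i, (s i - x i) ^ 2 < ∑ i, (s i - x (σ i)) ^ 2 := by
  have h1 : ∑ i, s i * x (σ i) < ∑ i, s i * x i := by
    have hm : Monovary s x := fun i j hij => (hs.le_iff_le).2 ((hx.lt_iff_lt).1 hij).le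
    rw [hm.sum_mul_comp_perm_lt_sum_mul_iff]
    exact fun h => hσ (perm_eq_one hs hx h)
  have h2 : ∑ i, (x (σ i)) ^ 2 = ∑ i, (x i) ^ 2 := Equiv.sum_comp σ (fun i => (x i) ^ 2)
  have h3 : ∀ i j, ((s i - x j : ℕ) : ℤ) ^ 2 = (s i : ℤ) ^ 2 + (x j : ℤ) ^ 2 - 2 * ((s i : ℤ) * x j) := by
    intro i j
    rw [Nat.cast_sub (hlt i j)]
    ring
  zify at h1 h2 ⊢
  have e1 : ∀ σ' : Fin q → Fin q, ∑ i, ((s i - x (σ' i) : ℕ) : ℤ) ^ 2 = ∑ i, (s i : ℤ) ^ 2 +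
      ∑ i, (x (σ' i) : ℤ) ^ 2 - 2 * ∑ i, (s i : ℤ) * x (σ' i) := by
    intro σ'
    rw [mul_sum, ← sum_add_distrib, ← sum_sub_distrib]
    exact sum_congr rfl fun i _ => h3 i (σ' i)
  have e2 := e1 id
  simp only [id] at e2
  rw [e2, e1 σ, h2]
  linarith

theorem det_ne {q : ℕ} {s x : Fin q → ℕ} (hs : StrictMono s) (hx : StrictMono x)
    (hlt : ∀ i j, x j ≤ s i) {P : ℕ} (hP : P.Prime) (c : Fin q → Fin q → ℤ)
    (hc : ∀ i j, c i j ≠ 0) (hc' : ∀ i j, (c i j).natAbs < P) :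
    (Matrix.of fun i j : Fin q => c i j * (P : ℤ) ^ ((s i - x j) ^ 2)).det ≠ 0 := by
  obtain ⟨E, hE⟩ : ∃ E, E = ∑ i, (s i - x i) ^ 2 := ⟨_, rfl⟩
  intro h0
  have hdvd : ∀ σ : Equiv.Perm (Fin q), σ ≠ 1 → (P : ℤ) ^ (E + 1) ∣
      ((Equiv.Perm.sign σ : ℤˣ) : ℤ) * ∏ i, (c i (σ i) * (P : ℤ) ^ ((s i - x (σ i)) ^ 2)) := by
    intro σ hσ
    apply Dvd.dvd.mul_left
    rw [prod_mul_distrib, prod_pow_eq_pow_sum]
    apply Dvd.dvd.mul_left
    apply pow_dvd_pow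
    have := sum_sq_lt hs hx hlt hσ
    omega
  rw [← Matrix.det_transpose, Matrix.det_apply'] at h0
  simp only [Matrix.transpose_apply, Matrix.of_apply] at h0
  rw [← Finset.add_sum_erase _ _ (mem_univ (1 : Equiv.Perm (Fin q)))] at h0
  have h1 : (P : ℤ) ^ (E + 1) ∣ ∑ σ ∈ univ.erase (1 : Equiv.Perm (Fin q)),
      ((Equiv.Perm.sign σ : ℤˣ) : ℤ) * ∏ i, (c i (σ i) * (P : ℤ) ^ ((s i - x (σ i)) ^ 2)) := by
    apply dvd_sum
    intro σ hσ
    exact hdvd σ (ne_of_mem_erase hσ)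
  have h2 : (P : ℤ) ^ (E + 1) ∣ ∏ i, (c i i * (P : ℤ) ^ ((s i - x i) ^ 2)) := by
    have e := eq_neg_of_add_eq_zero_left h0
    simp only [Equiv.Perm.sign_one, Units.val_one, Int.cast_one, one_mul, Equiv.Perm.coe_one, id] at e
    rw [e]
    exact (dvd_neg).2 h1
  rw [prod_mul_distrib, prod_pow_eq_pow_sum, ← hE, pow_succ, mul_comm (∏ i, c i i)] at h2
  have hP0 : (P : ℤ) ^ E ≠ 0 := pow_ne_zero _ (by exact_mod_cast hP.ne_zero)
  have h3 : (P : ℤ) ∣ ∏ i, c i i := Int.dvd_of_mul_dvd_mul_left hP0 h2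
  rw [(Nat.prime_iff_prime_int.1 hP).dvd_finsetProd_iff] at h3
  obtain ⟨i, _, hi⟩ := h3
  have h4 := Int.natAbs_dvd_natAbs.2 hi
  rw [Int.natAbs_natCast] at h4
  have h5 := Nat.le_of_dvd (Int.natAbs_pos.2 (hc i i)) h4
  have h6 := hc' i i
  omega

/-- finite sets of sources and sinks -/
theorem inj_fin {A B : Finset ℕ} (hAB : A.card ≤ B.card) (hlt : ∀ x ∈ A, ∀ s ∈ B, x ≤ s)
    {P : ℕ} (hP : P.Prime) (c : ℕ → ℕ → ℤ) (hc : ∀ x ∈ A, ∀ s ∈ B, c x s ≠ 0)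
    (hc' : ∀ x ∈ A, ∀ s ∈ B, (c x s).natAbs < P) (a : ℕ → ℚ)
    (h : ∀ s ∈ B, ∑ x ∈ A, (c x s : ℚ) * (P : ℚ) ^ ((s - x) ^ 2) * a x = 0) : ∀ x ∈ A, a x = 0 := by
  obtain ⟨X, hX⟩ : ∃ X : Fin A.card ↪o ℕ, X = A.orderEmbOfFin rfl := ⟨_, rfl⟩
  obtain ⟨S, hS⟩ : ∃ S : Fin B.card ↪o ℕ, S = B.orderEmbOfFin rfl := ⟨_, rfl⟩
  have hXm : ∀ i, X i ∈ A := fun i => by rw [hX]; exact orderEmbOfFin_mem A rfl i
  have hSm : ∀ i, S i ∈ B := fun i => by rw [hS]; exact orderEmbOfFin_mem B rfl i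
  have hdet := det_ne (s := fun i => S (Fin.castLE hAB i)) (x := X)
    (fun i j hij => S.strictMono (by simpa using hij)) X.strictMono
    (fun i j => hlt _ (hXm j) _ (hSm _)) hP (fun i j => c (X j) (S (Fin.castLE hAB i)))
    (fun i j => hc _ (hXm j) _ (hSm _)) (fun i j => hc' _ (hXm j) _ (hSm _))
  have hdetQ : (Matrix.of fun i j : Fin A.card => ((c (X j) (S (Fin.castLE hAB i)) : ℤ) : ℚ) *
      (P : ℚ) ^ ((S (Fin.castLE hAB i) - X j) ^ 2)).det ≠ 0 := by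
    have e : (Matrix.of fun i j : Fin A.card => ((c (X j) (S (Fin.castLE hAB i)) : ℤ) : ℚ) *
      (P : ℚ) ^ ((S (Fin.castLE hAB i) - X j) ^ 2)) = (Int.castRingHom ℚ).mapMatrix
        (Matrix.of fun i j : Fin A.card => c (X j) (S (Fin.castLE hAB i)) *
          (P : ℤ) ^ ((S (Fin.castLE hAB i) - X j) ^ 2)) := by
      ext i j
      simp
    rw [e, ← RingHom.map_det]
    intro h0
    apply hdet
    exact (Int.cast_injective (α := ℚ)) (by simpa using h0)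
  have hset : A = univ.map X.toEmbedding := by
    ext y
    rw [mem_map]
    constructor
    · intro hy
      have : y ∈ Set.range (A.orderEmbOfFin rfl) := by
        rw [range_orderEmbOfFin]; exact hy
      obtain ⟨i, hi⟩ := this
      exact ⟨i, mem_univ _, by rw [hX]; exact hi⟩
    · rintro ⟨i, _, rfl⟩
      exact hXm i
  have hv : (fun j : Fin A.card => a (X j)) = 0 := by
    apply Matrix.eq_zero_of_mulVec_eq_zero hdetQ
    ext i
    rw [Matrix.mulVec, dotProduct, Pi.zero_apply]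
    simp only [Matrix.of_apply]
    obtain ⟨s0, hs0⟩ : ∃ s0, s0 = S (Fin.castLE hAB i) := ⟨_, rfl⟩
    have h1 := h _ (hSm (Fin.castLE hAB i))
    rw [← hs0] at h1 ⊢
    rw [← h1]
    have h2 : ∑ x ∈ A, (c x s0 : ℚ) * (P : ℚ) ^ ((s0 - x) ^ 2) * a x =
        ∑ x ∈ univ.map X.toEmbedding, (c x s0 : ℚ) * (P : ℚ) ^ ((s0 - x) ^ 2) * a x := by
      rw [← hset]
    rw [h2, sum_map]
    rfl
  intro x hx
  have : x ∈ Set.range (A.orderEmbOfFin rfl) := by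
    rw [range_orderEmbOfFin]; exact hx
  obtain ⟨i, hi⟩ := this
  have h2 := congrFun hv i
  simp only [Pi.zero_apply] at h2
  rw [← hi, ← hX]
  exact h2

end Pool.Agent.K7.H2.FO
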