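import Pool.Agent.K7.H2.FO.Fol
import Pool.Agent.K7.H2.FO.Mat

set_option autoImplicit false

/-! The column theorem: emptiness for sets of exponents whose columns are intervals, from the count
of conditions of order zero and the first order relations inside cycles of columns. -/

namespace Pool.Agent.K7.H2.FO

open Polynomial Finset Pool.Agent.TH176.Nag

/-- the exponents with column `x < N0` the interval from `b x` of length `l x` -/
def TT (N0 : ℕ) (b l : ℕ → ℕ) : Finset (ℕ × ℕ) :=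
  (range N0).biUnion fun x => (Finset.Ico (b x) (b x + l x)).image fun y => (x, y)

theorem mem_TT {N0 : ℕ} {b l : ℕ → ℕ} {x y : ℕ} :
    (x, y) ∈ TT N0 b l ↔ x < N0 ∧ b x ≤ y ∧ y < b x + l x := by
  unfold TT
  simp only [mem_biUnion, mem_image, mem_range, mem_Ico, Prod.mk.injEq]
  constructor
  · rintro ⟨x', h1, y', h2, rfl, rfl⟩
    exact ⟨h1, h2⟩
  · rintro ⟨h1, h2⟩
    exact ⟨x, h1, y, h2, rfl, rfl⟩

theorem card_TT (N0 : ℕ) (b l : ℕ → ℕ) : (TT N0 b l).card = ∑ x ∈ range N0, l x := by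
  unfold TT
  rw [card_biUnion]
  · apply sum_congr rfl
    intro x _
    rw [card_image_of_injective _ (fun y y' h => by simpa using h), Nat.card_Ico]
    omega
  · intro x _ x' _ hne
    rw [Function.onFun, Finset.disjoint_left]
    rintro ⟨a, c⟩ h1 h2
    simp only [mem_image, Prod.mk.injEq] at h1 h2
    obtain ⟨_, _, rfl, _⟩ := h1
    obtain ⟨_, _, h3, _⟩ := h2
    exact hne h3.symm

/-- the shape of a polynomial supported in an interval with vanishing Taylor coefficients -/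
theorem shape {F : ℚ[X]} {b l ρ : ℕ} (h1 : ∀ y, ¬ (b ≤ y ∧ y < b + l) → F.coeff y = 0)
    (h2 : ∀ j < ρ, (taylor 1 F).coeff j = 0) (hl : l ≤ ρ + 1) :
    ∃ a : ℚ, taylor 1 F = C a * ((X + 1) ^ b * X ^ ρ) ∧ (l ≤ ρ → a = 0) := by
  obtain ⟨g, hg⟩ : X ^ b ∣ F := by
    rw [X_pow_dvd_iff]
    intro d hd
    exact h1 d (by omega)
  have hgc : ∀ y, l ≤ y → g.coeff y = 0 := by
    intro y hy
    have := h1 (y + b) (by omega)
    rwa [hg, mul_comm, coeff_mul_X_pow] at this
  have ht : taylor 1 F = (X + 1) ^ b * taylor 1 g := by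
    rw [hg, taylor_mul, taylor_X_pow]
    simp
  have hd : X ^ ρ ∣ taylor 1 g := by
    have h3 : X ^ ρ ∣ (X + 1 : ℚ[X]) ^ b * taylor 1 g := by
      rw [← ht, X_pow_dvd_iff]
      exact h2
    refine IsCoprime.dvd_of_dvd_mul_left ?_ h3
    apply IsCoprime.pow
    exact ⟨-1, 1, by ring⟩
  by_cases hg0 : g = 0
  · exact ⟨0, by rw [ht, hg0]; simp, fun _ => rfl⟩
  · obtain ⟨q, hq⟩ := hd
    have hdeg : g.natDegree < l := by
      by_contra hcon
      push Not at hcon
      have := hgc _ hcon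
      rw [coeff_natDegree, leadingCoeff_eq_zero] at this
      exact hg0 this
    have hq0 : q ≠ 0 := by
      rintro rfl
      rw [mul_zero] at hq
      exact hg0 ((taylor_injective 1) (by rw [hq, map_zero]))
    have h3 := congrArg natDegree hq
    rw [natDegree_taylor, natDegree_mul (pow_ne_zero _ X_ne_zero) hq0, natDegree_X_pow] at h3
    have hqd : q.natDegree = 0 := by omega
    refine ⟨q.coeff 0, ?_, fun h => by omega⟩
    rw [ht, hq]
    conv_lhs => rw [eq_C_of_natDegree_eq_zero hqd]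
    ring

/-- the functional of a sink -/
noncomputable def Lf (b ρ : ℕ) (P : PowerSeries ℚ) : ℚ :=
  PowerSeries.coeff (ρ - 1) (((1 + PowerSeries.X : PowerSeries ℚ) ^ b)⁻¹ * P)

theorem Lf_add (b ρ : ℕ) (P Q : PowerSeries ℚ) : Lf b ρ (P + Q) = Lf b ρ P + Lf b ρ Q := by
  unfold Lf
  rw [mul_add, map_add]

theorem Lf_sum {ι : Type*} (b ρ : ℕ) (s : Finset ι) (f : ι → PowerSeries ℚ) :
    Lf b ρ (∑ i ∈ s, f i) = ∑ i ∈ s, Lf b ρ (f i) := by
  unfold Lf
  rw [mul_sum, map_sum]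

theorem Lf_C_mul (b ρ : ℕ) (c : ℚ) (P : PowerSeries ℚ) : Lf b ρ (PowerSeries.C c * P) = c * Lf b ρ P := by
  unfold Lf
  rw [mul_left_comm, PowerSeries.coeff_C_mul]

theorem Lf_congr {b ρ : ℕ} (hρ : 1 ≤ ρ) {P Q : PowerSeries ℚ}
    (h : ∀ j < ρ, PowerSeries.coeff j P = PowerSeries.coeff j Q) : Lf b ρ P = Lf b ρ Q := by
  unfold Lf
  rw [PowerSeries.coeff_mul, PowerSeries.coeff_mul]
  apply sum_congr rfl
  intro x hx
  rw [HasAntidiagonal.mem_antidiagonal] at hx
  rw [h x.2 (by omega)]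

theorem cc_ne (b : ℕ) : PowerSeries.constantCoeff ((1 + PowerSeries.X : PowerSeries ℚ) ^ b) ≠ 0 := by
  simp

theorem Lf_mul {b ρ : ℕ} (P : PowerSeries ℚ) :
    Lf b ρ ((1 + PowerSeries.X : PowerSeries ℚ) ^ b * P) = PowerSeries.coeff (ρ - 1) P := by
  unfold Lf
  rw [← mul_assoc, PowerSeries.inv_mul_cancel _ (cc_ne b), one_mul]

theorem coeff_top (Δ : ℕ) : PowerSeries.coeff Δ ((1 + PowerSeries.X : PowerSeries ℚ) ^ Δ) = 1 := by
  have e : ((1 + PowerSeries.X : PowerSeries ℚ) ^ Δ) = (((1 + X : ℚ[X]) ^ Δ : ℚ[X]) : PowerSeries ℚ) := by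
    simp
  rw [e, Polynomial.coeff_coe, coeff_one_add_X_pow]
  simp

/-- the value of the functional of a sink on the first order contribution of a source -/
theorem Lf_src {m b ρ b' ρ' : ℕ} (hb : b' ≤ b) (hN : b + ρ + 1 = b' + ρ') :
    Lf b' ρ' ((((C (m : ℚ) * ((X + 1) ^ b * X ^ ρ) - X * derivative ((X + 1) ^ b * X ^ ρ) : ℚ[X])) :
      PowerSeries ℚ)) = if b' < b then (m : ℚ) - (b + ρ) else (m : ℚ) - ρ := by
  have e0 : (C (m : ℚ) * ((X + 1) ^ b * X ^ ρ) - X * derivative ((X + 1) ^ b * X ^ ρ) : ℚ[X]) =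
      C ((m : ℚ) - ρ) * ((X + 1) ^ b * X ^ ρ) - C (b : ℚ) * ((X + 1) ^ (b - 1) * X ^ (ρ + 1)) := by
    have e1 : (X * derivative ((X + 1) ^ b * X ^ ρ) : ℚ[X]) =
        C (b : ℚ) * ((X + 1) ^ (b - 1) * X ^ (ρ + 1)) + C (ρ : ℚ) * ((X + 1) ^ b * X ^ ρ) := by
      rw [derivative_mul, derivative_X_pow, derivative_pow]
      have e2 : (derivative (X + 1 : ℚ[X])) = 1 := by simp
      rw [e2]
      rcases Nat.eq_zero_or_pos ρ with h | h
      · subst h
        simp only [Nat.cast_zero, map_zero, zero_mul, pow_zero, mul_one, mul_zero, add_zero, zero_add, pow_one]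
        ring
      · have e3 : (X : ℚ[X]) * X ^ (ρ - 1) = X ^ ρ := by
          rw [← pow_succ']; congr 1; omega
        rw [← e3]
        have e4 : (X : ℚ[X]) ^ (ρ + 1) = X * (X * X ^ (ρ - 1)) := by rw [e3, pow_succ']
        rw [e4]
        ring
    rw [e1, map_sub]
    ring
  rw [e0]
  obtain ⟨Δ, rfl⟩ := Nat.exists_eq_add_of_le hb
  have hρ : ρ' = ρ + Δ + 1 := by omega
  subst hρ
  split_ifs with h
  · obtain ⟨δ, rfl⟩ : ∃ δ, Δ = δ + 1 := ⟨Δ - 1, by omega⟩
    have e1 : (((C ((m : ℚ) - ρ) * ((X + 1) ^ (b' + (δ + 1)) * X ^ ρ) -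
        C ((b' + (δ + 1) : ℕ) : ℚ) * ((X + 1) ^ (b' + (δ + 1) - 1) * X ^ (ρ + 1)) : ℚ[X])) : PowerSeries ℚ) =
        (1 + PowerSeries.X : PowerSeries ℚ) ^ b' * (PowerSeries.C ((m : ℚ) - ρ) *
          ((1 + PowerSeries.X : PowerSeries ℚ) ^ (δ + 1) * PowerSeries.X ^ ρ) +
          PowerSeries.C (-((b' + (δ + 1) : ℕ) : ℚ)) *
          ((1 + PowerSeries.X : PowerSeries ℚ) ^ δ * PowerSeries.X ^ (ρ + 1))) := by
      have e2 : b' + (δ + 1) - 1 = b' + δ := by omega
      rw [e2]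
      simp only [Polynomial.coe_sub, Polynomial.coe_mul, Polynomial.coe_C, Polynomial.coe_pow,
        Polynomial.coe_add, Polynomial.coe_X, Polynomial.coe_one, map_neg]
      ring
    rw [e1, Lf_mul, map_add, PowerSeries.coeff_C_mul, PowerSeries.coeff_C_mul]
    have e3 : ρ + (δ + 1) + 1 - 1 = (δ + 1) + ρ := by omega
    have e4 : (δ + 1) + ρ = δ + (ρ + 1) := by omega
    rw [e3, PowerSeries.coeff_mul_X_pow, coeff_top, e4, PowerSeries.coeff_mul_X_pow, coeff_top]
    push_cast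
    ring
  · obtain rfl : Δ = 0 := by omega
    have e1 : Lf b' (ρ + 0 + 1) ((((C ((m : ℚ) - ρ) * ((X + 1) ^ (b' + 0) * X ^ ρ) -
        C ((b' + 0 : ℕ) : ℚ) * ((X + 1) ^ (b' + 0 - 1) * X ^ (ρ + 1)) : ℚ[X])) : PowerSeries ℚ)) =
        Lf b' (ρ + 0 + 1) ((1 + PowerSeries.X : PowerSeries ℚ) ^ b' * (PowerSeries.C ((m : ℚ) - ρ) *
          (PowerSeries.X ^ ρ))) := by
      apply Lf_congr (by omega)
      intro j hj
      have e2 : (((C ((m : ℚ) - ρ) * ((X + 1) ^ (b' + 0) * X ^ ρ) -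
        C ((b' + 0 : ℕ) : ℚ) * ((X + 1) ^ (b' + 0 - 1) * X ^ (ρ + 1)) : ℚ[X])) : PowerSeries ℚ) =
        (1 + PowerSeries.X : PowerSeries ℚ) ^ b' * (PowerSeries.C ((m : ℚ) - ρ) *
          (PowerSeries.X ^ ρ)) +
        (-(PowerSeries.C ((b' : ℕ) : ℚ)) * (1 + PowerSeries.X : PowerSeries ℚ) ^ (b' + 0 - 1)) *
          PowerSeries.X ^ (ρ + 1) := by
        simp only [Polynomial.coe_sub, Polynomial.coe_mul, Polynomial.coe_C, Polynomial.coe_pow,
          Polynomial.coe_add, Polynomial.coe_X, Polynomial.coe_one, add_zero]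
        ring
      rw [e2, map_add, PowerSeries.coeff_mul_X_pow', if_neg (by omega), add_zero]
    rw [e1, Lf_mul, PowerSeries.coeff_C_mul]
    have e5 : ρ + 0 + 1 - 1 = ρ := by omega
    rw [e5, PowerSeries.coeff_X_pow, if_pos rfl, mul_one]

theorem coeff_m_sub (m : ℕ) (P : ℚ[X]) (j : ℕ) :
    (C (m : ℚ) * P - X * derivative P).coeff j = ((m : ℚ) - j) * P.coeff j := by
  rw [coeff_sub, coeff_C_mul]
  rcases Nat.eq_zero_or_pos j with h | h
  · subst h
    simp
  · obtain ⟨i, rfl⟩ : ∃ i, j = i + 1 := ⟨j - 1, by omega⟩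
    rw [coeff_X_mul, coeff_derivative]
    push_cast
    ring

theorem ct {n m κ N0 : ℕ} (hn : 1 ≤ n) (hκ : κ < n) (b l ρ : ℕ → ℕ) (cyc : ℕ → ℤ) (R : ℕ → ℕ)
    (hR : ∀ x < N0, ∀ y, b x ≤ y → y < b x + l x → ∀ j ≤ y, x ≤ R j)
    (hρ : ∀ x < N0, ∀ j < ρ x, j < m ∧ R j < x + n * (m - j))
    (hl : ∀ x < N0, l x ≤ ρ x + 1)
    (h3 : ∀ x < N0, ∀ s < N0, l x = ρ x + 1 → l s + 1 = ρ s → cyc x = cyc s →
      x < s ∧ s ≤ x + κ ∧ b s ≤ b x ∧ b x + ρ x + 1 = b s + ρ s ∧ m ≠ b x + ρ x)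
    (h4 : ∀ x < N0, ∀ s < N0, l x = ρ x + 1 → l s + 1 = ρ s → x < s → s ≤ x + κ → cyc x = cyc s)
    (h2 : ∀ N, ((range N0).filter fun x => l x = ρ x + 1 ∧ cyc x = N).card ≤
      ((range N0).filter fun s => l s + 1 = ρ s ∧ cyc s = N).card) :
    Emp (fun _ : Fin n => m) (↑(castT (TT N0 b l)) : Set (ℤ × ℤ)) := by
  classical
  obtain ⟨P, hPge, hP⟩ := Nat.exists_infinite_primes (m + ∑ x ∈ range N0, (b x + ρ x) + 1)
  have hbig : ∀ x < N0, m + (b x + ρ x) < P := by
    intro x hx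
    have h := single_le_sum (f := fun x => b x + ρ x) (fun i _ => Nat.zero_le _) (mem_range.2 hx)
    omega
  obtain ⟨τ, hτ⟩ : ∃ τ : ℕ → ℚ, τ = fun k => if 1 ≤ k ∧ k ≤ κ then (P : ℚ) ^ (k ^ 2) else 0 := ⟨_, rfl⟩
  refine fol hn τ (by rw [hτ]; simp) (TT N0 b l) R ?_ ?_
  · rintro ⟨x, y⟩ hp j hj
    rw [mem_TT] at hp
    exact hR x hp.1 y hp.2.1 hp.2.2 j hj
  · intro F G hF hG hF1 hG1
    have hsh : ∀ x, ∃ a : ℚ, (x < N0 → taylor 1 (F x) = C a * ((X + 1) ^ (b x) * X ^ (ρ x))) ∧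
        (N0 ≤ x → F x = 0) ∧ ((¬ (x < N0 ∧ l x = ρ x + 1)) → a = 0) := by
      intro x
      by_cases hx : x < N0
      · obtain ⟨a, ha1, ha2⟩ := shape (F := F x) (b := b x) (l := l x) (ρ := ρ x)
          (fun y hy => hF x y fun hmem => hy (mem_TT.1 hmem).2)
          (fun j hj => hF1 j (hρ x hx j hj).1 x (hρ x hx j hj).2) (hl x hx)
        refine ⟨a, fun _ => ha1, fun h => by omega, fun h => ha2 ?_⟩
        have := hl x hx
        by_contra hcon
        exact h ⟨hx, by omega⟩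
      · refine ⟨0, fun h => absurd h hx, fun _ => ?_, fun _ => rfl⟩
        ext y
        rw [hF x y (fun hmem => hx (mem_TT.1 hmem).1), coeff_zero]
    choose a ha1 ha2 ha3 using hsh
    have hF0 : ∀ x, ¬ (x < N0 ∧ l x = ρ x + 1) → taylor 1 (F x) = 0 := by
      intro x hx
      by_cases hxN : x < N0
      · rw [ha1 x hxN, ha3 x hx, map_zero, zero_mul]
      · rw [ha2 x (not_lt.1 hxN), map_zero]
    obtain ⟨Λ, hΛ⟩ : ∃ Λ : ℕ → ℕ → ℚ, Λ = fun s x => Lf (b s) (ρ s)
      (((C (m : ℚ) * taylor 1 (F x) - X * derivative (taylor 1 (F x)) : ℚ[X])) : PowerSeries ℚ) := ⟨_, rfl⟩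
    have hΛ0 : ∀ s x, ¬ (x < N0 ∧ l x = ρ x + 1) → Λ s x = 0 := by
      intro s x hx
      rw [hΛ]
      simp only
      rw [hF0 x hx]
      simp [Lf]
    have hΛ1 : ∀ s x, x < N0 → b s ≤ b x → b x + ρ x + 1 = b s + ρ s →
        Λ s x = a x * (if b s < b x then (m : ℚ) - (b x + ρ x) else (m : ℚ) - ρ x) := by
      intro s x hx h5 h6
      rw [hΛ]
      simp only
      rw [ha1 x hx, derivative_C_mul]
      have e1 : (((C (m : ℚ) * (C (a x) * ((X + 1) ^ b x * X ^ ρ x)) -
          X * (C (a x) * derivative ((X + 1) ^ b x * X ^ ρ x)) : ℚ[X])) : PowerSeries ℚ) =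
          PowerSeries.C (a x) * (((C (m : ℚ) * ((X + 1) ^ b x * X ^ ρ x) -
            X * derivative ((X + 1) ^ b x * X ^ ρ x) : ℚ[X])) : PowerSeries ℚ) := by
        rw [← Polynomial.coe_C, ← Polynomial.coe_mul]
        congr 1
        ring
      rw [e1, Lf_C_mul, Lf_src h5 h6]
    -- the relation at a sink
    have hrel : ∀ s < N0, l s + 1 = ρ s → ∑ i ∈ range n with i ≤ s, τ i * Λ s (s - i) = 0 := by
      intro s hs hls
      obtain ⟨g, hg⟩ : X ^ (b s) ∣ G s := by
        rw [X_pow_dvd_iff]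
        intro d hd
        exact hG s d fun hmem => by have := (mem_TT.1 hmem).2.1; omega
      have ht : taylor 1 (G s) = (X + 1) ^ (b s) * taylor 1 g := by
        rw [hg, taylor_mul, taylor_X_pow]
        simp
      have hL1 : Lf (b s) (ρ s) ((taylor 1 (G s) : ℚ[X]) : PowerSeries ℚ) = 0 := by
        have e1 : ((taylor 1 (G s) : ℚ[X]) : PowerSeries ℚ) =
            (1 + PowerSeries.X : PowerSeries ℚ) ^ (b s) * ((taylor 1 g : ℚ[X]) : PowerSeries ℚ) := by
          rw [ht]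
          simp only [Polynomial.coe_mul, Polynomial.coe_pow, Polynomial.coe_add, Polynomial.coe_X,
            Polynomial.coe_one]
          ring
        rw [e1, Lf_mul, Polynomial.coeff_coe]
        by_cases hg0 : g = 0
        · rw [hg0, map_zero, coeff_zero]
        · apply coeff_eq_zero_of_natDegree_lt
          rw [natDegree_taylor]
          by_contra hcon
          push Not at hcon
          have h1 := hG s (g.natDegree + b s) fun hmem => by have := (mem_TT.1 hmem).2.2; omega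
          rw [hg, mul_comm, coeff_mul_X_pow, coeff_natDegree, leadingCoeff_eq_zero] at h1
          exact hg0 h1
      have hL2 : Lf (b s) (ρ s) ((taylor 1 (G s) : ℚ[X]) : PowerSeries ℚ) =
          Lf (b s) (ρ s) (∑ i ∈ range n with i ≤ s, PowerSeries.C (τ i) *
            (((C (m : ℚ) * taylor 1 (F (s - i)) - X * derivative (taylor 1 (F (s - i))) : ℚ[X])) :
              PowerSeries ℚ)) := by
        apply Lf_congr (by omega)
        intro j hj
        obtain ⟨hj1, hj2⟩ := hρ s hs j hj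
        rw [Polynomial.coeff_coe, hG1 j hj1 s hj2, map_sum, mul_sum]
        apply sum_congr rfl
        intro i _
        rw [PowerSeries.coeff_C_mul, Polynomial.coeff_coe, coeff_m_sub, Nat.cast_sub hj1.le]
        ring
      rw [hL1, Lf_sum] at hL2
      rw [hL2]
      apply sum_congr rfl
      intro i _
      rw [Lf_C_mul, hΛ]
    -- the coefficients vanish
    have ha : ∀ x, x < N0 → l x = ρ x + 1 → a x = 0 := by
      intro x0 hx0 hlx0
      obtain ⟨A, hA⟩ : ∃ A, A = (range N0).filter fun x => l x = ρ x + 1 ∧ cyc x = cyc x0 := ⟨_, rfl⟩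
      obtain ⟨B, hB⟩ : ∃ B, B = (range N0).filter fun s => l s + 1 = ρ s ∧ cyc s = cyc x0 := ⟨_, rfl⟩
      have hAB : A.card ≤ B.card := by rw [hA, hB]; exact h2 (cyc x0)
      have hmA : ∀ x ∈ A, x < N0 ∧ l x = ρ x + 1 ∧ cyc x = cyc x0 := by
        intro x hx
        rw [hA, mem_filter, mem_range] at hx
        exact hx
      have hmB : ∀ x ∈ B, x < N0 ∧ l x + 1 = ρ x ∧ cyc x = cyc x0 := by
        intro x hx
        rw [hB, mem_filter, mem_range] at hx
        exact hx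
      have hAB3 : ∀ x ∈ A, ∀ s ∈ B, x < s ∧ s ≤ x + κ ∧ b s ≤ b x ∧ b x + ρ x + 1 = b s + ρ s ∧
          m ≠ b x + ρ x := by
        intro x hx s hs
        obtain ⟨u1, u2, u3⟩ := hmA x hx
        obtain ⟨v1, v2, v3⟩ := hmB s hs
        exact h3 x u1 s v1 u2 v2 (by rw [u3, v3])
      have key := inj_fin hAB (fun x hx s hs => (hAB3 x hx s hs).1.le) hP
        (fun x s => if b s < b x then (m : ℤ) - (b x + ρ x) else (m : ℤ) - ρ x) ?_ ?_ a ?_
      · exact key x0 (by rw [hA, mem_filter, mem_range]; exact ⟨hx0, hlx0, rfl⟩)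
      · intro x hx s hs
        obtain ⟨w1, w2, w3, w4, w5⟩ := hAB3 x hx s hs
        obtain ⟨v1, v2, v3⟩ := hmB s hs
        split_ifs with hlt
        · omega
        · have h7 := (hρ s v1 (ρ s - 1) (by omega)).1
          omega
      · intro x hx s hs
        have h7 := hbig x (hmA x hx).1
        split_ifs with hlt
        · omega
        · omega
      · intro s hs
        obtain ⟨v1, v2, v3⟩ := hmB s hs
        rw [← hrel s v1 v2]
        have hsub : A.image (fun x => s - x) ⊆ (range n).filter fun i => i ≤ s := by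
          intro i hi
          rw [mem_image] at hi
          obtain ⟨x, hx, rfl⟩ := hi
          have := hAB3 x hx s hs
          rw [mem_filter, mem_range]
          omega
        rw [← sum_subset hsub, sum_image]
        · apply sum_congr rfl
          intro x hx
          obtain ⟨w1, w2, w3, w4, w5⟩ := hAB3 x hx s hs
          have e1 : s - (s - x) = x := by omega
          simp only [e1]
          rw [hΛ1 s x (hmA x hx).1 w3 w4, hτ]
          simp only
          rw [if_pos (show 1 ≤ s - x ∧ s - x ≤ κ by omega)]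
          push_cast
          ring
        · intro x hx x' hx' h
          have h8 := (hAB3 x hx s hs).1
          have h9 := (hAB3 x' hx' s hs).1
          simp only at h
          omega
        · intro i hi hni
          rw [mem_filter, mem_range] at hi
          by_cases hi2 : 1 ≤ i ∧ i ≤ κ
          · have h10 : ¬ (s - i < N0 ∧ l (s - i) = ρ (s - i) + 1) := by
              rintro ⟨h11, h12⟩
              apply hni
              rw [mem_image]
              refine ⟨s - i, ?_, by omega⟩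
              have h13 := h4 (s - i) h11 s v1 h12 v2 (by omega) (by omega)
              rw [hA, mem_filter, mem_range]
              exact ⟨h11, h12, by rw [h13, v3]⟩
            rw [hΛ0 _ _ h10, mul_zero]
          · rw [hτ]
            simp only
            rw [if_neg hi2, zero_mul]
    intro x
    by_cases hx : x < N0 ∧ l x = ρ x + 1
    · apply taylor_injective 1
      rw [ha1 x hx.1, ha x hx.1 hx.2, map_zero, zero_mul, map_zero]
    · apply taylor_injective 1
      rw [hF0 x hx, map_zero]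

end Pool.Agent.K7.H2.FO
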