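import Pool.Agent.TH176.Nag.Flat

set_option autoImplicit false

/-! Laurent polynomials with multiplicities at points of the line `Y = 1`: the rows are divisible
by powers of the polynomial vanishing at the points. -/

namespace Pool.Agent.K7.H2.FO

open Polynomial Finset Pool.Agent.TH176.Nag

/-- the exponents as pairs of integers -/
def castT (T : Finset (ℕ × ℕ)) : Finset (ℤ × ℤ) :=
  T.map ⟨fun p => ((p.1 : ℤ), (p.2 : ℤ)), fun p q h => by
    simp only [Prod.mk.injEq, Nat.cast_inj] at h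
    exact Prod.ext h.1 h.2⟩

theorem card_castT (T : Finset (ℕ × ℕ)) : (castT T).card = T.card := card_map _

section row
variable {K : Type} [Field K]

/-- the `j`-th Taylor coefficient in the second variable along `Y = 1` -/
noncomputable def row (T : Finset (ℕ × ℕ)) (c : ℕ × ℕ → K) (j : ℕ) : K[X] :=
  ∑ p ∈ T, monomial p.1 (c p * (p.2.choose j : K))

theorem coeff_row (T : Finset (ℕ × ℕ)) (c : ℕ × ℕ → K) (j e : ℕ) :
    (row T c j).coeff e = ∑ p ∈ T with p.1 = e, c p * (p.2.choose j : K) := by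
  unfold row
  rw [finsetSum_coeff, sum_filter]
  apply sum_congr rfl
  intro p _
  rw [coeff_monomial]

theorem natDegree_row_le (T : Finset (ℕ × ℕ)) (c : ℕ × ℕ → K) (j : ℕ) (R : ℕ)
    (hR : ∀ p ∈ T, j ≤ p.2 → p.1 ≤ R) {e : ℕ} (he : R < e) : (row T c j).coeff e = 0 := by
  rw [coeff_row]
  apply sum_eq_zero
  intro p hp
  rw [mem_filter] at hp
  by_cases h : j ≤ p.2
  · have := hR p hp.1 h
    omega
  · rw [Nat.choose_eq_zero_of_lt (by omega)]
    simp

theorem hasse_row (T : Finset (ℕ × ℕ)) (c : ℕ × ℕ → K) (j a : ℕ) (z : K) :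
    (hasseDeriv a (row T c j)).eval z * z ^ a =
      ∑ p ∈ T, c p * (p.2.choose j : K) * (p.1.choose a : K) * z ^ p.1 := by
  unfold row
  rw [map_sum, eval_finsetSum, sum_mul]
  apply sum_congr rfl
  intro p _
  rw [hasseDeriv_monomial, eval_monomial]
  by_cases h : a ≤ p.1
  · have e : z ^ p.1 = z ^ (p.1 - a) * z ^ a := by rw [← pow_add]; congr 1; omega
    rw [e]; ring
  · rw [Nat.choose_eq_zero_of_lt (by omega : p.1 < a)]
    simp

theorem pr_castT {T : Finset (ℕ × ℕ)} {f : (ℤ × ℤ) →₀ K} (hf : (↑f.support : Set (ℤ × ℤ)) ⊆ ↑(castT T))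
    (x y : K) (P : K × K → K) :
    pr f x y P = ∑ p ∈ T, f ((p.1 : ℤ), (p.2 : ℤ)) * P ((p.1 : K), (p.2 : K)) * (x ^ p.1 * y ^ p.2) := by
  unfold pr
  rw [Finsupp.sum_of_support_subset f (coe_subset.1 hf) _ (by simp)]
  unfold castT
  rw [sum_map]
  apply sum_congr rfl
  intro p _
  show f ((p.1 : ℤ), (p.2 : ℤ)) * P (((p.1 : ℤ) : K), ((p.2 : ℤ) : K)) * (x ^ (p.1 : ℤ) * y ^ (p.2 : ℤ)) = _
  rw [zpow_natCast, zpow_natCast, Int.cast_natCast, Int.cast_natCast]

theorem row_dvd [CharZero K] {T : Finset (ℕ × ℕ)} {f : (ℤ × ℤ) →₀ K}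
    (hf : (↑f.support : Set (ℤ × ℤ)) ⊆ ↑(castT T)) {z : K} (hz : z ≠ 0) {m : ℕ}
    (hL : LM f z 1 m) (j : ℕ) :
    (X - C z) ^ (m - j) ∣ row T (fun p => f ((p.1 : ℤ), (p.2 : ℤ))) j := by
  rw [X_sub_C_pow_dvd_iff, X_pow_dvd_iff]
  intro a ha
  have h1 : (row T (fun p => f ((p.1 : ℤ), (p.2 : ℤ))) j).comp (X + C z) =
      taylor z (row T (fun p => f ((p.1 : ℤ), (p.2 : ℤ))) j) := rfl
  rw [h1, taylor_coeff]
  have h2 := hL _ (PF_desc2 (K := K) (a := a) (b := j) (w := m) (by omega))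
  rw [pr_castT hf] at h2
  have h3 : (a.factorial : K) * (j.factorial : K) *
      ((hasseDeriv a (row T (fun p => f ((p.1 : ℤ), (p.2 : ℤ))) j)).eval z * z ^ a) = 0 := by
    rw [hasse_row, ← h2, mul_sum]
    apply sum_congr rfl
    intro p _
    rw [prod_desc_nat, prod_desc_nat, one_pow]
    ring
  have h4 : (a.factorial : K) ≠ 0 := Nat.cast_ne_zero.2 (Nat.factorial_ne_zero a)
  have h5 : (j.factorial : K) ≠ 0 := Nat.cast_ne_zero.2 (Nat.factorial_ne_zero j)
  rcases mul_eq_zero.1 h3 with h | h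
  · exact absurd h (mul_ne_zero h4 h5)
  · exact (mul_eq_zero.1 h).resolve_right (pow_ne_zero _ hz)

theorem row_prod_dvd [CharZero K] {T : Finset (ℕ × ℕ)} {f : (ℤ × ℤ) →₀ K}
    (hf : (↑f.support : Set (ℤ × ℤ)) ⊆ ↑(castT T)) {n : ℕ} {z : Fin n → K} (hinj : Function.Injective z)
    (hz : ∀ i, z i ≠ 0) {m : ℕ}
    (hL : ∀ i, LM f (z i) 1 m) (j : ℕ) :
    (∏ i, (X - C (z i))) ^ (m - j) ∣ row T (fun p => f ((p.1 : ℤ), (p.2 : ℤ))) j := by
  rw [← prod_pow]
  apply Finset.prod_dvd_of_coprime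
  · intro a _ b _ hab
    apply IsCoprime.pow
    apply isCoprime_X_sub_C_of_isUnit_sub
    rw [isUnit_iff_ne_zero, sub_ne_zero]
    exact fun h => hab (hinj h)
  · intro i _
    exact row_dvd hf (hz i) (hL i) j

end row

end Pool.Agent.K7.H2.FO
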