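import Pool.Agent.K7.H2.FO.Cert
import Pool.Agent.TH641.NW.End2

set_option autoImplicit false

/-! The expected dimension in the new windows. -/

namespace Pool.Agent.K7.H2.FO

open Finset Pool.Agent.TH176.Nag Pool.Agent.TH603.Sur Pool.Agent.H932R3

/-- the thresholds, in thousandths -/
def thr : ℕ → ℕ
  | 12 => 616 | 14 => 571 | 17 => 569 | 18 => 575 | 19 => 631 | 20 => 565 | 22 => 624 | 23 => 561
  | 24 => 581 | 26 => 571 | 27 => 569 | 28 => 603 | 29 => 579 | 30 => 564 | 31 => 571 | 32 => 588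
  | 33 => 561 | 34 => 543 | 35 => 550 | _ => 1000

/-- independence in the new window -/
theorem sur_new {n m d : ℕ} (hn : 10 ≤ n)
    (h1 : (thr n : ℝ) * (√(n : ℝ) - 3) ≤ 1000 * (d - √(n : ℝ) * m))
    (h2 : (d : ℝ) - √(n : ℝ) * m < √(n : ℝ) - 3) : Sur (fun _ : Fin n => m) (TZ d) := by
  have hs3 : 0 < √(n : ℝ) - 3 := by
    have : 3 < √(n : ℝ) := Real.lt_sqrt_of_sq_lt (by
      have : (10 : ℝ) ≤ n := by exact_mod_cast hn
      linarith)
    linarith
  by_cases hmem : n ∈ ({12, 14, 17, 18, 19, 20, 22, 23, 24, 26, 27, 28, 29, 30, 31, 32, 33, 34, 35} :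
      Finset ℕ)
  · have key : ∀ {M s1 s2 A1 A2 b1 b2 B1 B2 G : ℤ} {L : ℕ} {tab : List (ℤ × ℕ)},
        cert n M s1 s2 A1 A2 b1 b2 B1 B2 G L tab = true → (M : ℤ) = 1000000 →
        (G : ℤ) = 1000 * thr n → Irrational √(n : ℝ) → Sur (fun _ : Fin n => m) (TZ d) := by
      intro M s1 s2 A1 A2 b1 b2 B1 B2 G L tab hc hM hG hirr
      refine sur_TZ hn hirr (sur_reg hn hc ?_ h2)
      rw [hM, hG]
      push_cast
      linarith
    have hirr : Irrational √(n : ℝ) := by
      rw [irrational_sqrt_natCast_iff]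
      rintro ⟨q, hq⟩
      have hq1 : q ≤ 6 := by
        by_contra hcon
        have : 7 * 7 ≤ q * q := Nat.mul_le_mul (by omega) (by omega)
        simp only [Finset.mem_insert, Finset.mem_singleton] at hmem
        omega
      have : q = 0 ∨ q = 1 ∨ q = 2 ∨ q = 3 ∨ q = 4 ∨ q = 5 ∨ q = 6 := by omega
      simp only [Finset.mem_insert, Finset.mem_singleton] at hmem
      rcases this with rfl | rfl | rfl | rfl | rfl | rfl | rfl <;> omega
    simp only [Finset.mem_insert, Finset.mem_singleton] at hmem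
    rcases hmem with rfl | rfl | rfl | rfl | rfl | rfl | rfl | rfl | rfl | rfl | rfl | rfl | rfl | rfl |
      rfl | rfl | rfl | rfl | rfl
    · exact key cert_12 rfl rfl hirr
    · exact key cert_14 rfl rfl hirr
    · exact key cert_17 rfl rfl hirr
    · exact key cert_18 rfl rfl hirr
    · exact key cert_19 rfl rfl hirr
    · exact key cert_20 rfl rfl hirr
    · exact key cert_22 rfl rfl hirr
    · exact key cert_23 rfl rfl hirr
    · exact key cert_24 rfl rfl hirr
    · exact key cert_26 rfl rfl hirr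
    · exact key cert_27 rfl rfl hirr
    · exact key cert_28 rfl rfl hirr
    · exact key cert_29 rfl rfl hirr
    · exact key cert_30 rfl rfl hirr
    · exact key cert_31 rfl rfl hirr
    · exact key cert_32 rfl rfl hirr
    · exact key cert_33 rfl rfl hirr
    · exact key cert_34 rfl rfl hirr
    · exact key cert_35 rfl rfl hirr
  · exfalso
    have h3 : thr n = 1000 := by
      simp only [Finset.mem_insert, Finset.mem_singleton, not_or] at hmem
      unfold thr
      split <;> simp_all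
    rw [h3] at h1
    push_cast at h1
    linarith

/-- **The expected dimension** above the new thresholds -/
theorem expDim_new {n : ℕ} (hn : 10 ≤ n) (hsq : ¬ IsSquare n) {m : ℕ} (hm : 1 ≤ m) {L : Type} [Field L]
    [CharZero L] :
    ∃ F : MvPolynomial (Fin n × Fin 2) ℚ, F ≠ 0 ∧ ∀ (P : Fin n → Fin 2 → L),
      MvPolynomial.aeval (fun ij : Fin n × Fin 2 => P ij.1 ij.2) F ≠ 0 →
      ∀ d : ℕ, (min (√(n : ℝ) - 3) (2 / 3 + 9 / (4 * √(n : ℝ))) <
            √(n : ℝ) * (2 * m + 1) - (2 * d + 3) ∨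
          min (√(n : ℝ) - 3) (2 / 3 + 1 / (4 * √(n : ℝ))) < (2 * d + 3) - √(n : ℝ) * (2 * m + 1) ∨
          (thr n : ℝ) * (√(n : ℝ) - 3) ≤ 1000 * (d - √(n : ℝ) * m)) →
        ExpDim L (fun _ => m) P d := by
  have hirr : Irrational √(n : ℝ) := irrational_sqrt_natCast_iff.2 hsq
  obtain ⟨F1, hF1, hF1'⟩ := Pool.Agent.TH641.NW.expDim_uni_win2 (L := L) hn hm
  obtain ⟨F2, hF2, hF2'⟩ := expDim_two (n := n) (w := fun _ => m) (A := fun _ => False)
    (B := fun d : ℕ => (thr n : ℝ) * (√(n : ℝ) - 3) ≤ 1000 * (d - √(n : ℝ) * m) ∧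
      (d : ℝ) - √(n : ℝ) * m < √(n : ℝ) - 3) 0 (fun d hd => hd.elim) (fun d hd => hd.elim)
    (fun d hd => sur_new hn hd.1 hd.2)
  refine ⟨F1 * F2, mul_ne_zero hF1 hF2, fun P hP d hd => ?_⟩
  rw [map_mul] at hP
  rcases hd with hd | hd | hd
  · exact hF1' P (left_ne_zero_of_mul hP) d (Or.inl hd)
  · exact hF1' P (left_ne_zero_of_mul hP) d (Or.inr hd)
  · rcases lt_or_ge ((d : ℝ) - √(n : ℝ) * m) (√(n : ℝ) - 3) with h | h
    · exact hF2' P (right_ne_zero_of_mul hP) d (Or.inr ⟨hd, h⟩)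
    · refine hF1' P (left_ne_zero_of_mul hP) d (Or.inr ?_)
      have h1 : (d : ℝ) - √(n : ℝ) * m ≠ √(n : ℝ) - 3 := by
        intro h2
        have h3 := hirr.mul_natCast (m := m + 1) (by omega)
        have h4 : √(n : ℝ) * ((m + 1 : ℕ) : ℝ) = ((d + 3 : ℕ) : ℝ) := by
          push_cast
          linarith
        rw [h4] at h3
        exact Nat.not_irrational _ h3
      have h2 := lt_of_le_of_ne h h1.symm
      have h3 := min_le_left (√(n : ℝ) - 3) (2 / 3 + 1 / (4 * √(n : ℝ)))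
      linarith

end Pool.Agent.K7.H2.FO
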