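import Pool.Agent.K7.H2.FO.CertE
import Pool.Agent.K7.H2.FO.Final

set_option autoImplicit false

/-! The expected dimension in the new windows on both sides. -/

namespace Pool.Agent.K7.H2.FO

open Finset Pool.Agent.TH176.Nag Pool.Agent.TH603.Sur Pool.Agent.H932R3

/-- the thresholds for emptiness, in units of `1 / 10000` -/
def thrE : ℕ → ℕ
  | 12 => 3333 | 14 => 3524 | 15 => 3333 | 17 => 2499 | 18 => 3237 | 19 => 2914 | 20 => 2650 | 22 => 2246 | 23 => 2668 | 24 => 2489 | 26 => 2661 | _ => 0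

/-- the starting points of the windows -/
def startE : ℕ → ℕ
  | 18 => 183 | 19 => 647 | 20 => 1026 | 22 => 1609 | 23 => 1837 | 24 => 2035 | 26 => 2360 | _ => 0

/-- the numbers of points -/
def listE : List ℕ := [12, 14, 15, 17, 18, 19, 20, 22, 23, 24, 26]

/-- emptiness in the new window -/
theorem emp_new {n m d : ℕ} (hn : n ∈ listE) (hm : 43 ≤ m)
    (h0 : 0 < (d : ℝ) - √(n : ℝ) * m)
    (h1 : (startE n : ℝ) * (√(n : ℝ) - 3) ≤ 10000 * (d - √(n : ℝ) * m))
    (h2 : 10000 * ((d : ℝ) - √(n : ℝ) * m) < thrE n * (√(n : ℝ) - 3)) :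
    Emp (fun _ : Fin n => m) (TZ d) := by
  unfold listE at hn
  simp only [List.mem_cons, List.not_mem_nil, or_false] at hn
  rcases hn with rfl | rfl | rfl | rfl | rfl | rfl | rfl | rfl | rfl | rfl | rfl
  · exact emp_modes base_12 certE_12 (by omega) hm h0 _ _ modes_12 h1 h2
  · exact emp_modes base_14 certE_14 (by omega) hm h0 _ _ modes_14 h1 h2
  · exact emp_modes base_15 certE_15 (by omega) hm h0 _ _ modes_15 h1 h2
  · exact emp_modes base_17 certE_17 (by omega) hm h0 _ _ modes_17 h1 h2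
  · exact emp_modes base_18 certE_18 (by omega) hm h0 _ _ modes_18 h1 h2
  · exact emp_modes base_19 certE_19 (by omega) hm h0 _ _ modes_19 h1 h2
  · exact emp_modes base_20 certE_20 (by omega) hm h0 _ _ modes_20 h1 h2
  · exact emp_modes base_22 certE_22 (by omega) hm h0 _ _ modes_22 h1 h2
  · exact emp_modes base_23 certE_23 (by omega) hm h0 _ _ modes_23 h1 h2
  · exact emp_modes base_24 certE_24 (by omega) hm h0 _ _ modes_24 h1 h2
  · exact emp_modes base_26 certE_26 (by omega) hm h0 _ _ modes_26 h1 h2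

theorem start_le {n : ℕ} (hn : n ∈ listE) :
    (startE n : ℝ) * (√(n : ℝ) - 3) ≤ 5000 * (√(n : ℝ) - 3 - min (√(n : ℝ) - 3) (2 / 3 + 9 / (4 * √(n : ℝ)))) := by
  have hmin1 := min_le_left (√(n : ℝ) - 3) (2 / 3 + 9 / (4 * √(n : ℝ)))
  have hmin2 := min_le_right (√(n : ℝ) - 3) (2 / 3 + 9 / (4 * √(n : ℝ)))
  have key : ∀ (a b : ℝ), a * a ≤ n → (n : ℝ) ≤ b * b → 0 < a → 0 < b → (startE n : ℝ) ≤ 5000 →
      (startE n : ℝ) * (b - 3) ≤ 5000 * (b - 3 - (b - a) - (2 / 3 + 9 / (4 * a))) →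
      (startE n : ℝ) * (√(n : ℝ) - 3) ≤ 5000 * (√(n : ℝ) - 3 - min (√(n : ℝ) - 3) (2 / 3 + 9 / (4 * √(n : ℝ)))) := by
    intro a b h1 h2 h3 h4 h5 h6
    have e1 : a ≤ √(n : ℝ) := Real.le_sqrt_of_sq_le (by rw [pow_two]; exact h1)
    have e2 : √(n : ℝ) ≤ b := Real.sqrt_le_iff.2 ⟨h4.le, by rw [pow_two]; exact h2⟩
    have e3 : 9 / (4 * √(n : ℝ)) ≤ 9 / (4 * a) := by
      apply div_le_div_of_nonneg_left (by norm_num) (by positivity) (by linarith)
    have e4 : (startE n : ℝ) * (√(n : ℝ) - 3) ≤ startE n * (b - 3) :=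
      mul_le_mul_of_nonneg_left (by linarith) (Nat.cast_nonneg _)
    linarith
  unfold listE at hn
  simp only [List.mem_cons, List.not_mem_nil, or_false] at hn
  rcases hn with rfl | rfl | rfl | rfl | rfl | rfl | rfl | rfl | rfl | rfl | rfl
  · have e : (startE 12 : ℝ) = 0 := by norm_num [startE]
    rw [e]
    linarith
  · have e : (startE 14 : ℝ) = 0 := by norm_num [startE]
    rw [e]
    linarith
  · have e : (startE 15 : ℝ) = 0 := by norm_num [startE]
    rw [e]
    linarith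
  · have e : (startE 17 : ℝ) = 0 := by norm_num [startE]
    rw [e]
    linarith
  · exact key 4.2426406 4.2426407 (by norm_num) (by norm_num) (by norm_num) (by norm_num) (by norm_num [startE]) (by norm_num [startE])
  · exact key 4.3588989 4.3588990 (by norm_num) (by norm_num) (by norm_num) (by norm_num) (by norm_num [startE]) (by norm_num [startE])
  · exact key 4.4721359 4.4721360 (by norm_num) (by norm_num) (by norm_num) (by norm_num) (by norm_num [startE]) (by norm_num [startE])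
  · exact key 4.6904157 4.6904158 (by norm_num) (by norm_num) (by norm_num) (by norm_num) (by norm_num [startE]) (by norm_num [startE])
  · exact key 4.7958315 4.7958316 (by norm_num) (by norm_num) (by norm_num) (by norm_num) (by norm_num [startE]) (by norm_num [startE])
  · exact key 4.8989794 4.8989795 (by norm_num) (by norm_num) (by norm_num) (by norm_num) (by norm_num [startE]) (by norm_num [startE])
  · exact key 5.0990195 5.0990196 (by norm_num) (by norm_num) (by norm_num) (by norm_num) (by norm_num [startE]) (by norm_num [startE])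

theorem listE_facts {n : ℕ} (hn : n ∈ listE) : 10 ≤ n ∧ ¬ IsSquare n ∧ thrE n ≤ 5000 := by
  unfold listE at hn
  simp only [List.mem_cons, List.not_mem_nil, or_false] at hn
  rcases hn with rfl | rfl | rfl | rfl | rfl | rfl | rfl | rfl | rfl | rfl | rfl <;>
    exact ⟨by norm_num, by decide +kernel, by norm_num [thrE]⟩

/-- **The expected dimension** outside the new windows -/
theorem expDim_newE {n : ℕ} (hn : n ∈ listE) {m : ℕ} (hm : 43 ≤ m) {L : Type} [Field L]
    [CharZero L] :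
    ∃ F : MvPolynomial (Fin n × Fin 2) ℚ, F ≠ 0 ∧ ∀ (P : Fin n → Fin 2 → L),
      MvPolynomial.aeval (fun ij : Fin n × Fin 2 => P ij.1 ij.2) F ≠ 0 →
      ∀ d : ℕ, (10000 * ((d : ℝ) - √(n : ℝ) * m) < thrE n * (√(n : ℝ) - 3) ∨
          min (√(n : ℝ) - 3) (2 / 3 + 1 / (4 * √(n : ℝ))) < (2 * d + 3) - √(n : ℝ) * (2 * m + 1) ∨
          (thr n : ℝ) * (√(n : ℝ) - 3) ≤ 1000 * (d - √(n : ℝ) * m)) →
        ExpDim L (fun _ => m) P d := by
  obtain ⟨hn10, hsq, -⟩ := listE_facts hn
  have hirr : Irrational √(n : ℝ) := irrational_sqrt_natCast_iff.2 hsq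
  have hs3 : 0 < √(n : ℝ) - 3 := by
    have : 3 < √(n : ℝ) := Real.lt_sqrt_of_sq_lt (by
      have : (10 : ℝ) ≤ n := by exact_mod_cast hn10
      linarith)
    linarith
  obtain ⟨F1, hF1, hF1'⟩ := expDim_new (L := L) hn10 hsq (show 1 ≤ m by omega)
  obtain ⟨F2, hF2, hF2'⟩ := expDim_two (n := n) (w := fun _ => m)
    (A := fun d : ℕ => 0 < (d : ℝ) - √(n : ℝ) * m ∧
      (startE n : ℝ) * (√(n : ℝ) - 3) ≤ 10000 * (d - √(n : ℝ) * m) ∧
      10000 * ((d : ℝ) - √(n : ℝ) * m) < thrE n * (√(n : ℝ) - 3))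
    (B := fun _ => False) (⌈√(n : ℝ) * m + thrE n * (√(n : ℝ) - 3)⌉₊)
    (fun d hd => by
      have h1 := Nat.le_ceil (√(n : ℝ) * m + thrE n * (√(n : ℝ) - 3))
      have h2 : (d : ℝ) ≤ (⌈√(n : ℝ) * m + thrE n * (√(n : ℝ) - 3)⌉₊ : ℝ) := by
        linarith [hd.1, hd.2.2]
      exact_mod_cast h2)
    (fun d hd => emp_new hn hm hd.1 hd.2.1 hd.2.2) (fun d hd => hd.elim)
  refine ⟨F1 * F2, mul_ne_zero hF1 hF2, fun P hP d hd => ?_⟩
  rw [map_mul] at hP
  rcases hd with hd | hd | hd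
  · rcases lt_or_ge (min (√(n : ℝ) - 3) (2 / 3 + 9 / (4 * √(n : ℝ))))
        (√(n : ℝ) * (2 * m + 1) - (2 * d + 3)) with h | h
    · exact hF1' P (left_ne_zero_of_mul hP) d (Or.inl h)
    · refine hF2' P (right_ne_zero_of_mul hP) d (Or.inl ⟨?_, ?_, hd⟩)
      · have h1 := min_le_left (√(n : ℝ) - 3) (2 / 3 + 9 / (4 * √(n : ℝ)))
        have h2 : 0 ≤ (d : ℝ) - √(n : ℝ) * m := by linarith
        refine lt_of_le_of_ne h2 fun h3 => ?_
        have h4 := hirr.mul_natCast (m := m) (by omega)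
        have h5 : √(n : ℝ) * (m : ℝ) = ((d : ℕ) : ℝ) := by linarith
        rw [h5] at h4
        exact Nat.not_irrational _ h4
      · have h1 := start_le hn
        linarith
  · exact hF1' P (left_ne_zero_of_mul hP) d (Or.inr (Or.inl hd))
  · exact hF1' P (left_ne_zero_of_mul hP) d (Or.inr (Or.inr hd))

end Pool.Agent.K7.H2.FO
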