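import Mathlib

set_option autoImplicit false

/-! A polynomial `A + c e X ^ n` with distinct nonzero roots, for a suitable rational `c`. -/

namespace Pool.Agent.K7.H2.FO

open Polynomial Finset

theorem exists_c {k Ω : Type} [Field k] [Field Ω] [Algebra k Ω] [IsAlgClosed Ω] [CharZero k]
    {n : ℕ} (hn : 1 ≤ n) {A : k[X]} (hA : A.natDegree < n) (hA0 : A.coeff 0 = 1) {e : k} (he : e ≠ 0) :
    ∃ c : ℚ, c ≠ 0 ∧ ∃ z : Fin n → Ω, Function.Injective z ∧ (∀ i, z i ≠ 0) ∧
      (A + C ((c : k) * e) * X ^ n).map (algebraMap k Ω) =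
        C (algebraMap k Ω ((c : k) * e)) * ∏ i, (X - C (z i)) := by
  classical
  have : CharZero Ω := charZero_of_injective_algebraMap (algebraMap k Ω).injective
  obtain ⟨N, hN⟩ : ∃ N : k[X], N = X * derivative A - C (n : k) * A := ⟨_, rfl⟩
  have hN0 : N ≠ 0 := by
    intro h
    have h1 : N.coeff 0 = 0 := by rw [h]; simp
    rw [hN] at h1
    simp [hA0] at h1
    omega
  obtain ⟨Z, hZ⟩ : ∃ Z : Finset Ω, Z = ((N.map (algebraMap k Ω)).roots.toFinset).image
      (fun r => -(eval r (A.map (algebraMap k Ω))) / (algebraMap k Ω e * r ^ n)) := ⟨_, rfl⟩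
  have hinj : Function.Injective (fun c : ℕ => ((c + 1 : ℕ) : Ω)) := by
    intro a b hab
    simp only [Nat.cast_inj] at hab
    omega
  obtain ⟨c0, hc0⟩ := Infinite.exists_notMem_finset (Z.preimage (fun c : ℕ => ((c + 1 : ℕ) : Ω)) hinj.injOn)
  rw [Finset.mem_preimage] at hc0
  refine ⟨((c0 + 1 : ℕ) : ℚ), Nat.cast_ne_zero.2 (by omega), ?_⟩
  have ecast : ((((c0 + 1 : ℕ) : ℚ)) : k) = ((c0 + 1 : ℕ) : k) := by simp
  rw [ecast]
  obtain ⟨cc, hcc⟩ : ∃ cc : k, cc = ((c0 + 1 : ℕ) : k) := ⟨_, rfl⟩
  have hcc0 : cc ≠ 0 := by rw [hcc]; exact Nat.cast_ne_zero.2 (by omega)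
  have hccΩ : algebraMap k Ω cc = ((c0 + 1 : ℕ) : Ω) := by rw [hcc]; simp
  rw [← hcc]
  obtain ⟨B, hB⟩ : ∃ B : Polynomial Ω, B = (A + C (cc * e) * X ^ n).map (algebraMap k Ω) := ⟨_, rfl⟩
  rw [← hB]
  have hce : cc * e ≠ 0 := mul_ne_zero hcc0 he
  have hlt : A.natDegree < (C (cc * e) * X ^ n : k[X]).natDegree := by
    rw [natDegree_C_mul_X_pow _ _ hce]; exact hA
  have hdeg : (A + C (cc * e) * X ^ n).natDegree = n := by
    rw [natDegree_add_eq_right_of_natDegree_lt hlt, natDegree_C_mul_X_pow _ _ hce]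
  have hBdeg : B.natDegree = n := by rw [hB, natDegree_map, hdeg]
  have hBlead : B.leadingCoeff = algebraMap k Ω (cc * e) := by
    rw [hB, leadingCoeff_map, leadingCoeff, hdeg, coeff_add, coeff_C_mul_X_pow, if_pos rfl,
      coeff_eq_zero_of_natDegree_lt hA, zero_add]
  have hB0 : B ≠ 0 := by
    intro h
    rw [h] at hBdeg
    simp at hBdeg
    omega
  have hBc : B.coeff 0 = 1 := by
    rw [hB, coeff_map, coeff_add, hA0, coeff_C_mul_X_pow, if_neg (by omega), add_zero, map_one]
  have hroot0 : ∀ r : Ω, B.IsRoot r → r ≠ 0 := by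
    intro r hr h
    rw [h, IsRoot.def, ← coeff_zero_eq_eval_zero, hBc] at hr
    exact one_ne_zero hr
  have hsimple : ∀ r : Ω, B.IsRoot r → (derivative B).IsRoot r → False := by
    intro r h1 h2
    have hr := hroot0 r h1
    rw [IsRoot.def] at h1 h2
    have e1 : eval r (A.map (algebraMap k Ω)) + algebraMap k Ω (cc * e) * r ^ n = 0 := by
      rw [← h1, hB]
      simp
    have e2 : eval r ((derivative A).map (algebraMap k Ω)) +
        algebraMap k Ω (cc * e) * (n * r ^ (n - 1)) = 0 := by
      rw [← h2, hB, derivative_map, derivative_add, derivative_C_mul, derivative_X_pow,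
        Polynomial.map_add, Polynomial.map_mul, Polynomial.map_mul, Polynomial.map_pow, map_X,
        map_C, map_C, eval_add, eval_mul, eval_mul, eval_pow, eval_X, eval_C, eval_C, map_natCast]
    have e3 : eval r (N.map (algebraMap k Ω)) = 0 := by
      rw [hN]
      simp only [Polynomial.map_sub, Polynomial.map_mul, map_X, eval_sub, eval_mul, eval_X,
        map_natCast, Polynomial.map_natCast, eval_natCast]
      have e4 : r * r ^ (n - 1) = r ^ n := by
        rw [← pow_succ']; congr 1; omega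
      linear_combination r * e2 - (n : Ω) * e1 - (algebraMap k Ω (cc * e)) * (n : Ω) * e4
    apply hc0
    rw [hZ, Finset.mem_image]
    refine ⟨r, ?_, ?_⟩
    · rw [Multiset.mem_toFinset, mem_roots (by
        intro h
        exact hN0 (Polynomial.map_injective _ (algebraMap k Ω).injective (by rw [h, Polynomial.map_zero])))]
      exact e3
    · have he' : algebraMap k Ω e ≠ 0 := by
        rw [Ne, map_eq_zero_iff _ (algebraMap k Ω).injective]; exact he
      rw [div_eq_iff (mul_ne_zero he' (pow_ne_zero _ hr)), ← hccΩ]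
      rw [map_mul] at e1
      linear_combination -e1
  have hspl : B.Splits := IsAlgClosed.splits B
  have hnodup : B.roots.Nodup := by
    rw [Multiset.nodup_iff_count_le_one]
    intro r
    rw [count_roots]
    by_contra hcon
    push Not at hcon
    rw [one_lt_rootMultiplicity_iff_isRoot hB0] at hcon
    exact hsimple r hcon.1 hcon.2
  have hcard : B.roots.toFinset.card = n := by
    rw [Multiset.toFinset_card_of_nodup hnodup, ← hspl.natDegree_eq_card_roots, hBdeg]
  let eq := (Finset.equivFinOfCardEq hcard).symm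
  refine ⟨fun i => (eq i : Ω), fun i j hij => eq.injective (Subtype.ext hij), fun i => ?_, ?_⟩
  · have h1 := (eq i).2
    rw [Multiset.mem_toFinset, mem_roots hB0] at h1
    exact hroot0 _ h1
  · conv_lhs => rw [hspl.eq_prod_roots, hBlead]
    congr 1
    have h1 : (B.roots.map fun a => X - C a).prod = ∏ r ∈ B.roots.toFinset, (X - C r) := by
      rw [Finset.prod, Multiset.toFinset_val, Multiset.dedup_eq_self.2 hnodup]
    rw [h1, ← Finset.prod_coe_sort B.roots.toFinset (fun r => X - C r)]
    exact (Fintype.prod_equiv eq _ _ (fun i => rfl)).symm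

end Pool.Agent.K7.H2.FO
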