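import Pool.Agent.K7.H2.FO.Val
import Pool.Agent.K7.H2.FO.Root

set_option autoImplicit false

/-! The first order lemma: emptiness from a first order computation with all the points on a line. -/

namespace Pool.Agent.K7.H2.FO

open Polynomial Finset Pool.Agent.TH176.Nag

theorem coeff_taylor_sum (T : Finset (ℕ × ℕ)) (g : ℕ × ℕ → ℚ) (x j : ℕ) :
    (taylor 1 (∑ p ∈ T with p.1 = x, monomial p.2 (g p))).coeff j =
      ∑ p ∈ T with p.1 = x, g p * (p.2.choose j : ℚ) := by
  rw [map_sum, finsetSum_coeff]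
  apply sum_congr rfl
  intro p _
  rw [taylor_coeff, hasseDeriv_monomial, eval_monomial, one_pow, mul_one, mul_comm]

theorem coeff_sum_monomial (T : Finset (ℕ × ℕ)) (g : ℕ × ℕ → ℚ) (x y : ℕ) :
    (∑ p ∈ T with p.1 = x, monomial p.2 (g p)).coeff y = if (x, y) ∈ T then g (x, y) else 0 := by
  rw [finsetSum_coeff]
  split_ifs with h
  · rw [sum_eq_single (x, y)]
    · rw [coeff_monomial, if_pos rfl]
    · rintro ⟨a, b⟩ hp hne
      rw [mem_filter] at hp
      simp only at hp
      rw [coeff_monomial, if_neg]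
      rintro rfl
      exact hne (by rw [← hp.2])
    · intro h1
      exact absurd (by rw [mem_filter]; exact ⟨h, rfl⟩) h1
  · apply sum_eq_zero
    rintro ⟨a, b⟩ hp
    rw [mem_filter] at hp
    simp only at hp
    rw [coeff_monomial, if_neg]
    rintro rfl
    apply h
    rw [← hp.2]
    exact hp.1

theorem fol {n m : ℕ} (hn : 1 ≤ n) (τ : ℕ → ℚ) (hτ0 : τ 0 = 0) (T : Finset (ℕ × ℕ)) (R : ℕ → ℕ)
    (hR : ∀ p ∈ T, ∀ j ≤ p.2, p.1 ≤ R j)
    (H : ∀ F G : ℕ → ℚ[X], (∀ x y, (x, y) ∉ T → (F x).coeff y = 0) →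
      (∀ x y, (x, y) ∉ T → (G x).coeff y = 0) →
      (∀ j < m, ∀ x, R j < x + n * (m - j) → (taylor 1 (F x)).coeff j = 0) →
      (∀ j < m, ∀ x, R j < x + n * (m - j) → (taylor 1 (G x)).coeff j =
        ((m - j : ℕ) : ℚ) * ∑ l ∈ range n with l ≤ x, τ l * (taylor 1 (F (x - l))).coeff j) →
      ∀ x, F x = 0) :
    Emp (fun _ : Fin n => m) (↑(castT T) : Set (ℤ × ℤ)) := by
  classical
  have hA : (1 + C eps * tauP n τ : Polynomial (LaurentSeries ℚ)).natDegree < n := by
    have h2 : (tauP n τ : Polynomial (LaurentSeries ℚ)).natDegree ≤ n - 1 := by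
      unfold tauP
      apply natDegree_sum_le_of_forall_le
      intro i hi
      have := mem_range.1 hi
      exact (natDegree_C_mul_X_pow_le _ _).trans (by omega)
    have h3 : (C eps * tauP n τ : Polynomial (LaurentSeries ℚ)).natDegree ≤ n - 1 :=
      (natDegree_C_mul_le _ _).trans h2
    have h4 := natDegree_add_le (1 : Polynomial (LaurentSeries ℚ)) (C eps * tauP n τ)
    rw [natDegree_one] at h4
    have h5 : max 0 (C eps * tauP n τ : Polynomial (LaurentSeries ℚ)).natDegree ≤ n - 1 :=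
      max_le (by omega) h3
    omega
  have hA0 : (1 + C eps * tauP n τ : Polynomial (LaurentSeries ℚ)).coeff 0 = 1 := by
    rw [coeff_add, coeff_one_zero, coeff_C_mul]
    unfold tauP
    rw [finsetSum_coeff, sum_eq_zero, mul_zero, add_zero]
    intro i _
    rw [coeff_C_mul_X_pow]
    split_ifs with h
    · rw [← h, hτ0, map_zero]
    · rfl
  have he : (eps * eps : LaurentSeries ℚ) ≠ 0 :=
    mul_ne_zero (HahnSeries.single_ne_zero one_ne_zero) (HahnSeries.single_ne_zero one_ne_zero)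
  obtain ⟨c, hc, z, hinj, hz, hprod⟩ := exists_c (k := LaurentSeries ℚ)
    (Ω := AlgebraicClosure (LaurentSeries ℚ)) hn hA hA0 he
  have hQ : (1 + C eps * tauP n τ + C ((c : LaurentSeries ℚ) * (eps * eps)) * X ^ n) = QQ n τ c := by
    unfold QQ
    have e1 : ((c : LaurentSeries ℚ)) = HahnSeries.C c := by
      have e0 := map_ratCast (HahnSeries.C : ℚ →+* LaurentSeries ℚ) c
      rw [Rat.cast_id] at e0
      exact e0.symm
    rw [e1, mul_assoc (HahnSeries.C c) eps eps]
  rw [hQ] at hprod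
  have hce : algebraMap (LaurentSeries ℚ) (AlgebraicClosure (LaurentSeries ℚ))
      ((c : LaurentSeries ℚ) * (eps * eps)) ≠ 0 := by
    intro h
    have h0 : ((c : LaurentSeries ℚ) * (eps * eps)) ≠ 0 := mul_ne_zero (Rat.cast_ne_zero.2 hc) he
    exact h0 ((algebraMap (LaurentSeries ℚ) (AlgebraicClosure (LaurentSeries ℚ))).injective
      (by rw [h, map_zero]))
  refine ⟨AlgebraicClosure (LaurentSeries ℚ), inferInstance,
    charZero_of_injective_algebraMap (algebraMap (LaurentSeries ℚ) _).injective, z, fun _ => 1, hz,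
    fun _ => one_ne_zero, ?_⟩
  have : CharZero (AlgebraicClosure (LaurentSeries ℚ)) :=
    charZero_of_injective_algebraMap (algebraMap (LaurentSeries ℚ) _).injective
  intro f hfS hfL
  by_contra hf0
  obtain ⟨p0, hp0⟩ : ∃ p0, f p0 ≠ 0 := by
    by_contra hcon
    push Not at hcon
    exact hf0 (Finsupp.ext hcon)
  obtain ⟨φ, hφ⟩ : ∃ φ : AlgebraicClosure (LaurentSeries ℚ) →ₗ[LaurentSeries ℚ] LaurentSeries ℚ,
      φ (f p0) ≠ 0 := by
    by_contra hcon
    push Not at hcon
    exact hp0 ((Module.forall_dual_apply_eq_zero_iff (LaurentSeries ℚ) (f p0)).1 hcon)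
  -- the descended polynomial
  have hg0 : (f.mapRange φ (map_zero φ)) ≠ 0 := by
    intro h
    have := DFunLike.congr_fun h p0
    simp only [Finsupp.mapRange_apply, Finsupp.coe_zero, Pi.zero_apply] at this
    exact hφ this
  obtain ⟨ν, hν1, hν2, -⟩ := exists_lead hg0
  obtain ⟨g, hg⟩ : ∃ g : ℕ × ℕ → LaurentSeries ℚ, g = fun p => φ (f ((p.1 : ℤ), (p.2 : ℤ))) := ⟨_, rfl⟩
  have hgν : ∀ p, vge ν (g p) := by
    intro p i hi
    have := hν2 ((p.1 : ℤ), (p.2 : ℤ)) i hi
    rw [Finsupp.mapRange_apply] at this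
    rw [hg]
    exact this
  have hdvd : ∀ j, QQ n τ c ^ (m - j) ∣ row T g j := by
    intro j
    have h1 := row_prod_dvd hfS hinj hz hfL j
    obtain ⟨q, hq⟩ := h1
    have h2 : (QQ n τ c).map (algebraMap (LaurentSeries ℚ) (AlgebraicClosure (LaurentSeries ℚ))) ^ (m - j) ∣
        row T (fun p => f ((p.1 : ℤ), (p.2 : ℤ))) j := by
      have hu : IsUnit ((C (algebraMap (LaurentSeries ℚ) (AlgebraicClosure (LaurentSeries ℚ))
          ((c : LaurentSeries ℚ) * (eps * eps)))) ^ (m - j)) :=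
        (isUnit_C.2 (isUnit_iff_ne_zero.2 hce)).pow _
      rw [hprod, mul_pow, hq, hu.mul_left_dvd]
      exact dvd_mul_right _ _
    obtain ⟨q', hq'⟩ := h2
    refine ⟨fmap φ q', ?_⟩
    rw [hg, ← fmap_row φ T (fun p => f ((p.1 : ℤ), (p.2 : ℤ))) j, hq', ← Polynomial.map_pow, fmap_mul]
  have hV : ∀ j, VG ν (row T g j) := by
    intro j e
    rw [coeff_row]
    refine vge_sum fun p _ => ?_
    have h1 : vge (ν + 0) (g p * ((p.2.choose j : ℕ) : LaurentSeries ℚ)) := by
      refine vge_mul (hgν p) ?_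
      have := vge_C (F := ℚ) ((p.2.choose j : ℕ) : ℚ)
      rwa [map_natCast] at this
    rwa [add_zero] at h1
  have hD : ∀ j, ∀ e, R j < e → (row T g j).coeff e = 0 := fun j e he =>
    natDegree_row_le T g j (R j) (fun p hp hj => hR p hp j hj) he
  have hco : ∀ (i : ℤ) (x j : ℕ), (taylor 1 (∑ p ∈ T with p.1 = x, monomial p.2 ((g p).coeff i))).coeff j =
      ((row T g j).coeff x).coeff i := by
    intro i x j
    rw [coeff_taylor_sum T (fun p => (g p).coeff i), coeff_row, HahnSeries.coeff_sum]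
    apply sum_congr rfl
    intro p _
    have e1 : ((p.2.choose j : ℕ) : LaurentSeries ℚ) = HahnSeries.C ((p.2.choose j : ℕ) : ℚ) := by
      rw [map_natCast]
    rw [e1, coeff_mul_cst, mul_comm]
  have hF := H (fun x => ∑ p ∈ T with p.1 = x, monomial p.2 ((g p).coeff ν))
    (fun x => ∑ p ∈ T with p.1 = x, monomial p.2 ((g p).coeff (ν + 1)))
    (fun x y hxy => by rw [coeff_sum_monomial T (fun p => (g p).coeff ν), if_neg hxy])
    (fun x y hxy => by rw [coeff_sum_monomial T (fun p => (g p).coeff (ν + 1)), if_neg hxy])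
    (fun j _ x hx => by
      rw [hco]
      exact (first_order hn τ hc (hV j) (hD j) (hdvd j) hx).1)
    (fun j _ x hx => by
      rw [hco, (first_order hn τ hc (hV j) (hD j) (hdvd j) hx).2]
      congr 1
      apply sum_congr rfl
      intro l _
      rw [hco])
  apply hν1
  ext q
  rw [Finsupp.mapRange_apply, Finsupp.mapRange_apply, Finsupp.coe_zero, Pi.zero_apply]
  by_cases hq : q ∈ castT T
  · unfold castT at hq
    rw [mem_map] at hq
    obtain ⟨p, hp, rfl⟩ := hq
    have h1 := congrArg (fun P : ℚ[X] => P.coeff p.2) (hF p.1)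
    simp only [coeff_zero] at h1
    rw [coeff_sum_monomial T (fun p => (g p).coeff ν), if_pos hp] at h1
    rw [hg] at h1
    exact h1
  · have h1 : f q = 0 := by
      by_contra hne
      exact hq (hfS (mem_coe.2 (Finsupp.mem_support_iff.2 hne)))
    rw [h1, map_zero, HahnSeries.coeff_zero]

end Pool.Agent.K7.H2.FO
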