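import Pool.Agent.K7.H2.FO.Ct
import Pool.Agent.K7.H2.FO.Arcs
import Pool.Agent.TH603.Sur.Basic

set_option autoImplicit false

/-! The columns of the triangle, and independence from the balance of sources and sinks. -/

namespace Pool.Agent.K7.H2.FO

open Finset Pool.Agent.TH176.Nag Pool.Agent.TH603.Sur

/-- the parameters of a triangle -/
structure Par (n m : ℕ) where
  α : ℝ
  β : ℝ
  γ : ℝ
  h : ℝ
  K : ℝ
  hα : 0 < α
  hβ : α < β
  hγ0 : 0 ≤ γ
  hγ1 : γ < 1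
  hK : K * α = 1
  hKn : K < n
  hβ' : ((n : ℝ) - K) * (β - α) = 1
  hγ : K * h - n * m = γ * (n - K)
  hA1 : m * β ≤ (β - α) * h
  hA2 : (β - α) * h ≤ (m + γ) * β

variable {n m : ℕ} (P : Par n m)

namespace Par

/-- top -/
noncomputable def A (x : ℕ) : ℝ := P.h - P.α * x
/-- bottom -/
noncomputable def Y (x : ℕ) : ℝ := P.h - P.β * x
/-- number of conditions -/
noncomputable def W (x : ℕ) : ℝ := (P.β - P.α) * x - P.γ

/-- first exponent of a column -/
noncomputable def bx (x : ℕ) : ℕ := ⌈P.Y x⌉₊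
/-- number of conditions of a column -/
noncomputable def rx (x : ℕ) : ℕ := if 0 < P.Y x then ⌈P.W x⌉₊ else min m (⌊P.A x⌋₊ + 1)
/-- cycle of a column -/
noncomputable def cy (x : ℕ) : ℤ := ⌈P.A x - P.γ⌉
/-- number of columns -/
noncomputable def N0 : ℕ := ⌊P.K * P.h⌋₊ + 1
/-- right ends of the rows -/
noncomputable def R (j : ℕ) : ℕ := ⌊P.K * (P.h - j)⌋₊

/-- a column with one condition more -/
def bump (x : ℕ) : Prop := 0 < P.Y x ∧ (P.bx x : ℤ) + P.rx x = P.cy x + 1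
/-- possible sources -/
def cand (x : ℕ) : Prop := 0 < P.Y x ∧ (P.cy x : ℝ) ≤ P.A x ∧ (P.bx x : ℤ) + P.rx x = P.cy x
/-- sinks -/
def sink (x : ℕ) : Prop := 0 < P.Y x ∧ P.A x < P.cy x ∧ (P.bx x : ℤ) + P.rx x = P.cy x + 1

theorem YW (x : ℕ) : P.Y x + P.W x = P.A x - P.γ := by
  unfold Y W A; ring

theorem Kpos : 0 < P.K := by
  have h1 := P.hK
  have h2 := P.hα
  by_contra hcon
  push Not at hcon
  have := mul_nonpos_of_nonpos_of_nonneg hcon h2.le
  linarith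

theorem βpos : 0 < P.β := P.hα.trans P.hβ

theorem W_gt (x : ℕ) : -1 < P.W x := by
  unfold W
  have h1 : 0 ≤ (P.β - P.α) * x := mul_nonneg (by linarith [P.hβ]) (Nat.cast_nonneg x)
  linarith [P.hγ1]

theorem W_le_A (x : ℕ) (hY : 0 < P.Y x) : P.W x < P.A x := by
  have := P.YW x
  have := P.hγ0
  linarith

theorem bx_cast (x : ℕ) (hY : 0 < P.Y x) : (P.bx x : ℤ) = ⌈P.Y x⌉ := by
  unfold bx
  exact Int.natCast_ceil_eq_ceil hY.le

theorem rx_cast (x : ℕ) (hY : 0 < P.Y x) : (P.rx x : ℤ) = ⌈P.W x⌉ := by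
  unfold rx
  rw [if_pos hY]
  have h1 : 0 ≤ ⌈P.W x⌉ := by
    have := P.W_gt x
    have h2 := Int.le_ceil (P.W x)
    have h3 : (-1 : ℝ) < (⌈P.W x⌉ : ℝ) := lt_of_lt_of_le this h2
    have h4 : (-1 : ℤ) < ⌈P.W x⌉ := by exact_mod_cast h3
    omega
  rcases le_or_gt 0 (P.W x) with h2 | h2
  · exact Int.natCast_ceil_eq_ceil h2
  · rw [Nat.ceil_eq_zero.2 h2.le]
    have h3 : ⌈P.W x⌉ ≤ 0 := Int.ceil_le.2 (by push_cast; exact h2.le)
    push_cast
    omega

theorem two_cases (x : ℕ) (hY : 0 < P.Y x) : (P.bx x : ℤ) + P.rx x = P.cy x ∨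
    (P.bx x : ℤ) + P.rx x = P.cy x + 1 := by
  rw [P.bx_cast x hY, P.rx_cast x hY]
  unfold cy
  rw [← P.YW x]
  have h1 := Int.ceil_add_le (P.Y x) (P.W x)
  have h2 := Int.ceil_add_ceil_le (P.Y x) (P.W x)
  omega

theorem bump_iff (x : ℕ) (hY : 0 < P.Y x) :
    P.bump x ↔ (P.cy x : ℝ) - (P.A x - P.γ) < Int.fract (-(P.Y x)) := by
  have h1 : Int.fract (-(P.Y x)) = ⌈P.Y x⌉ - P.Y x := by
    rw [Int.fract, Int.floor_neg]
    push_cast
    ring
  rw [h1]
  have h2 := Int.le_ceil (P.W x)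
  have h3 := Int.ceil_lt_add_one (P.W x)
  have h4 := P.YW x
  have h5 := P.two_cases x hY
  unfold bump
  constructor
  · rintro ⟨-, h6⟩
    rw [P.bx_cast x hY, P.rx_cast x hY] at h6
    have h7 : (⌈P.Y x⌉ : ℝ) + ⌈P.W x⌉ = P.cy x + 1 := by exact_mod_cast h6
    linarith
  · intro h6
    refine ⟨hY, ?_⟩
    rcases h5 with h5 | h5
    · exfalso
      rw [P.bx_cast x hY, P.rx_cast x hY] at h5
      have h7 : (⌈P.Y x⌉ : ℝ) + ⌈P.W x⌉ = P.cy x := by exact_mod_cast h5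
      linarith
    · exact h5

/-- the columns with `0 < Y` -/
theorem A_gt (x : ℕ) (hY : 0 < P.Y x) : (m : ℝ) < P.A x := by
  have h1 := P.hA1
  unfold Y at hY
  unfold A
  have hβ := P.βpos
  -- β * A = β h - α β x > β h - α h ≥ m β
  have h2 : P.β * (P.h - P.α * x) > P.β * m := by
    have h3 : P.α * (P.β * x) < P.α * P.h := mul_lt_mul_of_pos_left (by linarith) P.hα
    nlinarith
  exact lt_of_mul_lt_mul_left h2 hβ.le

theorem W_lt_m (x : ℕ) (hY : 0 < P.Y x) : P.W x < m := by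
  have h1 := P.hA2
  unfold Y at hY
  unfold W
  have hβ := P.βpos
  have h2 : P.β * ((P.β - P.α) * x - P.γ) < P.β * m := by
    have h3 : (P.β - P.α) * (P.β * x) < (P.β - P.α) * P.h :=
      mul_lt_mul_of_pos_left (by linarith) (by linarith [P.hβ])
    nlinarith
  exact lt_of_mul_lt_mul_left h2 hβ.le

theorem W_gt_m (x : ℕ) (hY : P.Y x ≤ 0) : (m : ℝ) - 1 < P.W x := by
  have h1 := P.hA1
  unfold Y at hY
  unfold W
  have hβ := P.βpos
  have h2 : P.β * ((m : ℝ) - 1) < P.β * ((P.β - P.α) * x - P.γ) := by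
    have h3 : (P.β - P.α) * P.h ≤ (P.β - P.α) * (P.β * x) :=
      mul_le_mul_of_nonneg_left (by linarith) (by linarith [P.hβ])
    have h4 := P.hγ1
    nlinarith
  exact lt_of_mul_lt_mul_left h2 hβ.le

theorem rx_le (x : ℕ) : P.rx x ≤ m := by
  unfold rx
  split_ifs with h
  · exact Nat.ceil_le.2 (P.W_lt_m x h).le
  · exact min_le_left _ _

theorem W_iff (x j : ℕ) : (j : ℝ) < P.W x ↔ P.K * (P.h - j) < x + n * ((m : ℝ) - j) := by
  have h1 := P.hγ
  have h2 := P.hβ'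
  have h3 : 0 < (n : ℝ) - P.K := by linarith [P.hKn]
  unfold W
  rw [← mul_lt_mul_iff_right₀ h3]
  have e : ((n : ℝ) - P.K) * ((P.β - P.α) * x - P.γ) = x - (P.K * P.h - n * m) := by
    rw [h1]
    linear_combination (x : ℝ) * h2
  rw [e]
  constructor
  · intro h; linarith
  · intro h; linarith

theorem A_iff (x j : ℕ) : (j : ℝ) ≤ P.A x ↔ (x : ℝ) ≤ P.K * (P.h - j) := by
  have h1 := P.hK
  have h2 := P.Kpos
  unfold A
  rw [← mul_le_mul_iff_right₀ h2]
  have e : P.K * (P.h - P.α * x) = P.K * P.h - x := by linear_combination (-(x : ℝ)) * h1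
  rw [e]
  constructor
  · intro h; linarith
  · intro h; linarith

theorem R_iff (x j : ℕ) (hm : j < m) : P.R j < x + n * (m - j) ↔ (j : ℝ) < P.W x := by
  rw [P.W_iff]
  unfold R
  have hn : 1 ≤ n := by
    have h1 := P.hKn
    have h2 := P.Kpos
    have : (0 : ℝ) < n := by linarith
    exact_mod_cast this
  have hpos : x + n * (m - j) ≠ 0 := by
    have : 1 ≤ n * (m - j) := Nat.one_le_iff_ne_zero.2 (Nat.mul_ne_zero (by omega) (by omega))
    omega
  rw [Nat.floor_lt' hpos]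
  have e : ((x + n * (m - j) : ℕ) : ℝ) = x + n * ((m : ℝ) - j) := by
    rw [Nat.cast_add, Nat.cast_mul, Nat.cast_sub hm.le]
  rw [e]

theorem le_R_iff (x j : ℕ) : x ≤ P.R j ↔ x = 0 ∨ (j : ℝ) ≤ P.A x := by
  rw [P.A_iff]
  unfold R
  rcases Nat.eq_zero_or_pos x with h | h
  · simp [h]
  · rw [Nat.le_floor_iff' (by omega)]
    constructor
    · intro h'; exact Or.inr h'
    · rintro (h' | h')
      · omega
      · exact h'

theorem lt_N0 (x : ℕ) (hA : 0 ≤ P.A x) : x < P.N0 := by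
  have h1 := (P.A_iff x 0).1 (by push_cast; exact hA)
  unfold N0
  rw [Nat.lt_add_one_iff]
  apply Nat.le_floor
  simpa using h1

theorem A_nonneg {x : ℕ} (hh : 0 ≤ P.h) (hx : x < P.N0) : 0 ≤ P.A x := by
  have h1 := (P.A_iff x 0).2 (by
    unfold N0 at hx
    rw [Nat.lt_add_one_iff] at hx
    have h2 := Nat.floor_le (mul_nonneg P.Kpos.le hh)
    have h3 : (x : ℝ) ≤ ((⌊P.K * P.h⌋₊ : ℕ) : ℝ) := by exact_mod_cast hx
    push_cast
    linarith)
  simpa using h1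

theorem lt_rx_iff {x j : ℕ} (hx : x < P.N0) (hh : 0 ≤ P.h) (hj : j < m) :
    j < P.rx x ↔ ((j : ℝ) < P.W x ∧ (j : ℝ) ≤ P.A x) := by
  have hA := P.A_nonneg hh hx
  unfold rx
  split_ifs with hY
  · rw [Nat.lt_ceil]
    constructor
    · intro h
      exact ⟨h, (h.trans (P.W_le_A x hY)).le⟩
    · intro h
      exact h.1
  · rw [lt_min_iff, Nat.lt_add_one_iff, Nat.le_floor_iff hA]
    constructor
    · rintro ⟨h1, h2⟩
      refine ⟨?_, h2⟩
      have h3 := P.W_gt_m x (not_lt.1 hY)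
      have h4 : (j : ℝ) + 1 ≤ m := by exact_mod_cast hj
      linarith
    · rintro ⟨h1, h2⟩
      exact ⟨hj, h2⟩

end Par

end Pool.Agent.K7.H2.FO
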