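import Pool.Agent.K7.H2.FO.Geo

set_option autoImplicit false

/-! Independence from the balance of sources and sinks. -/

namespace Pool.Agent.K7.H2.FO

open Finset Pool.Agent.TH176.Nag Pool.Agent.TH603.Sur

variable {n m : ℕ} (P : Par n m)

namespace Par

noncomputable instance : DecidablePred P.bump := Classical.decPred _
noncomputable instance : DecidablePred P.cand := Classical.decPred _
noncomputable instance : DecidablePred P.sink := Classical.decPred _

theorem h_nonneg : 0 ≤ P.h := by
  have h1 := P.hA1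
  have h2 := P.hβ
  have h3 := P.βpos
  by_contra hcon
  push Not at hcon
  have h4 : (P.β - P.α) * P.h < 0 := mul_neg_of_pos_of_neg (by linarith) hcon
  have h5 : 0 ≤ (m : ℝ) * P.β := mul_nonneg (Nat.cast_nonneg m) h3.le
  linarith

theorem D_nonneg {j : ℕ} (hj : j < m) : n * (m - j) ≤ P.R j := by
  unfold R
  apply Nat.le_floor
  rw [Nat.cast_mul, Nat.cast_sub hj.le]
  have h1 := P.hγ
  have h2 := P.hKn
  have h3 : 0 ≤ P.γ * ((n : ℝ) - P.K) := mul_nonneg P.hγ0 (by linarith)
  have h4 : 0 ≤ ((n : ℝ) - P.K) * j := mul_nonneg (by linarith) (Nat.cast_nonneg j)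
  nlinarith

theorem row_card {j : ℕ} (hj : j < m) : ((range P.N0).filter fun x => j < P.rx x).card = n * (m - j) := by
  have h1 : ((range P.N0).filter fun x => j < P.rx x) = Finset.Ioc (P.R j - n * (m - j)) (P.R j) := by
    ext x
    rw [mem_filter, mem_range, Finset.mem_Ioc]
    have hD := P.D_nonneg hj
    constructor
    · rintro ⟨h2, h3⟩
      rw [P.lt_rx_iff h2 P.h_nonneg hj] at h3
      have h4 := (P.R_iff x j hj).2 h3.1
      have h5 := (P.le_R_iff x j).2 (Or.inr h3.2)
      omega
    · rintro ⟨h2, h3⟩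
      have h4 := (P.R_iff x j hj).1 (by omega)
      have h5 : (j : ℝ) ≤ P.A x := by
        rcases (P.le_R_iff x j).1 h3 with h6 | h6
        · omega
        · exact h6
      have h6 : x < P.N0 := P.lt_N0 x (le_trans (Nat.cast_nonneg j) h5)
      exact ⟨h6, (P.lt_rx_iff h6 P.h_nonneg hj).2 ⟨h4, h5⟩⟩
  rw [h1, Nat.card_Ioc]
  have hD := P.D_nonneg hj
  omega

theorem sum_sub (m : ℕ) : ∑ j ∈ range m, (m - j) = (m + 1).choose 2 := by
  have h1 : ∑ j ∈ range m, (m - j) = ∑ i ∈ range (m + 1), i := by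
    rw [sum_range_succ']
    simp only [add_zero]
    rw [← sum_range_reflect (fun i => i + 1) m]
    apply sum_congr rfl
    intro j hj
    rw [mem_range] at hj
    omega
  rw [h1, sum_range_id, Nat.choose_two_right]

theorem sum_rx : ∑ x ∈ range P.N0, P.rx x = Pool.Agent.TH603.Sur.cond (fun _ : Fin n => m) := by
  have h1 : ∀ x, P.rx x = ((range m).filter fun j => j < P.rx x).card := by
    intro x
    have h2 : ((range m).filter fun j => j < P.rx x) = range (P.rx x) := by
      ext j
      rw [mem_filter, mem_range, mem_range]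
      have := P.rx_le x
      omega
    rw [h2, card_range]
  have h3 : ∑ x ∈ range P.N0, P.rx x = ∑ j ∈ range m, ((range P.N0).filter fun x => j < P.rx x).card := by
    rw [sum_congr rfl fun x _ => h1 x]
    simp only [card_filter]
    rw [sum_comm]
  rw [h3, sum_congr rfl fun j hj => P.row_card (mem_range.1 hj), ← mul_sum, sum_sub]
  unfold Pool.Agent.TH603.Sur.cond
  simp

theorem cy_anti {x x' : ℕ} (h : x ≤ x') : P.cy x' ≤ P.cy x := by
  unfold cy
  apply Int.ceil_mono
  unfold A
  have h1 : (x : ℝ) ≤ x' := by exact_mod_cast h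
  have h2 := mul_le_mul_of_nonneg_left h1 P.hα.le
  linarith

theorem bx_anti {x x' : ℕ} (h : x ≤ x') : P.bx x' ≤ P.bx x := by
  unfold bx
  apply Nat.ceil_mono
  unfold Y
  have h1 : (x : ℝ) ≤ x' := by exact_mod_cast h
  have h2 := mul_le_mul_of_nonneg_left h1 P.βpos.le
  linarith

theorem Ypos {x : ℕ} (h : (m : ℤ) < P.cy x) : 0 < P.Y x := by
  by_contra hcon
  push Not at hcon
  have h1 : (m : ℝ) < P.A x - P.γ := by
    unfold cy at h
    rw [Int.lt_ceil] at h
    exact_mod_cast h
  have h2 := P.hA2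
  have h3 := P.βpos
  unfold Y at hcon
  unfold A at h1
  have h4 : P.β * (m : ℝ) < P.β * (P.h - P.α * x - P.γ) := mul_lt_mul_of_pos_left h1 h3
  have h5 : P.α * P.h ≤ P.α * (P.β * x) := mul_le_mul_of_nonneg_left (by linarith) P.hα.le
  nlinarith

theorem sink_gt {x : ℕ} (h : P.sink x) : (m : ℤ) < P.cy x := by
  have h1 := P.A_gt x h.1
  have h2 := h.2.1
  have h3 : (m : ℝ) < P.cy x := h1.trans h2
  exact_mod_cast h3

/-- the balance in one cycle -/
theorem balance {L : ℕ} (hL : 1 ≤ P.α * L)
    (Hfull : ∀ ψ v : ℝ, 0 ≤ ψ → ψ < P.α → (bumps L P.α P.β ψ v).card = 0 ∨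
      ψ + P.α * (((bumps L P.α P.β ψ v).card : ℝ) - 1) ≤ P.γ)
    (Hfirst : ∀ ψ : ℝ, 0 ≤ ψ → ψ < 1 → (∃ N : ℤ, P.h - P.γ = N - ψ) →
      (bumps L P.α P.β ψ (-P.h)).card = 0 ∨
      ψ + P.α * (((bumps L P.α P.β ψ (-P.h)).card : ℝ) - 1) ≤ P.γ) {N : ℤ} (hN : (m : ℤ) < N) :
    ((range P.N0).filter fun x => P.cy x = N ∧ P.bump x).card ≤
      ((range P.N0).filter fun x => P.cy x = N ∧ (N : ℝ) ≤ P.A x).card := by
  classical
  rcases Finset.eq_empty_or_nonempty ((range P.N0).filter fun x => P.cy x = N) with he | hne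
  · have h1 : ((range P.N0).filter fun x => P.cy x = N ∧ P.bump x) = ∅ := by
      rw [← filter_filter, he, filter_empty]
    rw [h1]
    simp
  · obtain ⟨x0, hx0, hmin⟩ := Finset.exists_min_image _ id hne
    simp only [mem_filter, mem_range, id] at hx0 hmin
    obtain ⟨ψ, hψ⟩ : ∃ ψ, ψ = (N : ℝ) - (P.A x0 - P.γ) := ⟨_, rfl⟩
    have hc1 := Int.le_ceil (P.A x0 - P.γ)
    have hc2 := Int.ceil_lt_add_one (P.A x0 - P.γ)
    have hcy : ⌈P.A x0 - P.γ⌉ = N := hx0.2
    rw [hcy] at hc1 hc2
    have hψ0 : 0 ≤ ψ := by rw [hψ]; linarith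
    have hψ1 : ψ < 1 := by rw [hψ]; linarith
    have hq : (bumps L P.α P.β ψ (-(P.Y x0))).card = 0 ∨
        ψ + P.α * (((bumps L P.α P.β ψ (-(P.Y x0))).card : ℝ) - 1) ≤ P.γ := by
      rcases Nat.eq_zero_or_pos x0 with h0 | h0
      · have e1 : P.Y x0 = P.h := by rw [h0]; unfold Y; simp
        have e2 : P.A x0 = P.h := by rw [h0]; unfold A; simp
        rw [e1]
        refine Hfirst ψ hψ0 hψ1 ⟨N, ?_⟩
        rw [hψ, e2]; ring
      · refine Hfull ψ _ hψ0 ?_
        have h1 : P.cy (x0 - 1) ≠ N := by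
          intro h
          have := hmin (x0 - 1) ⟨by omega, h⟩
          omega
        have h2 := P.cy_anti (Nat.sub_le x0 1)
        rw [hx0.2] at h2
        have h3 : N < P.cy (x0 - 1) := by omega
        unfold cy at h3
        rw [Int.lt_ceil] at h3
        unfold A at h3
        rw [hψ]
        unfold A
        rw [Nat.cast_sub h0] at h3
        push_cast at h3
        linarith
    have hsub : ((range P.N0).filter fun x => P.cy x = N ∧ P.bump x) ⊆
        (bumps L P.α P.β ψ (-(P.Y x0))).image fun i => x0 + i := by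
      intro x hx
      rw [mem_filter, mem_range] at hx
      obtain ⟨hx1, hx2, hx3⟩ := hx
      have h1 := hmin x ⟨hx1, hx2⟩
      rw [mem_image]
      refine ⟨x - x0, ?_, by omega⟩
      have hi : ((x - x0 : ℕ) : ℝ) = x - x0 := by rw [Nat.cast_sub h1]
      have h4 := (P.bump_iff x hx3.1).1 hx3
      rw [hx2] at h4
      have e1 : (N : ℝ) - (P.A x - P.γ) = ψ + P.α * ((x - x0 : ℕ) : ℝ) := by
        rw [hψ, hi]; unfold A; ring
      have e2 : -(P.Y x) = -(P.Y x0) + P.β * ((x - x0 : ℕ) : ℝ) := by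
        rw [hi]; unfold Y; ring
      rw [e1, e2] at h4
      unfold bumps
      rw [mem_filter, mem_range]
      refine ⟨?_, h4⟩
      have h5 : P.α * ((x - x0 : ℕ) : ℝ) < P.α * L := by
        have := Int.fract_lt_one (-(P.Y x0) + P.β * ((x - x0 : ℕ) : ℝ))
        linarith
      exact_mod_cast lt_of_mul_lt_mul_left h5 P.hα.le
    have h1 := card_le_card hsub
    have h2 := card_image_le (s := bumps L P.α P.β ψ (-(P.Y x0))) (f := fun i => x0 + i)
    rcases hq with hq | hq
    · omega
    · have hsub2 : (range (bumps L P.α P.β ψ (-(P.Y x0))).card).image (fun i => x0 + i) ⊆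
          ((range P.N0).filter fun x => P.cy x = N ∧ (N : ℝ) ≤ P.A x) := by
        intro x hx
        rw [mem_image] at hx
        obtain ⟨i, hi, rfl⟩ := hx
        rw [mem_range] at hi
        have hiR : (i : ℝ) ≤ ((bumps L P.α P.β ψ (-(P.Y x0))).card : ℝ) - 1 := by
          have : (i : ℝ) + 1 ≤ ((bumps L P.α P.β ψ (-(P.Y x0))).card : ℝ) := by exact_mod_cast hi
          linarith
        have h3 : P.α * i ≤ P.α * (((bumps L P.α P.β ψ (-(P.Y x0))).card : ℝ) - 1) :=
          mul_le_mul_of_nonneg_left hiR P.hα.le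
        have h4 : 0 ≤ P.α * i := mul_nonneg P.hα.le (Nat.cast_nonneg i)
        have e1 : P.A (x0 + i) = N - ψ + P.γ - P.α * i := by
          rw [hψ]; unfold A; push_cast; ring
        have h5 : (N : ℝ) ≤ P.A (x0 + i) := by rw [e1]; linarith
        have hNR : (m : ℝ) < N := by exact_mod_cast hN
        have hm0 : (0 : ℝ) ≤ m := Nat.cast_nonneg m
        rw [mem_filter, mem_range]
        refine ⟨P.lt_N0 _ (by linarith), ?_, h5⟩
        unfold cy
        rw [Int.ceil_eq_iff, e1]
        constructor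
        · linarith [P.hγ1]
        · linarith
      have h3 := card_le_card hsub2
      rw [card_image_of_injective _ (add_right_injective x0), card_range] at h3
      omega

theorem sinks_le {L : ℕ} (hL : 1 ≤ P.α * L)
    (Hfull : ∀ ψ v : ℝ, 0 ≤ ψ → ψ < P.α → (bumps L P.α P.β ψ v).card = 0 ∨
      ψ + P.α * (((bumps L P.α P.β ψ v).card : ℝ) - 1) ≤ P.γ)
    (Hfirst : ∀ ψ : ℝ, 0 ≤ ψ → ψ < 1 → (∃ N : ℤ, P.h - P.γ = N - ψ) →
      (bumps L P.α P.β ψ (-P.h)).card = 0 ∨
      ψ + P.α * (((bumps L P.α P.β ψ (-P.h)).card : ℝ) - 1) ≤ P.γ) (N : ℤ) :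
    ((range P.N0).filter fun x => P.cy x = N ∧ P.sink x).card ≤
      ((range P.N0).filter fun x => P.cy x = N ∧ P.cand x).card := by
  classical
  rcases le_or_gt N m with hN | hN
  · have h1 : ((range P.N0).filter fun x => P.cy x = N ∧ P.sink x) = ∅ := by
      apply filter_eq_empty_iff.2
      rintro x - ⟨h2, h3⟩
      have := P.sink_gt h3
      omega
    rw [h1]
    simp
  · have hb := P.balance hL Hfull Hfirst hN
    rw [← card_sdiff_le_card_sdiff_iff] at hb
    refine le_trans (card_le_card ?_) (hb.trans (card_le_card ?_))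
    · intro x hx
      rw [mem_filter] at hx
      rw [mem_sdiff, mem_filter, mem_filter]
      obtain ⟨h1, h2, h3⟩ := hx
      refine ⟨⟨h1, h2, h3.1, h3.2.2⟩, fun h4 => ?_⟩
      have h5 := h3.2.1
      rw [h2] at h5
      linarith [h4.2.2]
    · intro x hx
      rw [mem_sdiff, mem_filter, mem_filter] at hx
      obtain ⟨⟨h1, h2, h3⟩, h4⟩ := hx
      have hY : 0 < P.Y x := P.Ypos (by rw [h2]; exact hN)
      rw [mem_filter]
      refine ⟨h1, h2, hY, by rw [h2]; exact h3, ?_⟩
      rcases P.two_cases x hY with h5 | h5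
      · exact h5
      · exact absurd ⟨h1, h2, hY, h5⟩ h4

theorem sink_rx {x : ℕ} (h : P.sink x) : 1 ≤ P.rx x := by
  obtain ⟨h1, h2, h3⟩ := h
  have h4 : P.Y x ≤ P.A x := by
    unfold Y A
    have h5 : P.α * x ≤ P.β * x := mul_le_mul_of_nonneg_right P.hβ.le (Nat.cast_nonneg x)
    linarith
  have h5 : ⌈P.Y x⌉ ≤ P.cy x := Int.ceil_le.2 (by linarith)
  rw [P.bx_cast x h1] at h3
  omega

/-- **Independence** from the balance in the cycles -/
theorem sur {L : ℕ} (hL : 1 ≤ P.α * L)
    (Hfull : ∀ ψ v : ℝ, 0 ≤ ψ → ψ < P.α → (bumps L P.α P.β ψ v).card = 0 ∨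
      ψ + P.α * (((bumps L P.α P.β ψ v).card : ℝ) - 1) ≤ P.γ)
    (Hfirst : ∀ ψ : ℝ, 0 ≤ ψ → ψ < 1 → (∃ N : ℤ, P.h - P.γ = N - ψ) →
      (bumps L P.α P.β ψ (-P.h)).card = 0 ∨
      ψ + P.α * (((bumps L P.α P.β ψ (-P.h)).card : ℝ) - 1) ≤ P.γ) :
    Sur (fun _ : Fin n => m) {p : ℤ × ℤ | 0 ≤ p.1 ∧ 0 ≤ p.2 ∧ P.h - P.β * (p.1 : ℝ) ≤ (p.2 : ℝ) ∧
      (p.2 : ℝ) ≤ P.h - P.α * (p.1 : ℝ)} := by
  classical
  have hsel : ∀ N : ℤ, ∃ S ⊆ ((range P.N0).filter fun x => P.cy x = N ∧ P.cand x),
      S.card = ((range P.N0).filter fun x => P.cy x = N ∧ P.sink x).card := fun N =>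
    exists_subset_card_eq (P.sinks_le hL Hfull Hfirst N)
  choose Sel hSel1 hSel2 using hsel
  obtain ⟨l, hl⟩ : ∃ l : ℕ → ℕ, l = fun x => if x ∈ Sel (P.cy x) then P.rx x + 1 else
      if P.sink x then P.rx x - 1 else P.rx x := ⟨_, rfl⟩
  have hselc : ∀ x, x ∈ Sel (P.cy x) → x < P.N0 ∧ P.cand x := by
    intro x hx
    have := hSel1 _ hx
    rw [mem_filter, mem_range] at this
    exact ⟨this.1, this.2.2⟩
  have hns : ∀ x, x ∈ Sel (P.cy x) → ¬ P.sink x := by
    intro x hx hs
    have h1 := (hselc x hx).2.2.1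
    have h2 := hs.2.1
    linarith
  have hlsrc : ∀ x, l x = P.rx x + 1 ↔ x ∈ Sel (P.cy x) := by
    intro x
    rw [hl]
    simp only
    split_ifs with h1 h2
    · exact ⟨fun _ => h1, fun _ => rfl⟩
    · exact ⟨fun h => by omega, fun h => absurd h h1⟩
    · exact ⟨fun h => by omega, fun h => absurd h h1⟩
  have hlsnk : ∀ x, l x + 1 = P.rx x ↔ P.sink x := by
    intro x
    rw [hl]
    simp only
    split_ifs with h1 h2
    · exact ⟨fun h => by omega, fun h => absurd h (hns x h1)⟩
    · exact ⟨fun _ => h2, fun _ => by have := P.sink_rx h2; omega⟩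
    · exact ⟨fun h => by omega, fun h => absurd h h2⟩
  have hKn0 : ⌊P.K⌋₊ < n := (Nat.floor_lt P.Kpos.le).2 P.hKn
  have hn : 1 ≤ n := by omega
  -- the columns lie in the region
  have hreg : ∀ x < P.N0, ∀ y, P.bx x ≤ y → y < P.bx x + l x → P.Y x ≤ y ∧ (y : ℝ) ≤ P.A x := by
    intro x hx y hy1 hy2
    constructor
    · have h1 := Nat.le_ceil (P.Y x)
      have h2 : ((P.bx x : ℕ) : ℝ) ≤ y := by exact_mod_cast hy1
      unfold bx at h2
      linarith
    · have hA := P.A_nonneg P.h_nonneg hx
      by_cases hY : 0 < P.Y x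
      · have hc2 := Int.ceil_lt_add_one (P.A x - P.γ)
        have hγ := P.hγ0
        have key : ∀ z : ℤ, (y : ℤ) ≤ z → (z : ℝ) ≤ P.A x → (y : ℝ) ≤ P.A x := by
          intro z h1 h2
          have : ((y : ℤ) : ℝ) ≤ z := by exact_mod_cast h1
          push_cast at this
          linarith
        rcases P.two_cases x hY with h5 | h5
        · by_cases hs : x ∈ Sel (P.cy x)
          · have h6 := (hlsrc x).2 hs
            exact key (P.cy x) (by omega) (hselc x hs).2.2.1
          · have h6 : l x ≤ P.rx x := by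
              rw [hl]; simp only; split_ifs <;> omega
            refine key (P.cy x - 1) (by omega) ?_
            push_cast
            unfold cy
            linarith
        · have hs : x ∉ Sel (P.cy x) := fun hs => by
            have := (hselc x hs).2.2.2
            omega
          by_cases hs2 : P.sink x
          · have h6 := (hlsnk x).2 hs2
            refine key (P.cy x - 1) (by omega) ?_
            push_cast
            unfold cy
            linarith
          · have h6 : l x ≤ P.rx x := by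
              rw [hl]; simp only; split_ifs <;> omega
            refine key (P.cy x) (by omega) ?_
            by_contra hcon
            push Not at hcon
            exact hs2 ⟨hY, hcon, h5⟩
      · have hb : P.bx x = 0 := Nat.ceil_eq_zero.2 (not_lt.1 hY)
        have hs : x ∉ Sel (P.cy x) := fun hs => hY (hselc x hs).2.1
        have hs2 : ¬ P.sink x := fun hs => hY hs.1
        have h6 : l x = P.rx x := by rw [hl]; simp only; rw [if_neg hs, if_neg hs2]
        have h7 : P.rx x ≤ ⌊P.A x⌋₊ + 1 := by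
          unfold rx; rw [if_neg hY]; exact min_le_right _ _
        have h8 : y ≤ ⌊P.A x⌋₊ := by omega
        exact (Nat.le_floor_iff hA).1 h8
  have hemp := ct (n := n) (m := m) (κ := ⌊P.K⌋₊) (N0 := P.N0) hn hKn0 P.bx l P.rx P.cy P.R
    (by
      intro x hx y hy1 hy2 j hj
      rw [P.le_R_iff]
      right
      have := (hreg x hx y hy1 hy2).2
      have h2 : (j : ℝ) ≤ y := by exact_mod_cast hj
      linarith)
    (by
      intro x hx j hj
      have h1 : j < m := lt_of_lt_of_le hj (P.rx_le x)
      exact ⟨h1, (P.R_iff x j h1).2 ((P.lt_rx_iff hx P.h_nonneg h1).1 hj).1⟩)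
    (by
      intro x hx
      rw [hl]
      simp only
      split_ifs <;> omega)
    (by
      intro x hx s hs h1 h2 h3
      rw [hlsrc] at h1
      rw [hlsnk] at h2
      obtain ⟨-, c1, c2, c3⟩ := hselc x h1
      obtain ⟨s1, s2, s3⟩ := h2
      have hAA : P.A s < P.A x := by rw [h3] at c2; linarith
      have hxs : x < s := by
        by_contra hcon
        push Not at hcon
        have h4 : P.A x ≤ P.A s := by
          unfold A
          have h5 : (s : ℝ) ≤ x := by exact_mod_cast hcon
          have := mul_le_mul_of_nonneg_left h5 P.hα.le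
          linarith
        linarith
      refine ⟨hxs, ?_, P.bx_anti hxs.le, by omega, ?_⟩
      · have u1 := Int.le_ceil (P.A x - P.γ)
        have u2 := Int.ceil_lt_add_one (P.A s - P.γ)
        have e1 : ⌈P.A x - P.γ⌉ = ⌈P.A s - P.γ⌉ := h3
        rw [e1] at u1
        have u3 : P.A x - P.A s < 1 := by linarith
        have e2 : P.A x - P.A s = P.α * (s - x) := by unfold A; ring
        rw [e2] at u3
        have u4 : ((s : ℝ) - x) ≤ P.K := by
          have u5 : P.K * (P.α * (s - x)) ≤ P.K * 1 := mul_le_mul_of_nonneg_left u3.le P.Kpos.le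
          have e3 : P.K * (P.α * ((s : ℝ) - x)) = s - x := by
            rw [← mul_assoc, P.hK, one_mul]
          linarith
        have u6 : s - x ≤ ⌊P.K⌋₊ := by
          apply Nat.le_floor
          rw [Nat.cast_sub hxs.le]
          exact u4
        omega
      · have := P.sink_gt ⟨s1, s2, s3⟩
        rw [← h3] at this
        omega)
    (by
      intro x hx s hs h1 h2 h3 h4
      rw [hlsrc] at h1
      rw [hlsnk] at h2
      obtain ⟨-, c1, c2, c3⟩ := hselc x h1
      obtain ⟨s1, s2, s3⟩ := h2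
      have h5 := P.cy_anti h3.le
      by_contra hne
      have h6 : P.cy s + 1 ≤ P.cy x := by omega
      have h6R : (P.cy s : ℝ) + 1 ≤ P.cy x := by exact_mod_cast h6
      have u3 : 1 < P.A x - P.A s := by linarith
      have e2 : P.A x - P.A s = P.α * (s - x) := by unfold A; ring
      rw [e2] at u3
      have u5 : P.K * 1 < P.K * (P.α * (s - x)) := mul_lt_mul_of_pos_left u3 P.Kpos
      have e3 : P.K * (P.α * ((s : ℝ) - x)) = s - x := by
        rw [← mul_assoc, P.hK, one_mul]
      have u6 := Nat.floor_le P.Kpos.le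
      have u7 : (s : ℝ) ≤ x + ((⌊P.K⌋₊ : ℕ) : ℝ) := by exact_mod_cast h4
      linarith)
    (by
      intro N
      have e1 : ((range P.N0).filter fun x => l x = P.rx x + 1 ∧ P.cy x = N) = Sel N := by
        ext x
        rw [mem_filter, hlsrc, mem_range]
        constructor
        · rintro ⟨_, h2, h3⟩
          rw [← h3]; exact h2
        · intro h
          have h2 := hSel1 N h
          rw [mem_filter, mem_range] at h2
          exact ⟨h2.1, by rw [h2.2.1]; exact h, h2.2.1⟩
      have e2 : ((range P.N0).filter fun s => l s + 1 = P.rx s ∧ P.cy s = N) =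
          ((range P.N0).filter fun x => P.cy x = N ∧ P.sink x) := by
        ext x
        rw [mem_filter, mem_filter, hlsnk]
        tauto
      rw [e1, e2, hSel2])
  refine ⟨castT (TT P.N0 P.bx l), ?_, ?_, hemp⟩
  · intro q hq
    rw [mem_coe] at hq
    unfold castT at hq
    rw [mem_map] at hq
    obtain ⟨⟨x, y⟩, hp, rfl⟩ := hq
    rw [mem_TT] at hp
    obtain ⟨h1, h2⟩ := hreg x hp.1 y hp.2.1 hp.2.2
    unfold Y at h1
    unfold A at h2
    refine ⟨Int.natCast_nonneg x, Int.natCast_nonneg y, ?_, ?_⟩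
    · show P.h - P.β * (((x : ℤ)) : ℝ) ≤ (((y : ℤ)) : ℝ)
      push_cast
      exact h1
    · show (((y : ℤ)) : ℝ) ≤ P.h - P.α * (((x : ℤ)) : ℝ)
      push_cast
      exact h2
  · rw [card_castT, card_TT, ← P.sum_rx]
    have h1 : ∀ x, l x + (if P.sink x then 1 else 0) = P.rx x + (if x ∈ Sel (P.cy x) then 1 else 0) := by
      intro x
      rw [hl]
      simp only
      by_cases hs : x ∈ Sel (P.cy x)
      · rw [if_pos hs, if_neg (hns x hs), if_pos hs]
      · rw [if_neg hs, if_neg hs]
        by_cases hs2 : P.sink x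
        · rw [if_pos hs2, if_pos hs2]
          have := P.sink_rx hs2
          omega
        · rw [if_neg hs2, if_neg hs2]
    have h2 : ∑ x ∈ range P.N0, l x + ((range P.N0).filter fun x => P.sink x).card =
        ∑ x ∈ range P.N0, P.rx x + ((range P.N0).filter fun x => x ∈ Sel (P.cy x)).card := by
      rw [card_filter, card_filter, ← sum_add_distrib, ← sum_add_distrib]
      exact sum_congr rfl fun x _ => h1 x
    have h3 : ((range P.N0).filter fun x => P.sink x).card =
        ((range P.N0).filter fun x => x ∈ Sel (P.cy x)).card := by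
      rw [card_eq_sum_card_fiberwise (f := P.cy) (s := (range P.N0).filter fun x => P.sink x)
        (t := (range P.N0).image P.cy) (fun x hx => by
          rw [mem_coe, mem_filter] at hx
          exact mem_coe.2 (mem_image_of_mem _ hx.1)),
        card_eq_sum_card_fiberwise (f := P.cy) (s := (range P.N0).filter fun x => x ∈ Sel (P.cy x))
        (t := (range P.N0).image P.cy) (fun x hx => by
          rw [mem_coe, mem_filter] at hx
          exact mem_coe.2 (mem_image_of_mem _ hx.1))]
      apply sum_congr rfl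
      intro N _
      have e1 : (((range P.N0).filter fun x => P.sink x).filter fun x => P.cy x = N) =
          ((range P.N0).filter fun x => P.cy x = N ∧ P.sink x) := by
        ext x
        simp only [mem_filter]
        tauto
      have e2 : (((range P.N0).filter fun x => x ∈ Sel (P.cy x)).filter fun x => P.cy x = N) = Sel N := by
        ext x
        simp only [mem_filter]
        constructor
        · rintro ⟨⟨_, h2⟩, h3⟩
          rw [← h3]; exact h2
        · intro h
          have h2 := hSel1 N h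
          rw [mem_filter] at h2
          exact ⟨⟨h2.1, by rw [h2.2.1]; exact h⟩, h2.2.1⟩
      rw [e1, e2, hSel2]
    omega

end Par

end Pool.Agent.K7.H2.FO
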