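import Pool.Agent.K7.H2.FO.Ct
import Pool.Agent.K7.H2.FO.Arcs

set_option autoImplicit false

/-! Emptiness from the balance of sources and sinks. -/

namespace Pool.Agent.K7.H2.FO

open Finset Pool.Agent.TH176.Nag

/-- the parameters of a triangle, for emptiness -/
structure ParE (n m : ℕ) where
  α : ℝ
  β : ℝ
  δ : ℝ
  γ : ℝ
  h : ℝ
  K : ℝ
  κ : ℕ
  hα : 0 < α
  hαβ : α < β
  hδ : 0 < δ
  hδβ : δ < β
  ha : β - δ ≤ α
  hγ0 : 0 ≤ γ
  hγ1 : γ < 1
  hK : K * α = 1
  hKn : K < n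
  hδ' : ((n : ℝ) - K) * δ = 1
  hγ : K * h - n * m = γ * (n - K)
  hA1 : m * β ≤ (β - α) * h
  hA2 : δ * h ≤ (m + γ) * β
  hA3 : (m - 1 + γ) * β < δ * h
  hκ1 : κ < n
  hκ2 : (κ : ℝ) ≤ K
  hκ3 : 1 ≤ (κ + 1) * (β - δ)

variable {n m : ℕ} (P : ParE n m)

namespace ParE

/-- top -/
noncomputable def A (x : ℕ) : ℝ := P.h - P.α * x
/-- bottom -/
noncomputable def Y (x : ℕ) : ℝ := P.h - P.β * x
/-- number of conditions -/
noncomputable def W (x : ℕ) : ℝ := P.δ * x - P.γ

/-- first exponent of a column -/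
noncomputable def bx (x : ℕ) : ℕ := ⌈P.Y x⌉₊
/-- number of conditions of a column -/
noncomputable def rx (x : ℕ) : ℕ := if 0 < P.Y x then ⌈P.W x⌉₊ else min m (⌊P.A x⌋₊ + 1)
/-- length of a column -/
noncomputable def lx (x : ℕ) : ℕ := ⌊P.A x⌋₊ + 1 - P.bx x
/-- cycle of a column -/
noncomputable def cy (x : ℕ) : ℤ := ⌈P.Y x + P.W x⌉
/-- number of columns -/
noncomputable def N0 : ℕ := ⌊P.K * P.h⌋₊ + 1
/-- right ends of the rows -/
noncomputable def R (j : ℕ) : ℕ := ⌊P.K * (P.h - j)⌋₊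

/-- a column with one condition more -/
def bump (x : ℕ) : Prop := 0 < P.Y x ∧ (P.bx x : ℤ) + P.rx x = P.cy x + 1

noncomputable instance : DecidablePred P.bump := Classical.decPred _

theorem Kpos : 0 < P.K := by
  have h1 := P.hK
  have h2 := P.hα
  by_contra hcon
  push Not at hcon
  have := mul_nonpos_of_nonpos_of_nonneg hcon h2.le
  linarith

theorem βpos : 0 < P.β := P.hα.trans P.hαβ

theorem h_nonneg : 0 ≤ P.h := by
  have h1 := P.hA1
  have h2 := P.hαβ
  have h3 := P.βpos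
  by_contra hcon
  push Not at hcon
  have h4 : (P.β - P.α) * P.h < 0 := mul_neg_of_pos_of_neg (by linarith) hcon
  have h5 : 0 ≤ (m : ℝ) * P.β := mul_nonneg (Nat.cast_nonneg m) h3.le
  linarith

theorem W_gt (x : ℕ) : -1 < P.W x := by
  unfold W
  have h1 : 0 ≤ P.δ * x := mul_nonneg P.hδ.le (Nat.cast_nonneg x)
  linarith [P.hγ1]

theorem A_le (x : ℕ) : P.A x ≤ P.Y x + P.W x + P.γ := by
  unfold A Y W
  have h1 : 0 ≤ (P.α - (P.β - P.δ)) * x := mul_nonneg (by linarith [P.ha]) (Nat.cast_nonneg x)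
  linarith

theorem YW_le (x : ℕ) (hY : 0 < P.Y x) : P.Y x + P.W x ≤ P.A x := by
  -- at the transition `A ≥ m ≥ W`
  have h1 := P.hA1
  have h2 := P.hA2
  have h3 := P.βpos
  have h4 : (P.α - (P.β - P.δ)) * P.h ≤ P.γ * P.β := by linarith
  unfold Y at hY
  have h5 : (P.α - (P.β - P.δ)) * (P.β * x) ≤ (P.α - (P.β - P.δ)) * P.h :=
    mul_le_mul_of_nonneg_left (by linarith) (by linarith [P.ha])
  have h6 : P.β * ((P.α - (P.β - P.δ)) * x) ≤ P.β * P.γ := by nlinarith
  have h7 := le_of_mul_le_mul_left h6 h3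
  unfold A Y W
  linarith

theorem bx_cast (x : ℕ) (hY : 0 < P.Y x) : (P.bx x : ℤ) = ⌈P.Y x⌉ := by
  unfold bx
  exact Int.natCast_ceil_eq_ceil hY.le

theorem rx_cast (x : ℕ) (hY : 0 < P.Y x) : (P.rx x : ℤ) = ⌈P.W x⌉ := by
  unfold rx
  rw [if_pos hY]
  have h1 : 0 ≤ ⌈P.W x⌉ := by
    have := P.W_gt x
    have h2 := Int.le_ceil (P.W x)
    have h3 : (-1 : ℝ) < (⌈P.W x⌉ : ℝ) := lt_of_lt_of_le this h2
    have h4 : (-1 : ℤ) < ⌈P.W x⌉ := by exact_mod_cast h3
    omega
  rcases le_or_gt 0 (P.W x) with h2 | h2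
  · exact Int.natCast_ceil_eq_ceil h2
  · rw [Nat.ceil_eq_zero.2 h2.le]
    have h3 : ⌈P.W x⌉ ≤ 0 := Int.ceil_le.2 (by push_cast; exact h2.le)
    push_cast
    omega

theorem two_cases (x : ℕ) (hY : 0 < P.Y x) : (P.bx x : ℤ) + P.rx x = P.cy x ∨
    (P.bx x : ℤ) + P.rx x = P.cy x + 1 := by
  rw [P.bx_cast x hY, P.rx_cast x hY]
  unfold cy
  have h1 := Int.ceil_add_le (P.Y x) (P.W x)
  have h2 := Int.ceil_add_ceil_le (P.Y x) (P.W x)
  omega

theorem bump_iff (x : ℕ) (hY : 0 < P.Y x) :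
    P.bump x ↔ (P.cy x : ℝ) - (P.Y x + P.W x) < Int.fract (-(P.Y x)) := by
  have h1 : Int.fract (-(P.Y x)) = ⌈P.Y x⌉ - P.Y x := by
    rw [Int.fract, Int.floor_neg]
    push_cast
    ring
  rw [h1]
  have h2 := Int.le_ceil (P.W x)
  have h3 := Int.ceil_lt_add_one (P.W x)
  have h5 := P.two_cases x hY
  unfold bump
  constructor
  · rintro ⟨-, h6⟩
    rw [P.bx_cast x hY, P.rx_cast x hY] at h6
    have h7 : (⌈P.Y x⌉ : ℝ) + ⌈P.W x⌉ = P.cy x + 1 := by exact_mod_cast h6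
    linarith
  · intro h6
    refine ⟨hY, ?_⟩
    rcases h5 with h5 | h5
    · exfalso
      rw [P.bx_cast x hY, P.rx_cast x hY] at h5
      have h7 : (⌈P.Y x⌉ : ℝ) + ⌈P.W x⌉ = P.cy x := by exact_mod_cast h5
      linarith
    · exact h5

theorem W_lt_m (x : ℕ) (hY : 0 < P.Y x) : P.W x < m := by
  have h1 := P.hA2
  unfold Y at hY
  unfold W
  have hβ := P.βpos
  have h2 : P.β * (P.δ * x - P.γ) < P.β * m := by
    have h3 : P.δ * (P.β * x) < P.δ * P.h := mul_lt_mul_of_pos_left (by linarith) P.hδ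
    nlinarith
  exact lt_of_mul_lt_mul_left h2 hβ.le

theorem W_gt_m (x : ℕ) (hY : P.Y x ≤ 0) : (m : ℝ) - 1 < P.W x := by
  have h1 := P.hA3
  unfold Y at hY
  unfold W
  have hβ := P.βpos
  have h2 : P.β * ((m : ℝ) - 1) < P.β * (P.δ * x - P.γ) := by
    have h3 : P.δ * P.h ≤ P.δ * (P.β * x) := mul_le_mul_of_nonneg_left (by linarith) P.hδ.le
    nlinarith
  exact lt_of_mul_lt_mul_left h2 hβ.le

/-- left of the transition the cycles are at least `m` -/
theorem cy_ge (x : ℕ) (hY : 0 < P.Y x) : (m : ℤ) ≤ P.cy x := by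
  have h1 := P.hA3
  have hY' := hY
  unfold Y at hY'
  have hβ := P.βpos
  have h2 : P.β * ((m : ℝ) - 1) < P.β * (P.Y x + P.W x) := by
    unfold Y W
    have h3 : (P.β - P.δ) * (P.β * x) < (P.β - P.δ) * P.h :=
      mul_lt_mul_of_pos_left (by linarith) (by linarith [P.hδβ])
    nlinarith
  have h4 := lt_of_mul_lt_mul_left h2 hβ.le
  have h5 : ((m : ℤ) - 1 : ℤ) < P.cy x := by
    unfold cy
    rw [Int.lt_ceil]
    push_cast
    exact h4
  omega

theorem Ypos {x : ℕ} (h : (m : ℝ) < P.Y x + P.W x) : 0 < P.Y x := by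
  by_contra hcon
  push Not at hcon
  have h2 := P.hA2
  have h3 := P.βpos
  have h4 : P.β * (m : ℝ) < P.β * (P.Y x + P.W x) := mul_lt_mul_of_pos_left h h3
  unfold Y at hcon
  unfold Y W at h4
  have h5 : (P.β - P.δ) * P.h ≤ (P.β - P.δ) * (P.β * x) :=
    mul_le_mul_of_nonneg_left (by linarith) (by linarith [P.hδβ])
  nlinarith

theorem rx_le (x : ℕ) : P.rx x ≤ m := by
  unfold rx
  split_ifs with h
  · exact Nat.ceil_le.2 (P.W_lt_m x h).le
  · exact min_le_left _ _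

theorem W_iff (x j : ℕ) : (j : ℝ) < P.W x ↔ P.K * (P.h - j) < x + n * ((m : ℝ) - j) := by
  have h1 := P.hγ
  have h2 := P.hδ'
  have h3 : 0 < (n : ℝ) - P.K := by linarith [P.hKn]
  unfold W
  rw [← mul_lt_mul_iff_right₀ h3]
  have e : ((n : ℝ) - P.K) * (P.δ * x - P.γ) = x - (P.K * P.h - n * m) := by
    rw [h1]
    linear_combination (x : ℝ) * h2
  rw [e]
  constructor
  · intro h; linarith
  · intro h; linarith

theorem A_iff (x j : ℕ) : (j : ℝ) ≤ P.A x ↔ (x : ℝ) ≤ P.K * (P.h - j) := by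
  have h1 := P.hK
  have h2 := P.Kpos
  unfold A
  rw [← mul_le_mul_iff_right₀ h2]
  have e : P.K * (P.h - P.α * x) = P.K * P.h - x := by linear_combination (-(x : ℝ)) * h1
  rw [e]
  constructor
  · intro h; linarith
  · intro h; linarith

theorem R_iff (x j : ℕ) (hm : j < m) : P.R j < x + n * (m - j) ↔ (j : ℝ) < P.W x := by
  rw [P.W_iff]
  unfold R
  have hn : 1 ≤ n := by
    have h1 := P.hKn
    have h2 := P.Kpos
    have : (0 : ℝ) < n := by linarith
    exact_mod_cast this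
  have hpos : x + n * (m - j) ≠ 0 := by
    have : 1 ≤ n * (m - j) := Nat.one_le_iff_ne_zero.2 (Nat.mul_ne_zero (by omega) (by omega))
    omega
  rw [Nat.floor_lt' hpos]
  have e : ((x + n * (m - j) : ℕ) : ℝ) = x + n * ((m : ℝ) - j) := by
    rw [Nat.cast_add, Nat.cast_mul, Nat.cast_sub hm.le]
  rw [e]

theorem le_R_iff (x j : ℕ) : x ≤ P.R j ↔ x = 0 ∨ (j : ℝ) ≤ P.A x := by
  rw [P.A_iff]
  unfold R
  rcases Nat.eq_zero_or_pos x with h | h
  · simp [h]
  · rw [Nat.le_floor_iff' (by omega)]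
    constructor
    · intro h'; exact Or.inr h'
    · rintro (h' | h')
      · omega
      · exact h'

theorem lt_N0 (x : ℕ) (hA : 0 ≤ P.A x) : x < P.N0 := by
  have h1 := (P.A_iff x 0).1 (by push_cast; exact hA)
  unfold N0
  rw [Nat.lt_add_one_iff]
  apply Nat.le_floor
  simpa using h1

theorem A_nonneg {x : ℕ} (hx : x < P.N0) : 0 ≤ P.A x := by
  have h1 := (P.A_iff x 0).2 (by
    unfold N0 at hx
    rw [Nat.lt_add_one_iff] at hx
    have h2 := Nat.floor_le (mul_nonneg P.Kpos.le P.h_nonneg)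
    have h3 : (x : ℝ) ≤ ((⌊P.K * P.h⌋₊ : ℕ) : ℝ) := by exact_mod_cast hx
    push_cast
    linarith)
  simpa using h1

theorem rx_W {x j : ℕ} (hx : x < P.N0) (hj : j < P.rx x) : (j : ℝ) < P.W x := by
  have hA := P.A_nonneg hx
  unfold rx at hj
  split_ifs at hj with hY
  · exact Nat.lt_ceil.1 hj
  · rw [lt_min_iff] at hj
    have h3 := P.W_gt_m x (not_lt.1 hY)
    have h4 : (j : ℝ) + 1 ≤ m := by exact_mod_cast hj.1
    linarith

theorem cy_anti {x x' : ℕ} (h : x ≤ x') : P.cy x' ≤ P.cy x := by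
  unfold cy
  apply Int.ceil_mono
  unfold Y W
  have h1 : (x : ℝ) ≤ x' := by exact_mod_cast h
  have h2 := mul_le_mul_of_nonneg_left h1 (show 0 ≤ P.β - P.δ by linarith [P.hδβ])
  linarith

theorem bx_anti {x x' : ℕ} (h : x ≤ x') : P.bx x' ≤ P.bx x := by
  unfold bx
  apply Nat.ceil_mono
  unfold Y
  have h1 : (x : ℝ) ≤ x' := by exact_mod_cast h
  have h2 := mul_le_mul_of_nonneg_left h1 P.βpos.le
  linarith

theorem Y_le_A (x : ℕ) : P.Y x ≤ P.A x := by
  unfold Y A
  have h1 := mul_le_mul_of_nonneg_right P.hαβ.le (Nat.cast_nonneg (α := ℝ) x)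
  linarith

theorem bx_le {x : ℕ} (hx : x < P.N0) : P.bx x ≤ ⌊P.A x⌋₊ + 1 := by
  unfold bx
  rw [Nat.ceil_le]
  have h1 := Nat.lt_floor_add_one (P.A x)
  have h2 := P.Y_le_A x
  push_cast
  linarith

/-- the balance in one cycle -/
theorem balance {L : ℕ} (hL : 1 ≤ (P.β - P.δ) * L)
    (Hfull : ∀ ψ v : ℝ, 0 ≤ ψ → ψ < P.β - P.δ →
      ((range L).filter fun i : ℕ => ψ + (P.β - P.δ) * i ≤ P.γ).card ≤
        (bumps L (P.β - P.δ) P.β ψ v).card)
    (Hfirst : ∀ ψ : ℝ, 0 ≤ ψ → ψ < 1 → (∃ N : ℤ, P.h - P.γ = N - ψ) →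
      ((range L).filter fun i : ℕ => ψ + (P.β - P.δ) * i ≤ P.γ).card ≤
        (bumps L (P.β - P.δ) P.β ψ (-P.h)).card) {N : ℤ} (hN : (m : ℤ) < N) :
    ((range P.N0).filter fun x => P.cy x = N ∧ (N : ℝ) ≤ P.A x).card ≤
      ((range P.N0).filter fun x => P.cy x = N ∧ P.bump x).card := by
  classical
  rcases Finset.eq_empty_or_nonempty ((range P.N0).filter fun x => P.cy x = N) with he | hne
  · have h1 : ((range P.N0).filter fun x => P.cy x = N ∧ (N : ℝ) ≤ P.A x) = ∅ := by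
      rw [← filter_filter, he, filter_empty]
    rw [h1]
    simp
  · obtain ⟨x0, hx0, hmin⟩ := Finset.exists_min_image _ id hne
    simp only [mem_filter, mem_range, id] at hx0 hmin
    obtain ⟨ψ, hψ⟩ : ∃ ψ, ψ = (N : ℝ) - (P.Y x0 + P.W x0) := ⟨_, rfl⟩
    have hc1 := Int.le_ceil (P.Y x0 + P.W x0)
    have hc2 := Int.ceil_lt_add_one (P.Y x0 + P.W x0)
    have hcy : ⌈P.Y x0 + P.W x0⌉ = N := hx0.2
    rw [hcy] at hc1 hc2
    have hψ0 : 0 ≤ ψ := by rw [hψ]; linarith
    have hψ1 : ψ < 1 := by rw [hψ]; linarith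
    have hq : ((range L).filter fun i : ℕ => ψ + (P.β - P.δ) * i ≤ P.γ).card ≤
        (bumps L (P.β - P.δ) P.β ψ (-(P.Y x0))).card := by
      rcases Nat.eq_zero_or_pos x0 with h0 | h0
      · have e1 : P.Y x0 = P.h := by rw [h0]; unfold Y; simp
        have e2 : P.W x0 = -P.γ := by rw [h0]; unfold W; simp
        rw [e1]
        refine Hfirst ψ hψ0 hψ1 ⟨N, ?_⟩
        rw [hψ, e1, e2]; ring
      · refine Hfull ψ _ hψ0 ?_
        have h1 : P.cy (x0 - 1) ≠ N := by
          intro h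
          have := hmin (x0 - 1) ⟨by omega, h⟩
          omega
        have h2 := P.cy_anti (Nat.sub_le x0 1)
        rw [hx0.2] at h2
        have h3 : N < P.cy (x0 - 1) := by omega
        unfold cy at h3
        rw [Int.lt_ceil] at h3
        unfold Y W at h3
        rw [hψ]
        unfold Y W
        rw [Nat.cast_sub h0] at h3
        push_cast at h3
        linarith
    have hapos : 0 < P.β - P.δ := by linarith [P.hδβ]
    have hsub : ((range P.N0).filter fun x => P.cy x = N ∧ (N : ℝ) ≤ P.A x) ⊆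
        ((range L).filter fun i : ℕ => ψ + (P.β - P.δ) * i ≤ P.γ).image fun i => x0 + i := by
      intro x hx
      rw [mem_filter, mem_range] at hx
      obtain ⟨hx1, hx2, hx3⟩ := hx
      have h1 := hmin x ⟨hx1, hx2⟩
      rw [mem_image]
      refine ⟨x - x0, ?_, by omega⟩
      have hi : ((x - x0 : ℕ) : ℝ) = x - x0 := by rw [Nat.cast_sub h1]
      have h4 := P.A_le x
      have e1 : (N : ℝ) - (P.Y x + P.W x) = ψ + (P.β - P.δ) * ((x - x0 : ℕ) : ℝ) := by
        rw [hψ, hi]; unfold Y W; ring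
      rw [mem_filter, mem_range]
      refine ⟨?_, by linarith⟩
      have h5 : (P.β - P.δ) * ((x - x0 : ℕ) : ℝ) < (P.β - P.δ) * L := by
        linarith [P.hγ1]
      exact_mod_cast lt_of_mul_lt_mul_left h5 hapos.le
    have hsub2 : (bumps L (P.β - P.δ) P.β ψ (-(P.Y x0))).image (fun i => x0 + i) ⊆
        ((range P.N0).filter fun x => P.cy x = N ∧ P.bump x) := by
      intro x hx
      rw [mem_image] at hx
      obtain ⟨i, hi, rfl⟩ := hx
      unfold bumps at hi
      rw [mem_filter, mem_range] at hi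
      have h4 : 0 ≤ (P.β - P.δ) * i := mul_nonneg hapos.le (Nat.cast_nonneg i)
      have e1 : P.Y (x0 + i) + P.W (x0 + i) = N - (ψ + (P.β - P.δ) * i) := by
        rw [hψ]; unfold Y W; push_cast; ring
      have e2 : -(P.Y (x0 + i)) = -(P.Y x0) + P.β * i := by unfold Y; push_cast; ring
      have h5 := Int.fract_lt_one (-(P.Y x0) + P.β * i)
      have hNR : (m : ℝ) + 1 ≤ N := by exact_mod_cast hN
      have hm0 : (0 : ℝ) ≤ m := Nat.cast_nonneg m
      have hY : 0 < P.Y (x0 + i) := P.Ypos (by rw [e1]; linarith)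
      have hcyi : P.cy (x0 + i) = N := by
        unfold cy
        rw [Int.ceil_eq_iff, e1]
        constructor
        · linarith
        · linarith
      rw [mem_filter, mem_range]
      refine ⟨P.lt_N0 _ ?_, hcyi, ?_⟩
      · have := P.YW_le _ hY
        rw [e1] at this
        linarith
      · rw [P.bump_iff _ hY, hcyi, e1, e2]
        linarith [hi.2]
    have h1 := card_le_card hsub
    have h2 := card_image_le (s := (range L).filter fun i : ℕ => ψ + (P.β - P.δ) * i ≤ P.γ)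
      (f := fun i => x0 + i)
    have h3 := card_le_card hsub2
    rw [card_image_of_injective _ (add_right_injective x0)] at h3
    omega

/-- **Emptiness** from the balance in the cycles -/
theorem emp {L : ℕ} (hL : 1 ≤ (P.β - P.δ) * L)
    (Hfull : ∀ ψ v : ℝ, 0 ≤ ψ → ψ < P.β - P.δ →
      ((range L).filter fun i : ℕ => ψ + (P.β - P.δ) * i ≤ P.γ).card ≤
        (bumps L (P.β - P.δ) P.β ψ v).card)
    (Hfirst : ∀ ψ : ℝ, 0 ≤ ψ → ψ < 1 → (∃ N : ℤ, P.h - P.γ = N - ψ) →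
      ((range L).filter fun i : ℕ => ψ + (P.β - P.δ) * i ≤ P.γ).card ≤
        (bumps L (P.β - P.δ) P.β ψ (-P.h)).card)
    (HC1 : ∀ x : ℕ, 0 < P.Y x → P.bx x + P.rx x ≠ m)
    (HC2 : ∀ x : ℕ, P.Y x ≤ 0 → P.A x < m) :
    Emp (fun _ : Fin n => m) {p : ℤ × ℤ | 0 ≤ p.2 ∧ P.h - P.β * (p.1 : ℝ) ≤ (p.2 : ℝ) ∧
      (p.2 : ℝ) ≤ P.h - P.α * (p.1 : ℝ)} := by
  classical
  have hn : 1 ≤ n := by have := P.hκ1; omega
  -- the shape of the columns
  have hright : ∀ x < P.N0, P.Y x ≤ 0 → P.lx x = P.rx x := by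
    intro x hx hY
    have hb : P.bx x = 0 := Nat.ceil_eq_zero.2 hY
    have hA := P.A_nonneg hx
    have h1 : ⌊P.A x⌋₊ < m := (Nat.floor_lt hA).2 (HC2 x hY)
    unfold lx rx
    rw [hb, if_neg (not_lt.2 hY), min_eq_right (by omega)]
    omega
  have hleft : ∀ x < P.N0, 0 < P.Y x → (P.cy x - 1 ≤ (⌊P.A x⌋₊ : ℤ) ∧ (⌊P.A x⌋₊ : ℤ) ≤ P.cy x) := by
    intro x hx hY
    have hA := P.A_nonneg hx
    have h1 := P.YW_le x hY
    have h2 := P.A_le x
    have h3 := Int.le_ceil (P.Y x + P.W x)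
    have h4 := Int.ceil_lt_add_one (P.Y x + P.W x)
    have h5 := Nat.floor_le hA
    have h6 := Nat.lt_floor_add_one (P.A x)
    have h7 := P.hγ1
    constructor
    · have : ((P.cy x - 1 : ℤ) : ℝ) < ((⌊P.A x⌋₊ + 1 : ℤ) : ℝ) := by
        unfold cy; push_cast; linarith
      have : (P.cy x - 1 : ℤ) < (⌊P.A x⌋₊ + 1 : ℤ) := by exact_mod_cast this
      omega
    · have : (((⌊P.A x⌋₊ : ℤ)) : ℝ) < ((P.cy x + 1 : ℤ) : ℝ) := by
        unfold cy; push_cast; linarith
      have : (⌊P.A x⌋₊ : ℤ) < (P.cy x + 1 : ℤ) := by exact_mod_cast this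
      omega
  have hsrc : ∀ x < P.N0, P.lx x = P.rx x + 1 →
      0 < P.Y x ∧ (P.cy x : ℝ) ≤ P.A x ∧ (P.bx x : ℤ) + P.rx x = P.cy x := by
    intro x hx h
    have hY : 0 < P.Y x := by
      by_contra hcon
      have := hright x hx (not_lt.1 hcon)
      omega
    obtain ⟨h1, h2⟩ := hleft x hx hY
    have h3 := P.bx_le hx
    have h4 := P.two_cases x hY
    unfold lx at h
    have h5 : (⌊P.A x⌋₊ : ℤ) = P.cy x := by omega
    refine ⟨hY, ?_, by omega⟩
    have h6 := Nat.floor_le (P.A_nonneg hx)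
    have h7 : ((P.cy x : ℤ) : ℝ) = ((⌊P.A x⌋₊ : ℕ) : ℝ) := by rw [← h5]; push_cast; rfl
    linarith
  have hsnk : ∀ x < P.N0, P.lx x + 1 = P.rx x →
      0 < P.Y x ∧ P.A x < P.cy x ∧ (P.bx x : ℤ) + P.rx x = P.cy x + 1 := by
    intro x hx h
    have hY : 0 < P.Y x := by
      by_contra hcon
      have := hright x hx (not_lt.1 hcon)
      omega
    obtain ⟨h1, h2⟩ := hleft x hx hY
    have h3 := P.bx_le hx
    have h4 := P.two_cases x hY
    unfold lx at h
    have h5 : (⌊P.A x⌋₊ : ℤ) + 1 = P.cy x := by omega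
    refine ⟨hY, ?_, by omega⟩
    have h6 := Nat.lt_floor_add_one (P.A x)
    have h7 : ((P.cy x : ℤ) : ℝ) = ((⌊P.A x⌋₊ : ℕ) : ℝ) + 1 := by rw [← h5]; push_cast; rfl
    linarith
  have hl : ∀ x < P.N0, P.lx x ≤ P.rx x + 1 := by
    intro x hx
    by_cases hY : 0 < P.Y x
    · obtain ⟨h1, h2⟩ := hleft x hx hY
      have h4 := P.two_cases x hY
      have h3 := P.bx_le hx
      unfold lx
      omega
    · have := hright x hx (not_lt.1 hY)
      omega
  have hemp := ct (n := n) (m := m) (κ := P.κ) (N0 := P.N0) hn P.hκ1 P.bx P.lx P.rx P.cy P.R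
    (by
      intro x hx y hy1 hy2 j hj
      rw [P.le_R_iff]
      right
      have h1 : y ≤ ⌊P.A x⌋₊ := by unfold lx at hy2; omega
      have h2 := (Nat.le_floor_iff (P.A_nonneg hx)).1 h1
      have h3 : (j : ℝ) ≤ y := by exact_mod_cast hj
      linarith)
    (by
      intro x hx j hj
      have h1 : j < m := lt_of_lt_of_le hj (P.rx_le x)
      exact ⟨h1, (P.R_iff x j h1).2 (P.rx_W hx hj)⟩)
    hl
    (by
      intro x hx s hs h1 h2 h3
      obtain ⟨c1, c2, c3⟩ := hsrc x hx h1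
      obtain ⟨s1, s2, s3⟩ := hsnk s hs h2
      have hAA : P.A s < P.A x := by rw [h3] at c2; linarith
      have hxs : x < s := by
        by_contra hcon
        push Not at hcon
        have h4 : P.A x ≤ P.A s := by
          unfold A
          have h5 : (s : ℝ) ≤ x := by exact_mod_cast hcon
          have := mul_le_mul_of_nonneg_left h5 P.hα.le
          linarith
        linarith
      refine ⟨hxs, ?_, P.bx_anti hxs.le, by omega, fun h => HC1 x c1 h.symm⟩
      have u1 := Int.le_ceil (P.Y x + P.W x)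
      have u2 := Int.ceil_lt_add_one (P.Y s + P.W s)
      have e1 : ⌈P.Y x + P.W x⌉ = ⌈P.Y s + P.W s⌉ := h3
      rw [e1] at u1
      have e2 : (P.Y x + P.W x) - (P.Y s + P.W s) = (P.β - P.δ) * (s - x) := by unfold Y W; ring
      have u3 : (P.β - P.δ) * ((s : ℝ) - x) < (P.β - P.δ) * (P.κ + 1) := by
        have := P.hκ3
        rw [← e2]; linarith
      have u4 := lt_of_mul_lt_mul_left u3 (show 0 ≤ P.β - P.δ by linarith [P.hδβ])
      have u5 : (s : ℝ) < ((x + P.κ + 1 : ℕ) : ℝ) := by push_cast; linarith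
      have u6 : s < x + P.κ + 1 := by exact_mod_cast u5
      omega)
    (by
      intro x hx s hs h1 h2 h3 h4
      obtain ⟨c1, c2, c3⟩ := hsrc x hx h1
      obtain ⟨s1, s2, s3⟩ := hsnk s hs h2
      have h5 := P.cy_anti h3.le
      by_contra hne
      have h6 : P.cy s + 1 ≤ P.cy x := by omega
      have h6R : (P.cy s : ℝ) + 1 ≤ P.cy x := by exact_mod_cast h6
      have u3 : 1 < P.A x - P.A s := by linarith
      have e2 : P.A x - P.A s = P.α * (s - x) := by unfold A; ring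
      rw [e2] at u3
      have u5 : P.K * 1 < P.K * (P.α * (s - x)) := mul_lt_mul_of_pos_left u3 P.Kpos
      have e3 : P.K * (P.α * ((s : ℝ) - x)) = s - x := by
        rw [← mul_assoc, P.hK, one_mul]
      have u6 := P.hκ2
      have u7 : (s : ℝ) ≤ x + (P.κ : ℝ) := by exact_mod_cast h4
      linarith)
    (by
      intro N
      rcases le_or_gt N m with hN | hN
      · have h1 : ((range P.N0).filter fun x => P.lx x = P.rx x + 1 ∧ P.cy x = N) = ∅ := by
          apply filter_eq_empty_iff.2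
          rintro x hx ⟨h2, h3⟩
          obtain ⟨c1, c2, c3⟩ := hsrc x (mem_range.1 hx) h2
          have h4 := P.cy_ge x c1
          exact HC1 x c1 (by omega)
        rw [h1]
        simp
      · have hb := P.balance hL Hfull Hfirst hN
        rw [← card_sdiff_le_card_sdiff_iff] at hb
        refine le_trans (card_le_card ?_) (hb.trans (card_le_card ?_))
        · intro x hx
          rw [mem_filter, mem_range] at hx
          obtain ⟨h1, h2, h3⟩ := hx
          obtain ⟨c1, c2, c3⟩ := hsrc x h1 h2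
          rw [mem_sdiff, mem_filter, mem_filter, mem_range]
          refine ⟨⟨h1, h3, by rw [← h3]; exact c2⟩, fun h4 => ?_⟩
          have h5 := h4.2.2.2
          omega
        · intro x hx
          rw [mem_sdiff, mem_filter, mem_filter, mem_range] at hx
          obtain ⟨⟨h1, h2, h3⟩, h4⟩ := hx
          rw [mem_filter, mem_range]
          refine ⟨h1, ?_, h2⟩
          obtain ⟨h5, h6⟩ := hleft x h1 h3.1
          have h7 : P.A x < N := by
            by_contra hcon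
            exact h4 ⟨h1, h2, not_lt.1 hcon⟩
          have h8 : (⌊P.A x⌋₊ : ℤ) < N := by
            have h9 := Nat.floor_le (P.A_nonneg h1)
            have : (((⌊P.A x⌋₊ : ℤ)) : ℝ) < (N : ℝ) := by push_cast; linarith
            exact_mod_cast this
          have h9 := P.bx_le h1
          have h10 := h3.2
          unfold lx
          omega)
  refine hemp.mono ?_
  rintro ⟨x, y⟩ ⟨h1, h2, h3⟩
  simp only at h1 h2 h3
  have hx0 : 0 ≤ x := by
    have h4 : 0 ≤ (P.β - P.α) * (x : ℝ) := by linarith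
    have h5 : (0 : ℝ) ≤ x := by
      by_contra hcon
      push Not at hcon
      have := mul_neg_of_pos_of_neg (show 0 < P.β - P.α by linarith [P.hαβ]) hcon
      linarith
    exact_mod_cast h5
  obtain ⟨x, rfl⟩ := Int.eq_ofNat_of_zero_le hx0
  obtain ⟨y, rfl⟩ := Int.eq_ofNat_of_zero_le h1
  simp only [Int.cast_natCast] at h2 h3
  have hA : (y : ℝ) ≤ P.A x := h3
  have hY : P.Y x ≤ y := h2
  have hxN : x < P.N0 := P.lt_N0 x (le_trans (Nat.cast_nonneg y) hA)
  rw [mem_coe]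
  unfold castT
  rw [mem_map]
  refine ⟨(x, y), ?_, rfl⟩
  rw [mem_TT]
  have h4 : P.bx x ≤ y := Nat.ceil_le.2 hY
  have h5 : y ≤ ⌊P.A x⌋₊ := Nat.le_floor hA
  refine ⟨hxN, h4, ?_⟩
  unfold lx
  omega

end ParE

end Pool.Agent.K7.H2.FO
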