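import Pool.Agent.K7.H2.FO.Geo2
import Pool.Agent.TH641.NW.Inst

set_option autoImplicit false

/-! The triangle of slope `3 √n`, and the numerical certificates. -/

namespace Pool.Agent.K7.H2.FO

open Finset Pool.Agent.TH176.Nag Pool.Agent.TH603.Sur

/-- the numerical certificate -/
def cert (n : ℕ) (M s1 s2 A1 A2 b1 b2 B1 B2 G : ℤ) (L : ℕ) (tab : List (ℤ × ℕ)) : Bool :=
  decide (0 < M ∧ 3 * M < s1 ∧ s1 * s1 ≤ n * M * M ∧ n * M * M ≤ s2 * s2 ∧ 0 < s2 ∧
    0 ≤ A1 ∧ 3 * A1 * s2 ≤ M * M ∧ 0 ≤ A2 ∧ M * M ≤ 3 * A2 * s1 ∧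
    0 ≤ b1 ∧ 3 * b1 * (s2 - 3 * M) ≤ M * M ∧ 0 ≤ b2 ∧ M * M ≤ 3 * b2 * (s1 - 3 * M) ∧
    0 ≤ B1 ∧ B1 * (n * M - 3 * s1) ≤ M * M ∧ 0 ≤ B2 ∧ M * M ≤ B2 * (n * M - 3 * s2) ∧
    M ≤ A1 * L ∧ M ≤ 3 * G) &&
  (oktab M A1 A2 B1 B2 G L 0 tab &&
  (decide (cntF (3 * M) (3 * A1) (3 * b1) (3 * b2) 0 (3 * G) L ≤ 1) &&
  (decide (3 * A2 * ((cntF (3 * M) (3 * A1) (3 * b1) (3 * b2) (2 * M) (3 * G - M) L : ℤ) - 1) ≤ M) &&
  (decide (cntF (3 * M) (3 * A1) (3 * b1) (3 * b2) M (3 * G + M) L = 0) &&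
  decide (3 * A2 * ((cntF (3 * M) (3 * A1) (3 * b1) (3 * b2) M (max (3 * G) (2 * M) - 2 * M) L : ℤ) - 1)
    ≤ 2 * M)))))

theorem bumps_add_int (L : ℕ) (α β c v : ℝ) (z : ℤ) : bumps L α β c (v + z) = bumps L α β c v := by
  unfold bumps
  congr 1
  ext i
  have e : v + z + β * i = v + β * i + z := by ring
  rw [e, Int.fract_add_intCast]

theorem sur_reg {n m d : ℕ} (hn : 10 ≤ n) {M s1 s2 A1 A2 b1 b2 B1 B2 G : ℤ} {L : ℕ}
    {tab : List (ℤ × ℕ)} (hc : cert n M s1 s2 A1 A2 b1 b2 B1 B2 G L tab = true)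
    (hγ : (G : ℝ) * (√(n : ℝ) - 3) ≤ M * (d - √(n : ℝ) * m))
    (hγ1 : (d : ℝ) - √(n : ℝ) * m < √(n : ℝ) - 3) :
    Sur (fun _ : Fin n => m) {p : ℤ × ℤ | 0 ≤ p.1 ∧ 0 ≤ p.2 ∧
      (d : ℝ) / 3 - 1 / (3 * (√(n : ℝ) - 3)) * (p.1 : ℝ) ≤ (p.2 : ℝ) ∧
      (p.2 : ℝ) ≤ (d : ℝ) / 3 - 1 / (3 * √(n : ℝ)) * (p.1 : ℝ)} := by
  obtain ⟨s, hs⟩ : ∃ s, s = √(n : ℝ) := ⟨_, rfl⟩
  rw [← hs] at hγ hγ1 ⊢
  have hnR : (10 : ℝ) ≤ n := by exact_mod_cast hn
  have hss : s * s = n := by rw [hs]; exact Real.mul_self_sqrt (by linarith)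
  have hs0 : 0 ≤ s := by rw [hs]; exact Real.sqrt_nonneg _
  have hs3 : 3 < s := by
    by_contra hcon
    push Not at hcon
    nlinarith
  unfold cert at hc
  rw [Bool.and_eq_true, Bool.and_eq_true, Bool.and_eq_true, Bool.and_eq_true, Bool.and_eq_true,
    decide_eq_true_eq, decide_eq_true_eq, decide_eq_true_eq, decide_eq_true_eq, decide_eq_true_eq] at hc
  obtain ⟨⟨c1, c2, c3, c4, c5, c6, c7, c8, c9, c10, c11, c12, c13, c14, c15, c16, c17, c18, c19⟩, ht,
    f0, f1, f2, f3⟩ := hc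
  have c1R : (0 : ℝ) < M := by exact_mod_cast c1
  have c2R : 3 * (M : ℝ) < s1 := by exact_mod_cast c2
  have c3R : (s1 : ℝ) * s1 ≤ n * M * M := by exact_mod_cast c3
  have c4R : (n : ℝ) * M * M ≤ s2 * s2 := by exact_mod_cast c4
  have c5R : (0 : ℝ) < s2 := by exact_mod_cast c5
  have c6R : (0 : ℝ) ≤ A1 := by exact_mod_cast c6
  have c7R : 3 * (A1 : ℝ) * s2 ≤ M * M := by exact_mod_cast c7
  have c8R : (0 : ℝ) ≤ A2 := by exact_mod_cast c8
  have c9R : (M : ℝ) * M ≤ 3 * A2 * s1 := by exact_mod_cast c9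
  have c10R : (0 : ℝ) ≤ b1 := by exact_mod_cast c10
  have c11R : 3 * (b1 : ℝ) * (s2 - 3 * M) ≤ M * M := by exact_mod_cast c11
  have c12R : (0 : ℝ) ≤ b2 := by exact_mod_cast c12
  have c13R : (M : ℝ) * M ≤ 3 * b2 * (s1 - 3 * M) := by exact_mod_cast c13
  have c14R : (0 : ℝ) ≤ B1 := by exact_mod_cast c14
  have c15R : (B1 : ℝ) * (n * M - 3 * s1) ≤ M * M := by exact_mod_cast c15
  have c16R : (0 : ℝ) ≤ B2 := by exact_mod_cast c16
  have c17R : (M : ℝ) * M ≤ B2 * (n * M - 3 * s2) := by exact_mod_cast c17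
  have c18R : (M : ℝ) ≤ A1 * L := by exact_mod_cast c18
  have c19R : (M : ℝ) ≤ 3 * G := by exact_mod_cast c19
  have hlo : (s1 : ℝ) ≤ M * s := by
    refine abs_le_of_sq_le_sq' ?_ (by positivity) |>.2
    have e : (M * s) ^ 2 = n * M * M := by rw [← hss]; ring
    rw [e]; linarith
  have hhi : (M : ℝ) * s ≤ s2 := by
    refine abs_le_of_sq_le_sq' ?_ c5R.le |>.2
    have e : (M * s) ^ 2 = n * M * M := by rw [← hss]; ring
    rw [e]; linarith
  have hs3' : 0 < s - 3 := by linarith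
  have hspos : 0 < s := by linarith
  obtain ⟨α, hα⟩ : ∃ α, α = 1 / (3 * s) := ⟨_, rfl⟩
  obtain ⟨β, hβ⟩ : ∃ β, β = 1 / (3 * (s - 3)) := ⟨_, rfl⟩
  obtain ⟨γ, hγd⟩ : ∃ γ, γ = ((d : ℝ) - s * m) / (s - 3) := ⟨_, rfl⟩
  have hαβ : β - α = 1 / (s * (s - 3)) := by
    rw [hα, hβ]; field_simp; ring
  have hα0 : 0 < α := by rw [hα]; positivity
  have hβ0 : 0 < β := by rw [hβ]; positivity
  have hβα0 : 0 < β - α := by rw [hαβ]; positivity
  have hγM : (G : ℝ) ≤ M * γ := by
    rw [hγd, ← mul_div_assoc, le_div_iff₀ hs3']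
    exact hγ
  have hG0 : (0 : ℝ) < G := by linarith
  have hγ0 : 0 < γ := by
    by_contra hcon
    push Not at hcon
    have := mul_nonpos_of_nonneg_of_nonpos c1R.le hcon
    linarith
  have hγlt : γ < 1 := by rw [hγd, div_lt_one hs3']; exact hγ1
  have hγm : γ * (s - 3) = d - s * m := by rw [hγd]; field_simp
  -- numerical bounds
  have nA1 : (A1 : ℝ) ≤ M * α := by
    rw [hα, mul_one_div, le_div_iff₀ (by positivity)]
    have h1 : 3 * (A1 : ℝ) * (M * s) ≤ 3 * A1 * s2 := mul_le_mul_of_nonneg_left hhi (by positivity)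
    have h2 : (M : ℝ) * (A1 * (3 * s)) ≤ M * M := by linarith
    exact le_of_mul_le_mul_left h2 c1R
  have nA2 : (M : ℝ) * α ≤ A2 := by
    rw [hα, mul_one_div, div_le_iff₀ (by positivity)]
    have h1 : 3 * (A2 : ℝ) * s1 ≤ 3 * A2 * (M * s) := mul_le_mul_of_nonneg_left hlo (by positivity)
    have h2 : (M : ℝ) * M ≤ M * (A2 * (3 * s)) := by linarith
    exact le_of_mul_le_mul_left h2 c1R
  have nb1 : (b1 : ℝ) ≤ M * β := by
    rw [hβ, mul_one_div, le_div_iff₀ (by positivity)]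
    have h1 : 3 * (b1 : ℝ) * (M * s - 3 * M) ≤ 3 * b1 * (s2 - 3 * M) :=
      mul_le_mul_of_nonneg_left (by linarith) (by positivity)
    have h2 : (M : ℝ) * (b1 * (3 * (s - 3))) ≤ M * M := by linarith
    exact le_of_mul_le_mul_left h2 c1R
  have nb2 : (M : ℝ) * β ≤ b2 := by
    rw [hβ, mul_one_div, div_le_iff₀ (by positivity)]
    have h1 : 3 * (b2 : ℝ) * (s1 - 3 * M) ≤ 3 * b2 * (M * s - 3 * M) :=
      mul_le_mul_of_nonneg_left (by linarith) (by positivity)
    have h2 : (M : ℝ) * M ≤ M * (b2 * (3 * (s - 3))) := by linarith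
    exact le_of_mul_le_mul_left h2 c1R
  have nB1 : (B1 : ℝ) ≤ M * (β - α) := by
    rw [hαβ, mul_one_div, le_div_iff₀ (by positivity)]
    have h1 : (B1 : ℝ) * (n * M - 3 * (M * s)) ≤ B1 * (n * M - 3 * s1) :=
      mul_le_mul_of_nonneg_left (by linarith) c14R
    have h2 : (M : ℝ) * (B1 * (s * (s - 3))) ≤ M * M := by
      have e : (M : ℝ) * (B1 * (s * (s - 3))) = B1 * (n * M - 3 * (M * s)) := by rw [← hss]; ring
      rw [e]; linarith
    exact le_of_mul_le_mul_left h2 c1R
  have nB2 : (M : ℝ) * (β - α) ≤ B2 := by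
    rw [hαβ, mul_one_div, div_le_iff₀ (by positivity)]
    have h1 : (B2 : ℝ) * (n * M - 3 * s2) ≤ B2 * (n * M - 3 * (M * s)) :=
      mul_le_mul_of_nonneg_left (by linarith) c16R
    have h2 : (M : ℝ) * M ≤ M * (B2 * (s * (s - 3))) := by
      have e : (M : ℝ) * (B2 * (s * (s - 3))) = B2 * (n * M - 3 * (M * s)) := by rw [← hss]; ring
      rw [e]; linarith
    exact le_of_mul_le_mul_left h2 c1R
  -- the parameters
  have hmain : (β - α) * ((d : ℝ) / 3) = m * β + γ * α := by
    rw [hαβ, hβ, hα, hγd]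
    field_simp
    ring
  obtain ⟨P, hP1, hP2, hP3, hP4⟩ : ∃ P : Par n m, P.α = α ∧ P.β = β ∧ P.γ = γ ∧ P.h = (d : ℝ) / 3 := by
    refine ⟨{ α := α, β := β, γ := γ, h := (d : ℝ) / 3, K := 3 * s, hα := hα0, hβ := by linarith
              hγ0 := hγ0.le, hγ1 := hγlt, hK := ?_, hKn := ?_, hβ' := ?_, hγ := ?_, hA1 := ?_,
              hA2 := ?_ }, rfl, rfl, rfl, rfl⟩
    · rw [hα]; field_simp
    · rw [← hss]; nlinarith
    · rw [hαβ, ← hss]; field_simp
    · rw [← hss]; linear_combination (-s) * hγm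
    · rw [hmain]
      have := mul_nonneg hγ0.le hα0.le
      linarith
    · rw [hmain]
      have := mul_nonneg hγ0.le hβα0.le
      linarith
  have hL : 1 ≤ α * L := by
    have h1 : (A1 : ℝ) * L ≤ M * α * L := mul_le_mul_of_nonneg_right nA1 (Nat.cast_nonneg L)
    have h2 : (M : ℝ) * 1 ≤ M * (α * L) := by linarith
    exact le_of_mul_le_mul_left h2 c1R
  have key := P.sur (L := L) (by rw [hP1]; exact hL)
    (by
      rw [hP1, hP2, hP3]
      intro ψ v hψ0 hψ1
      exact oktab_spec c1 hα0.le nB1 nB2 nA1 nA2 hγM hψ0 hψ1 tab 0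
        (by push_cast; exact mul_nonneg c1R.le hψ0) ht)
    (by
      rw [hP1, hP2, hP3, hP4]
      rintro ψ hψ0 hψ1 ⟨N, hN⟩
      have cb : ∀ (v : ℝ) (V Q : ℤ), (V : ℝ) = 3 * M * v → (Q : ℝ) ≤ 3 * M * ψ →
          (bumps L α β ψ v).card ≤ cntF (3 * M) (3 * A1) (3 * b1) (3 * b2) V Q L := by
        intro v V Q hV hQ
        refine bumps_le (by omega) ?_ ?_ ?_ ?_ ?_ L
        · push_cast; linarith
        · push_cast; linarith
        · push_cast; linarith
        · push_cast; linarith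
        · push_cast; linarith
      obtain ⟨k, r, hr, hd⟩ : ∃ k r : ℕ, r < 3 ∧ d = 3 * k + r := ⟨d / 3, d % 3, Nat.mod_lt _ (by norm_num), by omega⟩
      have hdR : (d : ℝ) = 3 * k + r := by exact_mod_cast hd
      have hint : ∀ z : ℤ, (-1 : ℝ) < z → (z : ℝ) < 1 → z = 0 := by
        intro z h1 h2
        have h1' : (-1 : ℤ) < z := by exact_mod_cast h1
        have h2' : z < (1 : ℤ) := by exact_mod_cast h2
        omega
      have fin1 : ∀ (q : ℕ) (B : ℤ), (q : ℝ) * 1 ≤ q → 3 * A2 * ((q : ℤ) - 1) ≤ B → (bumps L α β ψ (-((d : ℝ) / 3))).card ≤ q →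
          (bumps L α β ψ (-((d : ℝ) / 3))).card = 0 ∨
          3 * M * (α * (((bumps L α β ψ (-((d : ℝ) / 3))).card : ℝ) - 1)) ≤ B := by
        intro q B _ h1 h2
        rcases Nat.eq_zero_or_pos (bumps L α β ψ (-((d : ℝ) / 3))).card with h0 | h0
        · exact Or.inl h0
        · right
          have h0R : (1 : ℝ) ≤ ((bumps L α β ψ (-((d : ℝ) / 3))).card : ℝ) := by exact_mod_cast h0
          have h2R : ((bumps L α β ψ (-((d : ℝ) / 3))).card : ℝ) ≤ q := by exact_mod_cast h2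
          have h1R : 3 * (A2 : ℝ) * ((q : ℝ) - 1) ≤ B := by exact_mod_cast h1
          have h3 : M * α * (((bumps L α β ψ (-((d : ℝ) / 3))).card : ℝ) - 1) ≤ A2 * ((q : ℝ) - 1) :=
            mul_le_mul nA2 (by linarith) (by linarith) c8R
          linarith
      have hr' : r = 0 ∨ r = 1 ∨ r = 2 := by omega
      rcases hr' with hr0 | hr0 | hr0
      · -- `d` divisible by three
        rw [hr0] at hdR
        have hz : (k : ℤ) - N = 0 := by
          apply hint
          · push_cast; push_cast at hdR; linarith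
          · push_cast; push_cast at hdR; linarith
        have hNk : (N : ℝ) = k := by
          have : (N : ℤ) = k := by omega
          rw [this]; push_cast; rfl
        have hψγ : ψ = γ := by push_cast at hdR; linarith
        have hb : bumps L α β ψ (-((d : ℝ) / 3)) = bumps L α β ψ 0 := by
          have e : -((d : ℝ) / 3) = 0 + ((-(k : ℤ) : ℤ) : ℝ) := by
            push_cast; push_cast at hdR; linarith
          rw [e, bumps_add_int]
        rw [hb]
        have h1 := cb 0 0 (3 * G) (by push_cast; ring) (by rw [hψγ]; push_cast; linarith)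
        rcases Nat.eq_zero_or_pos (bumps L α β ψ 0).card with h0 | h0
        · exact Or.inl h0
        · right
          have h2 : (bumps L α β ψ 0).card = 1 := by omega
          rw [h2, hψγ]
          push_cast
          linarith
      · rw [hr0] at hdR
        push_cast at hdR
        have hz : (N : ℤ) - k = 0 := by
          apply hint
          · push_cast; linarith
          · push_cast
            have h3 : (M : ℝ) * 1 ≤ M * (3 * γ) := by linarith
            have h4 := le_of_mul_le_mul_left h3 c1R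
            linarith
        have hNk : (N : ℝ) = k := by
          have : (N : ℤ) = k := by omega
          rw [this]; push_cast; rfl
        have hψγ : ψ = γ - 1 / 3 := by linarith
        have hb : bumps L α β ψ (-((d : ℝ) / 3)) = bumps L α β ψ (2 / 3) := by
          have e : -((d : ℝ) / 3) = 2 / 3 + ((-(k + 1 : ℤ) : ℤ) : ℝ) := by
            push_cast; linarith
          rw [e, bumps_add_int]
        have h1 := cb (2 / 3) (2 * M) (3 * G - M) (by push_cast; ring)
          (by rw [hψγ]; push_cast; linarith)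
        rw [← hb] at h1
        rcases fin1 _ M (by simp) f1 h1 with h2 | h2
        · exact Or.inl h2
        · right
          have h3 : (M : ℝ) * (ψ + α * (((bumps L α β ψ (-((d : ℝ) / 3))).card : ℝ) - 1)) ≤ M * γ := by
            rw [hψγ] at h2 ⊢
            linarith
          exact le_of_mul_le_mul_left h3 c1R
      · rw [hr0] at hdR
        push_cast at hdR
        have hb : bumps L α β ψ (-((d : ℝ) / 3)) = bumps L α β ψ (1 / 3) := by
          have e : -((d : ℝ) / 3) = 1 / 3 + ((-(k + 1 : ℤ) : ℤ) : ℝ) := by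
            push_cast; linarith
          rw [e, bumps_add_int]
        rcases lt_or_ge γ (2 / 3) with hg | hg
        · have hz : (N : ℤ) - (k + 1) = 0 := by
            apply hint
            · push_cast; linarith
            · push_cast; linarith
          have hNk : (N : ℝ) = k + 1 := by
            have : (N : ℤ) = k + 1 := by omega
            rw [this]; push_cast; rfl
          have hψγ : ψ = γ + 1 / 3 := by linarith
          have h1 := cb (1 / 3) M (3 * G + M) (by push_cast; ring)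
            (by rw [hψγ]; push_cast; linarith)
          rw [← hb, f2] at h1
          left; omega
        · have hz : (N : ℤ) - k = 0 := by
            apply hint
            · push_cast; linarith
            · push_cast; linarith
          have hNk : (N : ℝ) = k := by
            have : (N : ℤ) = k := by omega
            rw [this]; push_cast; rfl
          have hψγ : ψ = γ - 2 / 3 := by linarith
          have h1 := cb (1 / 3) M (max (3 * G) (2 * M) - 2 * M) (by push_cast; ring)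
            (by
              rw [hψγ]
              rw [Int.cast_sub, Int.cast_max]
              push_cast
              have h5 : max (3 * (G : ℝ)) (2 * M) ≤ 3 * M * γ := by
                apply max_le
                · linarith
                · have := mul_le_mul_of_nonneg_left hg c1R.le
                  linarith
              linarith)
          rw [← hb] at h1
          rcases fin1 _ (2 * M) (by simp) f3 h1 with h2 | h2
          · exact Or.inl h2
          · right
            push_cast at h2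
            have h3 : (M : ℝ) * (ψ + α * (((bumps L α β ψ (-((d : ℝ) / 3))).card : ℝ) - 1)) ≤ M * γ := by
              rw [hψγ] at h2 ⊢
              linarith
            exact le_of_mul_le_mul_left h3 c1R)
  rw [hP1, hP2, hP4, hα, hβ] at key
  exact key

/-- from the triangle of slope `3 √n` to the plane -/
theorem sur_TZ {ι : Type} [Fintype ι] {w : ι → ℕ} {n d : ℕ} (hn : 10 ≤ n) (hirr : Irrational (√(n : ℝ)))
    (h : Sur w {p : ℤ × ℤ | 0 ≤ p.1 ∧ 0 ≤ p.2 ∧
      (d : ℝ) / 3 - 1 / (3 * (√(n : ℝ) - 3)) * (p.1 : ℝ) ≤ (p.2 : ℝ) ∧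
      (p.2 : ℝ) ≤ (d : ℝ) / 3 - 1 / (3 * √(n : ℝ)) * (p.1 : ℝ)}) : Sur w (TZ d) := by
  obtain ⟨s, hs⟩ : ∃ s, s = √(n : ℝ) := ⟨_, rfl⟩
  rw [← hs] at h hirr
  have hnR : (10 : ℝ) ≤ n := by exact_mod_cast hn
  have hss : s * s = n := by rw [hs]; exact Real.mul_self_sqrt (by linarith)
  have hs0 : 0 ≤ s := by rw [hs]; exact Real.sqrt_nonneg _
  have hs3 : 3 < s := by
    by_contra hcon
    push Not at hcon
    nlinarith
  obtain ⟨u, hu⟩ : ∃ u : ℤ, u = ⌊s⌋ := ⟨_, rfl⟩
  have hfr : Int.fract s = s - u := by rw [hu]; rfl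
  refine Pool.Agent.TH641.NW.keyS ι w d (s - u) ?_ ?_ ?_ ?_
  · rw [← hfr]
    refine lt_of_le_of_ne (Int.fract_nonneg s) fun h0 => ?_
    have h1 : s = (⌊s⌋ : ℝ) := by
      have := Int.self_sub_floor s
      linarith [h0]
    exact (Int.not_irrational ⌊s⌋) (by rw [← h1]; exact hirr)
  · rw [← hfr]; exact Int.fract_lt_one s
  · exact hirr.sub_intCast u
  · refine h.comap (-1) (-(3 * (u - 1))) 0 1 ((u - 1) * d) 0 (by norm_num) ?_
    rintro ⟨x, y⟩ ⟨h1, h2, h3, h4⟩
    simp only at h1 h2 h3 h4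
    refine ⟨(-x - 3 * (u - 1) * y + (u - 1) * d, y), ⟨h2, ?_, ?_⟩, ?_⟩
    · simp only
      push_cast
      have h5 : (x : ℝ) ≤ s * d - 3 * s * y := by
        have h6 := mul_le_mul_of_nonneg_left h4 (show (0 : ℝ) ≤ 3 * s by linarith)
        have e : 3 * s * ((d : ℝ) / 3 - 1 / (3 * s) * (x : ℝ)) = s * d - x := by
          field_simp
        rw [e] at h6
        linarith
      nlinarith
    · simp only
      push_cast
      have h5 : (s - 3) * d - 3 * (s - 3) * y ≤ (x : ℝ) := by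
        have h6 := mul_le_mul_of_nonneg_left h3 (show (0 : ℝ) ≤ 3 * (s - 3) by linarith)
        have e : 3 * (s - 3) * ((d : ℝ) / 3 - 1 / (3 * (s - 3)) * (x : ℝ)) = (s - 3) * d - x := by
          have : s - 3 ≠ 0 := by linarith
          field_simp
        rw [e] at h6
        linarith
      nlinarith
    · ext
      · simp only; ring
      · simp only; ring

end Pool.Agent.K7.H2.FO
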