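import Pool.Agent.K7.H2.FO.GeoE
import Pool.Agent.K7.H2.FO.ArcsE
import Pool.Agent.K7.H2.FO.Inst

set_option autoImplicit false

/-! The triangle of slope near `3 √n`, numerical certificates for emptiness. -/

namespace Pool.Agent.K7.H2.FO

open Finset Pool.Agent.TH176.Nag Pool.Agent.TH603.Sur

/-- the numerical certificate -/
def certE (n : ℕ) (M K1 K2 b1 b2 d1 d2 G : ℤ) (κ L : ℕ) (tab : List (ℤ × ℕ)) : Bool :=
  decide (0 < M ∧ 9 * M < K1 ∧ K2 < n * M ∧ 2 * K2 < (n + 9) * M ∧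
    0 ≤ b1 ∧ b1 * (K2 - 9 * M) ≤ M * M ∧ 0 ≤ b2 ∧ M * M ≤ b2 * (K1 - 9 * M) ∧
    0 ≤ d1 ∧ d1 * (n * M - K1) ≤ M * M ∧ 0 ≤ d2 ∧ M * M ≤ d2 * (n * M - K2) ∧
    M ≤ (κ + 1) * (b1 - d2) ∧ M ≤ (b1 - d2) * L ∧ 0 ≤ G ∧ 3 * G < 2 * M ∧ κ < n ∧ κ * M ≤ K1) &&
  (oktabE M (b1 - d2) (b2 - d1) b1 b2 G L 0 tab &&
  (decide (1 ≤ cntB M (b2 - d1) b1 b2 0 G L) &&
  (decide (3 * G < M) ||
    decide (gcnt (3 * M) (3 * (b1 - d2)) M 0 L ≤ cntB (3 * M) (3 * (b2 - d1)) (3 * b1) (3 * b2) (2 * M) (3 * G - M) L))))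

theorem emp_reg {n m d : ℕ} {K y : ℝ} {M K1 K2 b1 b2 d1 d2 G : ℤ} {κ L : ℕ}
    {tab : List (ℤ × ℕ)} (hc : certE n M K1 K2 b1 b2 d1 d2 G κ L tab = true)
    (hKd : K * d = 3 * (n * m + y)) (hK1 : (K1 : ℝ) ≤ M * K) (hK2 : (M : ℝ) * K ≤ K2)
    (hKs : 9 * (n : ℝ) ≤ K * K) (hKm : K * m ≤ 3 * d) (hA3 : 3 * (d : ℝ) - K * m < n - K)
    (hy : 0 ≤ y) (hyG : (M : ℝ) * y ≤ G * (n - K))
    (HC2 : ∃ z : ℤ, (z : ℝ) < y ∧ y + (3 * d - K * m) < z + 1)
    (HC1 : ∀ k : ℕ, 1 ≤ k → ∀ z : ℤ, y - k * (K - 9) ≤ z → (z : ℝ) ≤ y + (3 * d - K * m) - k * (n - K) →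
      False) :
    Emp (fun _ : Fin n => m) {p : ℤ × ℤ | 0 ≤ p.2 ∧
      (d : ℝ) / 3 - 1 / (K - 9) * (p.1 : ℝ) ≤ (p.2 : ℝ) ∧
      (p.2 : ℝ) ≤ (d : ℝ) / 3 - 1 / K * (p.1 : ℝ)} := by
  unfold certE at hc
  rw [Bool.and_eq_true, Bool.and_eq_true, Bool.and_eq_true, decide_eq_true_eq, decide_eq_true_eq] at hc
  obtain ⟨⟨c1, c2, c3, c4, c5, c6, c7, c8, c9, c10, c11, c12, c13, c14, c15, c16, c17, c18⟩, ht,
    f0, f1⟩ := hc
  have c1R : (0 : ℝ) < M := by exact_mod_cast c1
  have c2R : 9 * (M : ℝ) < K1 := by exact_mod_cast c2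
  have c3R : (K2 : ℝ) < n * M := by exact_mod_cast c3
  have c4R : 2 * (K2 : ℝ) < (n + 9) * M := by exact_mod_cast c4
  have c5R : (0 : ℝ) ≤ b1 := by exact_mod_cast c5
  have c6R : (b1 : ℝ) * (K2 - 9 * M) ≤ M * M := by exact_mod_cast c6
  have c7R : (0 : ℝ) ≤ b2 := by exact_mod_cast c7
  have c8R : (M : ℝ) * M ≤ b2 * (K1 - 9 * M) := by exact_mod_cast c8
  have c9R : (0 : ℝ) ≤ d1 := by exact_mod_cast c9
  have c10R : (d1 : ℝ) * (n * M - K1) ≤ M * M := by exact_mod_cast c10
  have c11R : (0 : ℝ) ≤ d2 := by exact_mod_cast c11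
  have c12R : (M : ℝ) * M ≤ d2 * (n * M - K2) := by exact_mod_cast c12
  have c13R : (M : ℝ) ≤ (κ + 1) * (b1 - d2) := by exact_mod_cast c13
  have c14R : (M : ℝ) ≤ (b1 - d2) * L := by exact_mod_cast c14
  have c15R : (0 : ℝ) ≤ G := by exact_mod_cast c15
  have c16R : 3 * (G : ℝ) < 2 * M := by exact_mod_cast c16
  have c18R : (κ : ℝ) * M ≤ K1 := by exact_mod_cast c18
  have hK9 : 9 < K := by
    have : (M : ℝ) * 9 < M * K := by linarith
    exact lt_of_mul_lt_mul_left this c1R.le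
  have hKn : K < n := by
    have : (M : ℝ) * K < M * n := by linarith
    exact lt_of_mul_lt_mul_left this c1R.le
  have hK2' : 2 * K < n + 9 := by
    have : (M : ℝ) * (2 * K) < M * (n + 9) := by linarith
    exact lt_of_mul_lt_mul_left this c1R.le
  have p1 : 0 < K - 9 := by linarith
  have p2 : 0 < (n : ℝ) - K := by linarith
  have p3 : 0 < K := by linarith
  obtain ⟨α, hα⟩ : ∃ α, α = 1 / K := ⟨_, rfl⟩
  obtain ⟨β, hβ⟩ : ∃ β, β = 1 / (K - 9) := ⟨_, rfl⟩
  obtain ⟨δ, hδ⟩ : ∃ δ, δ = 1 / ((n : ℝ) - K) := ⟨_, rfl⟩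
  obtain ⟨γ, hγd⟩ : ∃ γ, γ = y / ((n : ℝ) - K) := ⟨_, rfl⟩
  have hα0 : 0 < α := by rw [hα]; positivity
  have hβ0 : 0 < β := by rw [hβ]; positivity
  have hδ0 : 0 < δ := by rw [hδ]; positivity
  have eα : K * α = 1 := by rw [hα]; field_simp
  have eβ : (K - 9) * β = 1 := by rw [hβ]; field_simp
  have eδ : ((n : ℝ) - K) * δ = 1 := by rw [hδ]; field_simp
  have eγ : γ * ((n : ℝ) - K) = y := by rw [hγd]; field_simp
  have eKh : K * ((d : ℝ) / 3) = n * m + y := by linarith
  have hγ0 : 0 ≤ γ := by rw [hγd]; positivity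
  have hγM : (M : ℝ) * γ ≤ G := by
    rw [hγd, ← mul_div_assoc, div_le_iff₀ p2]
    exact hyG
  have hγlt : 3 * γ < 2 := by
    have : (M : ℝ) * (3 * γ) < M * 2 := by linarith
    exact lt_of_mul_lt_mul_left this c1R.le
  -- numerical bounds
  have nb1 : (b1 : ℝ) ≤ M * β := by
    rw [hβ, mul_one_div, le_div_iff₀ p1]
    have h1 : (b1 : ℝ) * (M * K - 9 * M) ≤ b1 * (K2 - 9 * M) :=
      mul_le_mul_of_nonneg_left (by linarith) c5R
    have h2 : (M : ℝ) * (b1 * (K - 9)) ≤ M * M := by linarith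
    exact le_of_mul_le_mul_left h2 c1R
  have nb2 : (M : ℝ) * β ≤ b2 := by
    rw [hβ, mul_one_div, div_le_iff₀ p1]
    have h1 : (b2 : ℝ) * (K1 - 9 * M) ≤ b2 * (M * K - 9 * M) :=
      mul_le_mul_of_nonneg_left (by linarith) c7R
    have h2 : (M : ℝ) * M ≤ M * (b2 * (K - 9)) := by linarith
    exact le_of_mul_le_mul_left h2 c1R
  have nd1 : (d1 : ℝ) ≤ M * δ := by
    rw [hδ, mul_one_div, le_div_iff₀ p2]
    have h1 : (d1 : ℝ) * (n * M - M * K) ≤ d1 * (n * M - K1) :=
      mul_le_mul_of_nonneg_left (by linarith) c9R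
    have h2 : (M : ℝ) * (d1 * (n - K)) ≤ M * M := by linarith
    exact le_of_mul_le_mul_left h2 c1R
  have nd2 : (M : ℝ) * δ ≤ d2 := by
    rw [hδ, mul_one_div, div_le_iff₀ p2]
    have h1 : (d2 : ℝ) * (n * M - K2) ≤ d2 * (n * M - M * K) :=
      mul_le_mul_of_nonneg_left (by linarith) c11R
    have h2 : (M : ℝ) * M ≤ M * (d2 * (n - K)) := by linarith
    exact le_of_mul_le_mul_left h2 c1R
  have na1 : ((b1 - d2 : ℤ) : ℝ) ≤ M * (β - δ) := by push_cast; linarith
  have na2 : (M : ℝ) * (β - δ) ≤ ((b2 - d1 : ℤ) : ℝ) := by push_cast; linarith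
  have na1' : (b1 : ℝ) - d2 ≤ M * (β - δ) := by linarith
  have hδβ : δ < β := by
    rw [hδ, hβ]
    exact one_div_lt_one_div_of_lt p1 (by linarith)
  have hαβ : α < β := by
    rw [hα, hβ]
    exact one_div_lt_one_div_of_lt p1 (by linarith)
  have ha : β - δ ≤ α := by
    rw [hβ, hδ, hα, div_sub_div _ _ p1.ne' p2.ne', div_le_div_iff₀ (by positivity) p3]
    nlinarith
  have hβh : (K - 9) * ((d : ℝ) / 3) = n * m + y - 3 * d := by linarith
  have hpb : (d : ℝ) / 3 = β * (n * m + y - 3 * d) := by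
    rw [← hβh, ← mul_assoc, mul_comm β, eβ, one_mul]
  obtain ⟨P, hP1, hP2, hP3, hP4, hP5, hP6⟩ : ∃ P : ParE n m, P.α = α ∧ P.β = β ∧ P.γ = γ ∧
      P.h = (d : ℝ) / 3 ∧ P.δ = δ ∧ P.K = K := by
    refine ⟨{ α := α, β := β, δ := δ, γ := γ, h := (d : ℝ) / 3, K := K, κ := κ, hα := hα0, hαβ := hαβ,
              hδ := hδ0, hδβ := hδβ, ha := ha, hγ0 := hγ0, hγ1 := by linarith, hK := eα, hKn := hKn,
              hδ' := eδ, hγ := by linarith, hA1 := ?_, hA2 := ?_, hA3 := ?_, hκ1 := by exact_mod_cast c17,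
              hκ2 := ?_, hκ3 := ?_ }, rfl, rfl, rfl, rfl, rfl, rfl⟩
    · -- `m β ≤ (β - α) h`
      have e : (β - α) * ((d : ℝ) / 3) = α * β * (3 * d) := by
        have : β - α = α * β * 9 := by
          rw [hα, hβ]; field_simp; ring
        rw [this]; ring
      have e2 : (m : ℝ) * β = α * β * (K * m) := by
        have : α * β * (K * m) = (K * α) * β * m := by ring
        rw [this, eα]; ring
      rw [e, e2]
      exact mul_le_mul_of_nonneg_left hKm (mul_nonneg hα0.le hβ0.le)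
    · -- `δ h ≤ (m + γ) β`
      have e2 : ((m : ℝ) + γ) * β = δ * β * (m * (n - K) + y) := by
        have : δ * β * (m * (n - K) + y) = ((n - K) * δ) * β * m + δ * β * y := by ring
        rw [this, eδ, ← eγ]
        have : δ * β * (γ * (n - K)) = ((n - K) * δ) * β * γ := by ring
        rw [this, eδ]; ring
      rw [e2, hpb, ← mul_assoc]
      exact mul_le_mul_of_nonneg_left (by nlinarith) (mul_nonneg hδ0.le hβ0.le)
    · -- `(m - 1 + γ) β < δ h`
      have e2 : ((m : ℝ) - 1 + γ) * β = δ * β * ((m - 1) * (n - K) + y) := by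
        have : δ * β * ((m - 1) * (n - K) + y) = ((n - K) * δ) * β * (m - 1) + δ * β * y := by ring
        rw [this, eδ, ← eγ]
        have : δ * β * (γ * (n - K)) = ((n - K) * δ) * β * γ := by ring
        rw [this, eδ]; ring
      rw [e2, hpb, ← mul_assoc]
      exact mul_lt_mul_of_pos_left (by nlinarith) (mul_pos hδ0 hβ0)
    · have : (M : ℝ) * κ ≤ M * K := by linarith
      exact le_of_mul_le_mul_left this c1R
    · have h0 : (0 : ℝ) ≤ (κ : ℝ) + 1 := by positivity
      have h1 : ((κ : ℝ) + 1) * (b1 - d2) ≤ (κ + 1) * (M * (β - δ)) := mul_le_mul_of_nonneg_left na1' h0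
      have : (M : ℝ) * 1 ≤ M * ((κ + 1) * (β - δ)) := by linarith
      exact le_of_mul_le_mul_left this c1R
  have hL : 1 ≤ (β - δ) * L := by
    have h1 : ((b1 : ℝ) - d2) * L ≤ M * (β - δ) * L := mul_le_mul_of_nonneg_right na1' (Nat.cast_nonneg L)
    have h2 : (M : ℝ) * 1 ≤ M * ((β - δ) * L) := by linarith
    exact le_of_mul_le_mul_left h2 c1R
  have key := P.emp (L := L) (by rw [hP2, hP5]; exact hL)
    (by
      rw [hP2, hP3, hP5]
      intro ψ v hψ0 hψ1
      exact oktabE_spec c1 nb1 nb2 na1 na2 hγM hψ1 tab 0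
        (by push_cast; exact mul_nonneg c1R.le hψ0) ht)
    (by
      rw [hP2, hP3, hP4, hP5]
      rintro ψ hψ0 hψ1 ⟨N, hN⟩
      have hempty : γ < ψ → ((range L).filter fun i : ℕ => ψ + (β - δ) * i ≤ γ).card ≤
          (bumps L (β - δ) β ψ (-((d : ℝ) / 3))).card := by
        intro h1
        have : ((range L).filter fun i : ℕ => ψ + (β - δ) * i ≤ γ) = ∅ := by
          apply filter_eq_empty_iff.2
          intro i _ h2
          have : 0 ≤ (β - δ) * i := mul_nonneg (by linarith) (Nat.cast_nonneg i)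
          linarith
        rw [this]
        simp
      obtain ⟨k, r, hr, hd⟩ : ∃ k r : ℕ, r < 3 ∧ d = 3 * k + r := ⟨d / 3, d % 3, Nat.mod_lt _ (by norm_num), by omega⟩
      have hdR : (d : ℝ) = 3 * k + r := by exact_mod_cast hd
      have hint : ∀ z : ℤ, (-1 : ℝ) < z → (z : ℝ) < 1 → z = 0 := by
        intro z h1 h2
        have h1' : (-1 : ℤ) < z := by exact_mod_cast h1
        have h2' : z < (1 : ℤ) := by exact_mod_cast h2
        omega
      have hr' : r = 0 ∨ r = 1 ∨ r = 2 := by omega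
      rcases hr' with hr0 | hr0 | hr0
      · -- `d` divisible by three
        rw [hr0] at hdR
        push_cast at hdR
        have hz : (k : ℤ) - N = 0 := by
          apply hint
          · push_cast; linarith
          · push_cast; linarith
        have hNk : (N : ℝ) = k := by
          have : (N : ℤ) = k := by omega
          rw [this]; push_cast; rfl
        have hψγ : ψ = γ := by linarith
        have hb : bumps L (β - δ) β ψ (-((d : ℝ) / 3)) = bumps L (β - δ) β ψ 0 := by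
          have e : -((d : ℝ) / 3) = 0 + ((-(k : ℤ) : ℤ) : ℝ) := by
            push_cast; linarith
          rw [e, bumps_add_int]
        rw [hb]
        have h1 := cntB_le (c := ψ) (v := 0) (V := 0) (P := G) c1 nb1 nb2 na2 (by rw [hψγ]; exact hγM)
          (by simp) L
        refine le_trans ?_ (le_trans f0 h1)
        rw [card_le_one]
        intro i hi j hj
        rw [mem_filter] at hi hj
        have h3 : ∀ i : ℕ, ψ + (β - δ) * i ≤ γ → i = 0 := by
          intro i hi
          by_contra hne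
          have : (1 : ℝ) ≤ i := by exact_mod_cast Nat.one_le_iff_ne_zero.2 hne
          have h4 : 0 < (β - δ) * i := mul_pos (by linarith) (by linarith)
          linarith
        rw [h3 i hi.2, h3 j hj.2]
      · rw [hr0] at hdR
        push_cast at hdR
        rcases lt_or_ge γ ψ with hlt | hge
        · exact hempty hlt
        · have hz : (N : ℤ) - k = 0 := by
            apply hint
            · push_cast; linarith
            · push_cast; linarith
          have hNk : (N : ℝ) = k := by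
            have : (N : ℤ) = k := by omega
            rw [this]; push_cast; rfl
          have hψγ : ψ = γ - 1 / 3 := by linarith
          have hG3 : ¬ 3 * G < M := by
            intro h1
            have h1R : 3 * (G : ℝ) < M := by exact_mod_cast h1
            have : (M : ℝ) * (3 * γ) < M * 1 := by linarith
            have := lt_of_mul_lt_mul_left this c1R.le
            linarith
          rw [Bool.or_eq_true, decide_eq_true_eq, decide_eq_true_eq] at f1
          have f1' := f1.resolve_left hG3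
          have hb : bumps L (β - δ) β ψ (-((d : ℝ) / 3)) = bumps L (β - δ) β ψ (2 / 3) := by
            have e : -((d : ℝ) / 3) = 2 / 3 + ((-(k + 1 : ℤ) : ℤ) : ℝ) := by
              push_cast; linarith
            rw [e, bumps_add_int]
          rw [hb]
          have h1 := cntB_le (M := 3 * M) (a2 := 3 * (b2 - d1)) (b1 := 3 * b1) (b2 := 3 * b2)
            (V := 2 * M) (P := 3 * G - M) (α := β - δ) (β := β) (c := ψ) (v := 2 / 3) (by omega)
            (by push_cast; linarith) (by push_cast; linarith)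
            (by push_cast; push_cast at na2; linarith)
            (by rw [hψγ]; push_cast; linarith) (by push_cast; ring) L
          have h2 := gcnt_spec (M := 3 * M) (a1 := 3 * (b1 - d2)) (G := M) (c := 0) (α := β - δ)
            (γ := 1 / 3) (ψ := 0) (by omega) (by push_cast; linarith) (by push_cast; linarith)
            (by simp) L
          refine le_trans ?_ (le_trans f1' h1)
          refine le_trans (card_le_card ?_) h2
          intro i hi
          rw [mem_filter] at hi ⊢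
          refine ⟨hi.1, ?_⟩
          have := hi.2
          linarith
      · rw [hr0] at hdR
        push_cast at hdR
        apply hempty
        have hz : (N : ℤ) - (k + 1) = 0 := by
          apply hint
          · push_cast; linarith
          · push_cast; linarith
        have hNk : (N : ℝ) = k + 1 := by
          have : (N : ℤ) = k + 1 := by omega
          rw [this]; push_cast; rfl
        linarith)
    (by
      intro x hY heq
      have hbx := Nat.le_ceil (P.Y x)
      have hrx : P.W x ≤ (P.rx x : ℝ) := by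
        unfold ParE.rx
        rw [if_pos hY]
        exact Nat.le_ceil _
      obtain ⟨k, hk⟩ : ∃ k, k = P.bx x := ⟨_, rfl⟩
      have hk' : P.Y x ≤ k := by rw [hk]; exact hbx
      have hk1 : 1 ≤ k := by
        rw [hk]
        exact Nat.ceil_pos.2 hY
      rw [← hk] at heq
      have hrk : (P.rx x : ℝ) = m - k := by
        have : (k : ℝ) + P.rx x = m := by exact_mod_cast heq
        linarith
      rw [hrk] at hrx
      unfold ParE.Y at hk'
      unfold ParE.W at hrx
      rw [hP4, hP2] at hk'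
      rw [hP5, hP3] at hrx
      have q1 : (K - 9) * ((d : ℝ) / 3 - β * x) ≤ (K - 9) * k := mul_le_mul_of_nonneg_left hk' p1.le
      have q1' : (K - 9) * ((d : ℝ) / 3 - β * x) = n * m + y - 3 * d - x := by
        rw [mul_sub, hβh, ← mul_assoc, eβ, one_mul]
      have q2 : ((n : ℝ) - K) * (δ * x - γ) ≤ (n - K) * (m - k) := mul_le_mul_of_nonneg_left hrx p2.le
      have q2' : ((n : ℝ) - K) * (δ * x - γ) = x - y := by
        rw [mul_sub, ← mul_assoc, eδ, one_mul, mul_comm _ γ, eγ]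
      refine HC1 k hk1 ((x : ℤ) - n * m + 3 * d) ?_ ?_
      · push_cast; linarith
      · push_cast; linarith)
    (by
      intro x hY
      by_contra hcon
      push Not at hcon
      unfold ParE.Y at hY
      unfold ParE.A at hcon
      rw [hP4, hP2] at hY
      rw [hP4, hP1] at hcon
      have q1 : (K - 9) * ((d : ℝ) / 3 - β * x) ≤ (K - 9) * 0 := mul_le_mul_of_nonneg_left hY p1.le
      have q1' : (K - 9) * ((d : ℝ) / 3 - β * x) = n * m + y - 3 * d - x := by
        rw [mul_sub, hβh, ← mul_assoc, eβ, one_mul]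
      have q2 : K * m ≤ K * ((d : ℝ) / 3 - α * x) := mul_le_mul_of_nonneg_left hcon p3.le
      have q2' : K * ((d : ℝ) / 3 - α * x) = n * m + y - x := by
        rw [mul_sub, eKh, ← mul_assoc, eα, one_mul]
      obtain ⟨z, hz1, hz2⟩ := HC2
      have q3 : (z : ℝ) < (((x : ℤ) - n * m + 3 * d : ℤ) : ℝ) := by push_cast; linarith
      have q4 : (((x : ℤ) - n * m + 3 * d : ℤ) : ℝ) < ((z + 1 : ℤ) : ℝ) := by push_cast; linarith
      have q5 : z < (x : ℤ) - n * m + 3 * d := by exact_mod_cast q3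
      have q6 : (x : ℤ) - n * m + 3 * d < z + 1 := by exact_mod_cast q4
      omega)
  rw [hP1, hP2, hP4, hα, hβ] at key
  exact key

/-- from the triangle of slope `K` to the plane -/
theorem emp_TZ {ι : Type} {w : ι → ℕ} {d : ℕ} {K : ℝ} {u : ℤ} (hu1 : 3 * (u : ℝ) < K)
    (hu2 : K < 3 * (u + 1)) (hK : 9 < K)
    (h : Emp w {p : ℤ × ℤ | 0 ≤ p.2 ∧
      (d : ℝ) / 3 - 1 / (K - 9) * (p.1 : ℝ) ≤ (p.2 : ℝ) ∧
      (p.2 : ℝ) ≤ (d : ℝ) / 3 - 1 / K * (p.1 : ℝ)}) : Emp w (TZ d) := by
  refine Pool.Agent.TH641.NW.keyE ι w d (K / 3 - u) (by linarith) (by linarith) ?_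
  refine h.comap (-1) (-(3 * (u - 1))) 0 1 ((u - 1) * d) 0 (by norm_num) ?_
  rintro ⟨X, y⟩ hX
  obtain ⟨h1, h2, h3⟩ := hX
  simp only at h1 h2 h3
  have p1 : 0 < K - 9 := by linarith
  have p3 : 0 < K := by linarith
  refine ⟨?_, ?_, ?_⟩
  · simp only; omega
  · simp only
    push_cast
    have h5 : (K - 9) * ((d : ℝ) / 3 - 1 / (K - 9) * (-(X : ℝ) - 3 * (u - 1) * y + (u - 1) * d)) ≤
        (K - 9) * (y : ℝ) := by
      have e : (K - 9) * ((d : ℝ) / 3 - 1 / (K - 9) * (-(X : ℝ) - 3 * (u - 1) * y + (u - 1) * d)) =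
          (K - 9) * d / 3 + X + 3 * (u - 1) * y - (u - 1) * d := by
        field_simp
        ring
      rw [e]
      nlinarith
    have h6 := le_of_mul_le_mul_left h5 p1
    have e : -1 * (X : ℝ) + -(3 * ((u : ℝ) - 1)) * y + (u - 1) * d =
      -(X : ℝ) - 3 * (u - 1) * y + (u - 1) * d := by ring
    rw [e]
    linarith
  · simp only
    push_cast
    have h5 : K * (y : ℝ) ≤
        K * ((d : ℝ) / 3 - 1 / K * (-(X : ℝ) - 3 * (u - 1) * y + (u - 1) * d)) := by
      have e : K * ((d : ℝ) / 3 - 1 / K * (-(X : ℝ) - 3 * (u - 1) * y + (u - 1) * d)) =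
          K * d / 3 + X + 3 * (u - 1) * y - (u - 1) * d := by
        field_simp
        ring
      rw [e]
      nlinarith
    have h6 := le_of_mul_le_mul_left h5 p3
    have e : -1 * (X : ℝ) + -(3 * ((u : ℝ) - 1)) * y + (u - 1) * d =
      -(X : ℝ) - 3 * (u - 1) * y + (u - 1) * d := by ring
    rw [e]
    linarith

end Pool.Agent.K7.H2.FO
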