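import Pool.Agent.K7.H2.FO.InstE

set_option autoImplicit false

/-! Windows for emptiness. -/

namespace Pool.Agent.K7.H2.FO

open Finset Pool.Agent.TH176.Nag Pool.Agent.TH603.Sur

/-- the corner of the triangle -/
def corner (M Y1 Y2 T p q : ℤ) (k0 z : ℕ) : Bool :=
  decide ((z = 0 ∨ z * M < Y1) ∧ Y2 < (z + 1) * M ∧ T < (k0 + 1) * (q - p)) &&
    (List.range k0).all fun k => decide ((Y2 - (k + 1) * q) / M * M < Y1 - (k + 1) * p)

theorem corner_spec {M Y1 Y2 T p q : ℤ} {k0 z : ℕ} (hM : 0 < M)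
    (h : corner M Y1 Y2 T p q k0 z = true) {y E P Q : ℝ} (hy : 0 < y) (hE : 0 ≤ E)
    (h1 : (Y1 : ℝ) ≤ M * y) (h2 : (M : ℝ) * (y + E) ≤ Y2) (h3 : (M : ℝ) * E ≤ T)
    (h4 : (M : ℝ) * P ≤ p) (h5 : (q : ℝ) ≤ M * Q) :
    (∃ z : ℤ, (z : ℝ) < y ∧ y + E < z + 1) ∧
      ∀ k : ℕ, 1 ≤ k → ∀ z : ℤ, y - k * P ≤ z → (z : ℝ) ≤ y + E - k * Q → False := by
  have hMR : (0 : ℝ) < M := by exact_mod_cast hM
  unfold corner at h
  rw [Bool.and_eq_true, decide_eq_true_eq, List.all_eq_true] at h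
  obtain ⟨⟨e1, e2, e3⟩, e4⟩ := h
  have e2R : (Y2 : ℝ) < (z + 1) * M := by exact_mod_cast e2
  have e3R : (T : ℝ) < (k0 + 1) * (q - p) := by exact_mod_cast e3
  have hT0 : (0 : ℝ) ≤ T := le_trans (mul_nonneg hMR.le hE) h3
  have hqp : (0 : ℝ) < q - p := by
    by_contra hcon
    push Not at hcon
    have : ((k0 : ℝ) + 1) * (q - p) ≤ 0 := mul_nonpos_of_nonneg_of_nonpos (by positivity) hcon
    linarith
  refine ⟨⟨z, ?_, ?_⟩, ?_⟩
  · rcases e1 with e1 | e1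
    · rw [e1]; simpa using hy
    · have e1R : (z : ℝ) * M < Y1 := by exact_mod_cast e1
      have : (M : ℝ) * ((z : ℤ) : ℝ) < M * y := by push_cast; linarith
      exact lt_of_mul_lt_mul_left this hMR.le
  · have : (M : ℝ) * (y + E) < M * (((z : ℤ) : ℝ) + 1) := by push_cast; linarith
    exact lt_of_mul_lt_mul_left this hMR.le
  · intro k hk w hw1 hw2
    rcases Nat.lt_or_ge k0 k with hkk | hkk
    · have f1 : (k : ℝ) * (Q - P) ≤ E := by linarith
      have f2 : ((k0 : ℝ) + 1) * (q - p) ≤ k * (q - p) := by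
        apply mul_le_mul_of_nonneg_right _ hqp.le
        exact_mod_cast hkk
      have f3 : (k : ℝ) * (q - p) ≤ k * (M * (Q - P)) :=
        mul_le_mul_of_nonneg_left (by linarith) (Nat.cast_nonneg k)
      have f4 : (M : ℝ) * (k * (Q - P)) ≤ M * E := mul_le_mul_of_nonneg_left f1 hMR.le
      linarith
    · obtain ⟨k', rfl⟩ : ∃ k', k = k' + 1 := ⟨k - 1, by omega⟩
      have f1 := e4 k' (List.mem_range.2 (by omega))
      rw [decide_eq_true_eq] at f1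
      have hk0 : (0 : ℝ) ≤ ((k' + 1 : ℕ) : ℝ) := Nat.cast_nonneg _
      have g1 : (M : ℝ) * (y - ((k' + 1 : ℕ) : ℝ) * P) ≤ M * w := mul_le_mul_of_nonneg_left hw1 hMR.le
      have g2 : (M : ℝ) * w ≤ M * (y + E - ((k' + 1 : ℕ) : ℝ) * Q) := mul_le_mul_of_nonneg_left hw2 hMR.le
      have g3 : ((k' + 1 : ℕ) : ℝ) * (M * P) ≤ ((k' + 1 : ℕ) : ℝ) * p := mul_le_mul_of_nonneg_left h4 hk0
      have g4 : ((k' + 1 : ℕ) : ℝ) * (q : ℝ) ≤ ((k' + 1 : ℕ) : ℝ) * (M * Q) := mul_le_mul_of_nonneg_left h5 hk0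
      have g5 : ((Y1 - (k' + 1) * p : ℤ) : ℝ) ≤ ((M * w : ℤ) : ℝ) := by
        push_cast; push_cast at g1 g3; linarith
      have g6 : ((M * w : ℤ) : ℝ) ≤ ((Y2 - (k' + 1) * q : ℤ) : ℝ) := by
        push_cast; push_cast at g2 g4; linarith
      have g7 : Y1 - (k' + 1) * p ≤ M * w := by exact_mod_cast g5
      have g8 : M * w ≤ Y2 - (k' + 1) * q := by exact_mod_cast g6
      have g9 : w ≤ (Y2 - (k' + 1) * q) / M := by
        rw [Int.le_ediv_iff_mul_le hM]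
        linarith
      have g10 : w * M ≤ (Y2 - (k' + 1) * q) / M * M := mul_le_mul_of_nonneg_right g9 hM.le
      linarith

/-- the square root -/
def base (n : ℕ) (M s1 s2 K2 u : ℤ) : Bool :=
  decide (0 < M ∧ 3 * M < s1 ∧ s1 * s1 ≤ n * M * M ∧ n * M * M ≤ s2 * s2 ∧ 0 < s2 ∧ u * M < s1 ∧
    K2 < 3 * (u + 1) * M ∧ 3 * s2 ≤ K2 ∧ K2 ≤ n * M)

/-- a window with a constant excess -/
def modeC (n : ℕ) (M s1 s2 K2 G g1 g2 Y T : ℤ) (m0 k0 z : ℕ) : Bool :=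
  decide (0 < Y ∧ 0 ≤ g1 ∧ s2 * g2 ≤ Y * M ∧ Y * M ≤ 2 * s1 * g1 ∧
    3 * Y * M ≤ (K2 - 3 * s2) * s1 * m0 + K2 * g1 ∧
    0 ≤ T * s1 - 3 * (2 * s2 * g2 - Y * M) ∧ 0 ≤ T ∧ T ≤ 3 * g2 ∧
    g2 * (3 * g2 - T) ≤ m0 * (T * s1 - 3 * (2 * s2 * g2 - Y * M)) ∧
    T < n * M - K2 ∧ 0 ≤ G ∧ Y * M ≤ G * (n * M - K2)) &&
  corner M Y (Y + T) T (K2 - 9 * M) (n * M - K2) k0 z

/-- a window with the exact slope -/
def modeX (n : ℕ) (M s1 s2 K2 G g1 g2 : ℤ) (k0 z : ℕ) : Bool :=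
  decide (0 ≤ g1 ∧ 0 ≤ g2 ∧ 3 * g2 < n * M - K2 ∧ 0 ≤ G ∧ s2 * g2 ≤ G * (n * M - K2)) &&
  corner (M * M) (s1 * g1) ((s2 + 3 * M) * g2) (3 * g2 * M) ((3 * s2 - 9 * M) * M)
    ((n * M - 3 * s2) * M) k0 z

theorem emp_modeC {n m d : ℕ} {M s1 s2 K2 u b1 b2 d1 d2 G g1 g2 Y T : ℤ} {κ L m0 k0 z : ℕ}
    {tab : List (ℤ × ℕ)} (hb : base n M s1 s2 K2 u = true)
    (hc : certE n M (3 * s1) K2 b1 b2 d1 d2 G κ L tab = true)
    (hmd : modeC n M s1 s2 K2 G g1 g2 Y T m0 k0 z = true) (hm1 : 1 ≤ m) (hm : m0 ≤ m)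
    (hg0 : 0 < (d : ℝ) - √(n : ℝ) * m)
    (hg1 : (g1 : ℝ) ≤ M * (d - √(n : ℝ) * m)) (hg2 : (M : ℝ) * (d - √(n : ℝ) * m) ≤ g2) :
    Emp (fun _ : Fin n => m) (TZ d) := by
  obtain ⟨s, hs⟩ : ∃ s, s = √(n : ℝ) := ⟨_, rfl⟩
  rw [← hs] at hg0 hg1 hg2
  have hnR : (0 : ℝ) ≤ n := Nat.cast_nonneg n
  have hss : s * s = n := by rw [hs]; exact Real.mul_self_sqrt hnR
  have hs0 : 0 ≤ s := by rw [hs]; exact Real.sqrt_nonneg _
  obtain ⟨g, hg⟩ : ∃ g, g = (d : ℝ) - s * m := ⟨_, rfl⟩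
  rw [← hg] at hg0 hg1 hg2
  unfold base at hb
  rw [decide_eq_true_eq] at hb
  obtain ⟨a1, a2, a3, a4, a5, a6, a7, a8, a9⟩ := hb
  unfold modeC at hmd
  rw [Bool.and_eq_true, decide_eq_true_eq] at hmd
  obtain ⟨⟨c1, c2, c3, c4, c5, c6, c7, c8, c9, c10, c11, c12⟩, hcor⟩ := hmd
  have a1R : (0 : ℝ) < M := by exact_mod_cast a1
  have a2R : 3 * (M : ℝ) < s1 := by exact_mod_cast a2
  have a3R : (s1 : ℝ) * s1 ≤ n * M * M := by exact_mod_cast a3
  have a4R : (n : ℝ) * M * M ≤ s2 * s2 := by exact_mod_cast a4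
  have a5R : (0 : ℝ) < s2 := by exact_mod_cast a5
  have a6R : (u : ℝ) * M < s1 := by exact_mod_cast a6
  have a7R : (K2 : ℝ) < 3 * (u + 1) * M := by exact_mod_cast a7
  have a8R : 3 * (s2 : ℝ) ≤ K2 := by exact_mod_cast a8
  have a9R : (K2 : ℝ) ≤ n * M := by exact_mod_cast a9
  have c1R : (0 : ℝ) < Y := by exact_mod_cast c1
  have c2R : (0 : ℝ) ≤ g1 := by exact_mod_cast c2
  have c3R : (s2 : ℝ) * g2 ≤ Y * M := by exact_mod_cast c3
  have c4R : (Y : ℝ) * M ≤ 2 * s1 * g1 := by exact_mod_cast c4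
  have c5R : 3 * (Y : ℝ) * M ≤ (K2 - 3 * s2) * s1 * m0 + K2 * g1 := by exact_mod_cast c5
  have c6R : (0 : ℝ) ≤ T * s1 - 3 * (2 * s2 * g2 - Y * M) := by exact_mod_cast c6
  have c7R : (0 : ℝ) ≤ T := by exact_mod_cast c7
  have c8R : (T : ℝ) ≤ 3 * g2 := by exact_mod_cast c8
  have c9R : (g2 : ℝ) * (3 * g2 - T) ≤ m0 * (T * s1 - 3 * (2 * s2 * g2 - Y * M)) := by exact_mod_cast c9
  have c10R : (T : ℝ) < n * M - K2 := by exact_mod_cast c10
  have c11R : (0 : ℝ) ≤ G := by exact_mod_cast c11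
  have c12R : (Y : ℝ) * M ≤ G * (n * M - K2) := by exact_mod_cast c12
  have hmR : (1 : ℝ) ≤ m := by exact_mod_cast hm1
  have hm0R : (m0 : ℝ) ≤ m := by exact_mod_cast hm
  have hm0' : (0 : ℝ) ≤ m0 := Nat.cast_nonneg _
  have hlo : (s1 : ℝ) ≤ M * s := by
    refine abs_le_of_sq_le_sq' ?_ (by positivity) |>.2
    have e : (M * s) ^ 2 = n * M * M := by rw [← hss]; ring
    rw [e]; linarith
  have hhi : (M : ℝ) * s ≤ s2 := by
    refine abs_le_of_sq_le_sq' ?_ a5R.le |>.2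
    have e : (M * s) ^ 2 = n * M * M := by rw [← hss]; ring
    rw [e]; linarith
  have hs3 : 3 < s := by
    have : (M : ℝ) * 3 < M * s := by linarith
    exact lt_of_mul_lt_mul_left this a1R.le
  have hdeq : (d : ℝ) = s * m + g := by linarith
  have hd0 : 0 < (d : ℝ) := by
    rw [hdeq]
    have : 0 < s * m := mul_pos (by linarith) (by linarith)
    linarith
  obtain ⟨y, hy⟩ : ∃ y : ℝ, y = Y / M := ⟨_, rfl⟩
  have hyM : (M : ℝ) * y = Y := by rw [hy]; field_simp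
  have hy0 : 0 < y := by rw [hy]; positivity
  have hMM : (0 : ℝ) < M * M := by positivity
  -- `s g ≤ y ≤ 2 s g`
  have hsg : s * g ≤ y := by
    have h1 : (M * s) * (M * g) ≤ s2 * g2 := mul_le_mul hhi hg2 (by positivity) a5R.le
    have h2 : (M * M : ℝ) * (s * g) ≤ M * M * y := by
      calc (M * M : ℝ) * (s * g) = (M * s) * (M * g) := by ring
        _ ≤ s2 * g2 := h1
        _ ≤ Y * M := c3R
        _ = M * M * y := by rw [← hyM]; ring
    exact le_of_mul_le_mul_left h2 hMM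
  have hsg2 : y ≤ 2 * (s * g) := by
    have h1 : (s1 : ℝ) * g1 ≤ (M * s) * (M * g) := mul_le_mul hlo hg1 c2R (by positivity)
    have h2 : (M * M : ℝ) * y ≤ M * M * (2 * (s * g)) := by
      calc (M * M : ℝ) * y = Y * M := by rw [← hyM]; ring
        _ ≤ 2 * s1 * g1 := c4R
        _ ≤ M * M * (2 * (s * g)) := by linarith
    exact le_of_mul_le_mul_left h2 hMM
  obtain ⟨K, hK⟩ : ∃ K : ℝ, K = 3 * (n * m + y) / d := ⟨_, rfl⟩
  have hKd : K * d = 3 * (n * m + y) := by rw [hK]; field_simp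
  have hK3s : 3 * s ≤ K := by
    rw [hK, le_div_iff₀ hd0, hdeq]
    have : 3 * s * (s * m + g) = 3 * ((s * s) * m + s * g) := by ring
    rw [this, hss]
    linarith
  have hK1 : ((3 * s1 : ℤ) : ℝ) ≤ M * K := by
    push_cast
    have : (M : ℝ) * (3 * s) ≤ M * K := mul_le_mul_of_nonneg_left hK3s a1R.le
    linarith
  have hK2 : (M : ℝ) * K ≤ K2 := by
    rw [hK, ← mul_div_assoc, div_le_iff₀ hd0, hdeq]
    have e0 : (0 : ℝ) ≤ K2 - 3 * s2 := by linarith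
    have e1 : ((K2 : ℝ) - 3 * s2) * s1 * m0 ≤ (K2 - 3 * s2) * (M * s) * m :=
      mul_le_mul (mul_le_mul_of_nonneg_left hlo e0) hm0R hm0' (by positivity)
    have e2 : (K2 : ℝ) * g1 ≤ K2 * (M * g) := mul_le_mul_of_nonneg_left hg1 (by linarith)
    have e3 : 3 * (M : ℝ) * s * (s * m) ≤ 3 * s2 * (s * m) := by
      have : 0 ≤ s * m := by positivity
      have := mul_le_mul_of_nonneg_right hhi this
      linarith
    have e4 : (M : ℝ) * (M * (3 * (n * m + y))) ≤ M * (K2 * (s * m + g)) := by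
      have f1 : (M : ℝ) * (M * (3 * (n * m + y))) = M * (3 * M * s * (s * m)) + 3 * Y * M := by
        rw [← hyM, ← hss]; ring
      rw [f1]
      have f2 := mul_le_mul_of_nonneg_left e3 a1R.le
      linarith
    exact le_of_mul_le_mul_left e4 a1R
  have hKs : 9 * (n : ℝ) ≤ K * K := by
    have := mul_le_mul hK3s hK3s (by positivity) (by linarith)
    rw [← hss]
    linarith
  have hE : 3 * (d : ℝ) - K * m = 3 * (2 * s * m * g + g * g - y * m) / d := by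
    rw [eq_div_iff hd0.ne']
    have : (3 * (d : ℝ) - K * m) * d = 3 * d * d - K * d * m := by ring
    rw [this, hKd, hdeq, ← hss]
    ring
  have hE0 : 0 ≤ 3 * (d : ℝ) - K * m := by
    rw [hE]
    apply div_nonneg _ hd0.le
    have := mul_le_mul_of_nonneg_right hsg2 (show (0 : ℝ) ≤ m by linarith)
    have h2 : 0 ≤ g * g := by positivity
    linarith
  have hT : (M : ℝ) * (3 * (d : ℝ) - K * m) ≤ T := by
    rw [hE, ← mul_div_assoc, div_le_iff₀ hd0, hdeq]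
    -- `m c ≥ m0 c2 ≥ g2 (3 g2 - T) ≥ ...`
    obtain ⟨c, hcd⟩ : ∃ c : ℝ, c = T * s1 - 3 * (2 * s2 * g2 - Y * M) := ⟨_, rfl⟩
    rw [← hcd] at c6R c9R
    have e1 : c ≤ M * (T * s - 3 * M * (2 * s * g - y)) := by
      have f1 : (T : ℝ) * s1 ≤ T * (M * s) := mul_le_mul_of_nonneg_left hlo c7R
      have f2 : (M * s) * (M * g) ≤ s2 * g2 := mul_le_mul hhi hg2 (by positivity) a5R.le
      rw [hcd, ← hyM]
      linarith
    have e2 : (m0 : ℝ) * c ≤ m * (M * (T * s - 3 * M * (2 * s * g - y))) :=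
      mul_le_mul hm0R e1 c6R (by linarith)
    have e3 : M * g * (3 * (M * g) - T) ≤ m0 * c := by
      rcases le_or_gt (3 * (M * g)) T with h | h
      · have h1 : M * g * (3 * (M * g) - T) ≤ 0 :=
          mul_nonpos_of_nonneg_of_nonpos (by positivity) (by linarith)
        have h2 : 0 ≤ (m0 : ℝ) * c := mul_nonneg hm0' c6R
        linarith
      · refine le_trans ?_ c9R
        exact mul_le_mul hg2 (by linarith) (by linarith) (by linarith [mul_pos a1R hg0])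
    have e4 : (M : ℝ) * (M * (3 * (2 * s * m * g + g * g - y * m))) ≤ M * (T * (s * m + g)) := by
      linarith
    exact le_of_mul_le_mul_left e4 a1R
  have hnK : (n : ℝ) * M - K2 ≤ M * (n - K) := by linarith
  have hA3 : 3 * (d : ℝ) - K * m < n - K := by
    have : (M : ℝ) * (3 * (d : ℝ) - K * m) < M * (n - K) := by linarith
    exact lt_of_mul_lt_mul_left this a1R.le
  have hyG : (M : ℝ) * y ≤ G * (n - K) := by
    have h1 : (G : ℝ) * (n * M - K2) ≤ G * (M * (n - K)) := mul_le_mul_of_nonneg_left hnK c11R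
    have h2 : (M : ℝ) * (M * y) ≤ M * (G * (n - K)) := by rw [hyM]; linarith
    exact le_of_mul_le_mul_left h2 a1R
  obtain ⟨HC2, HC1⟩ := corner_spec (y := y) (E := 3 * (d : ℝ) - K * m) (P := K - 9) (Q := n - K)
    a1 hcor hy0 hE0 (by rw [hyM]) (by rw [mul_add, hyM]; push_cast; linarith) hT
    (by push_cast; linarith) (by push_cast; linarith)
  have key := emp_reg (m := m) hc hKd hK1 hK2 hKs (by linarith) hA3 hy0.le hyG HC2 HC1
  refine emp_TZ (u := u) ?_ ?_ (by linarith) key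
  · have : (M : ℝ) * (3 * u) < M * K := by
      push_cast at hK1
      linarith
    exact lt_of_mul_lt_mul_left this a1R.le
  · have : (M : ℝ) * K < M * (3 * (u + 1)) := by linarith
    exact lt_of_mul_lt_mul_left this a1R.le

theorem emp_modeX {n m d : ℕ} {M s1 s2 K2 u b1 b2 d1 d2 G g1 g2 : ℤ} {κ L k0 z : ℕ}
    {tab : List (ℤ × ℕ)} (hb : base n M s1 s2 K2 u = true)
    (hc : certE n M (3 * s1) K2 b1 b2 d1 d2 G κ L tab = true)
    (hmd : modeX n M s1 s2 K2 G g1 g2 k0 z = true) (hm1 : 1 ≤ m)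
    (hg0 : 0 < (d : ℝ) - √(n : ℝ) * m)
    (hg1 : (g1 : ℝ) ≤ M * (d - √(n : ℝ) * m)) (hg2 : (M : ℝ) * (d - √(n : ℝ) * m) ≤ g2) :
    Emp (fun _ : Fin n => m) (TZ d) := by
  obtain ⟨s, hs⟩ : ∃ s, s = √(n : ℝ) := ⟨_, rfl⟩
  rw [← hs] at hg0 hg1 hg2
  have hnR : (0 : ℝ) ≤ n := Nat.cast_nonneg n
  have hss : s * s = n := by rw [hs]; exact Real.mul_self_sqrt hnR
  have hs0 : 0 ≤ s := by rw [hs]; exact Real.sqrt_nonneg _
  obtain ⟨g, hg⟩ : ∃ g, g = (d : ℝ) - s * m := ⟨_, rfl⟩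
  rw [← hg] at hg0 hg1 hg2
  unfold base at hb
  rw [decide_eq_true_eq] at hb
  obtain ⟨a1, a2, a3, a4, a5, a6, a7, a8, a9⟩ := hb
  unfold modeX at hmd
  rw [Bool.and_eq_true, decide_eq_true_eq] at hmd
  obtain ⟨⟨c1, c2, c3, c4, c5⟩, hcor⟩ := hmd
  have a1R : (0 : ℝ) < M := by exact_mod_cast a1
  have a2R : 3 * (M : ℝ) < s1 := by exact_mod_cast a2
  have a3R : (s1 : ℝ) * s1 ≤ n * M * M := by exact_mod_cast a3
  have a4R : (n : ℝ) * M * M ≤ s2 * s2 := by exact_mod_cast a4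
  have a5R : (0 : ℝ) < s2 := by exact_mod_cast a5
  have a6R : (u : ℝ) * M < s1 := by exact_mod_cast a6
  have a7R : (K2 : ℝ) < 3 * (u + 1) * M := by exact_mod_cast a7
  have a8R : 3 * (s2 : ℝ) ≤ K2 := by exact_mod_cast a8
  have a9R : (K2 : ℝ) ≤ n * M := by exact_mod_cast a9
  have c1R : (0 : ℝ) ≤ g1 := by exact_mod_cast c1
  have c2R : (0 : ℝ) ≤ g2 := by exact_mod_cast c2
  have c3R : 3 * (g2 : ℝ) < n * M - K2 := by exact_mod_cast c3
  have c4R : (0 : ℝ) ≤ G := by exact_mod_cast c4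
  have c5R : (s2 : ℝ) * g2 ≤ G * (n * M - K2) := by exact_mod_cast c5
  have hmR : (1 : ℝ) ≤ m := by exact_mod_cast hm1
  have hlo : (s1 : ℝ) ≤ M * s := by
    refine abs_le_of_sq_le_sq' ?_ (by positivity) |>.2
    have e : (M * s) ^ 2 = n * M * M := by rw [← hss]; ring
    rw [e]; linarith
  have hhi : (M : ℝ) * s ≤ s2 := by
    refine abs_le_of_sq_le_sq' ?_ a5R.le |>.2
    have e : (M * s) ^ 2 = n * M * M := by rw [← hss]; ring
    rw [e]; linarith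
  have hs3 : 3 < s := by
    have : (M : ℝ) * 3 < M * s := by linarith
    exact lt_of_mul_lt_mul_left this a1R.le
  have hdeq : (d : ℝ) = s * m + g := by linarith
  have hMM : (0 : ℝ) < M * M := by positivity
  have hy0 : 0 < s * g := mul_pos (by linarith) hg0
  have hKd : 3 * s * d = 3 * (n * m + s * g) := by rw [hdeq, ← hss]; ring
  have hE : 3 * (d : ℝ) - 3 * s * m = 3 * g := by rw [hdeq]; ring
  have hsg : (M * s) * (M * g) ≤ s2 * g2 := mul_le_mul hhi hg2 (by positivity) a5R.le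
  have hnK : (n : ℝ) * M - K2 ≤ M * (n - 3 * s) := by linarith
  obtain ⟨HC2, HC1⟩ := corner_spec (y := s * g) (E := 3 * (d : ℝ) - 3 * s * m) (P := 3 * s - 9)
    (Q := n - 3 * s) (mul_pos a1 a1) hcor hy0 (by rw [hE]; linarith)
    (by
      push_cast
      have := mul_le_mul hlo hg1 c1R (by positivity)
      linarith)
    (by
      rw [hE]
      push_cast
      have := mul_le_mul_of_nonneg_left hg2 (show (0 : ℝ) ≤ 3 * M by positivity)
      linarith)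
    (by
      rw [hE]
      push_cast
      have := mul_le_mul_of_nonneg_left hg2 (show (0 : ℝ) ≤ 3 * M by positivity)
      linarith)
    (by
      push_cast
      have := mul_le_mul_of_nonneg_left hhi (show (0 : ℝ) ≤ 3 * M by positivity)
      linarith)
    (by
      push_cast
      have := mul_le_mul_of_nonneg_left hhi (show (0 : ℝ) ≤ 3 * M by positivity)
      linarith)
  have key := emp_reg (m := m) (K := 3 * s) (y := s * g) hc hKd (by push_cast; linarith)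
    (by linarith) (by rw [← hss]; linarith) (by linarith)
    (by
      rw [hE]
      have : (M : ℝ) * (3 * g) < M * (n - 3 * s) := by linarith
      exact lt_of_mul_lt_mul_left this a1R.le)
    hy0.le
    (by
      have h1 : (G : ℝ) * (n * M - K2) ≤ G * (M * (n - 3 * s)) := mul_le_mul_of_nonneg_left hnK c4R
      have h2 : (M : ℝ) * (M * (s * g)) ≤ M * (G * (n - 3 * s)) := by linarith
      exact le_of_mul_le_mul_left h2 a1R)
    HC2 HC1
  refine emp_TZ (u := u) ?_ ?_ (by linarith) key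
  · have : (M : ℝ) * (3 * u) < M * (3 * s) := by linarith
    exact lt_of_mul_lt_mul_left this a1R.le
  · have : (M : ℝ) * (3 * s) < M * (3 * (u + 1)) := by linarith
    exact lt_of_mul_lt_mul_left this a1R.le

/-- a sequence of windows of `(d - √n m) / (√n - 3)`, in units of `1 / 10000` -/
def modes (n : ℕ) (M s1 s2 K2 G : ℤ) (m0 : ℕ) : ℕ → List (ℕ × ℤ × ℤ × ℕ × ℕ) → Bool
  | _, [] => true
  | c, (c', Y, T, k0, z) :: rest =>
    (if Y = 0 then
        modeX n M s1 s2 K2 G (c * (s1 - 3 * M) / 10000) (-(-(c' * (s2 - 3 * M)) / 10000)) k0 z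
      else modeC n M s1 s2 K2 G (c * (s1 - 3 * M) / 10000) (-(-(c' * (s2 - 3 * M)) / 10000)) Y T m0 k0 z) &&
      modes n M s1 s2 K2 G m0 c' rest

/-- the end of the windows -/
def lastc : ℕ → List (ℕ × ℤ × ℤ × ℕ × ℕ) → ℕ
  | c, [] => c
  | _, (c', _) :: rest => lastc c' rest

theorem emp_modes {n m d : ℕ} {M s1 s2 K2 u b1 b2 d1 d2 G : ℤ} {κ L m0 : ℕ}
    {tab : List (ℤ × ℕ)} (hb : base n M s1 s2 K2 u = true)
    (hc : certE n M (3 * s1) K2 b1 b2 d1 d2 G κ L tab = true) (hm1 : 1 ≤ m) (hm : m0 ≤ m)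
    (hg0 : 0 < (d : ℝ) - √(n : ℝ) * m) : ∀ (t : List (ℕ × ℤ × ℤ × ℕ × ℕ)) (c : ℕ),
    modes n M s1 s2 K2 G m0 c t = true →
    (c : ℝ) * (√(n : ℝ) - 3) ≤ 10000 * (d - √(n : ℝ) * m) →
    10000 * ((d : ℝ) - √(n : ℝ) * m) < lastc c t * (√(n : ℝ) - 3) →
    Emp (fun _ : Fin n => m) (TZ d) := by
  have hb' := hb
  unfold base at hb'
  rw [decide_eq_true_eq] at hb'
  obtain ⟨a1, a2, a3, a4, a5, a6, a7, a8, a9⟩ := hb'
  have a1R : (0 : ℝ) < M := by exact_mod_cast a1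
  have a3R : (s1 : ℝ) * s1 ≤ n * M * M := by exact_mod_cast a3
  have a4R : (n : ℝ) * M * M ≤ s2 * s2 := by exact_mod_cast a4
  have a5R : (0 : ℝ) < s2 := by exact_mod_cast a5
  have hss : √(n : ℝ) * √(n : ℝ) = n := Real.mul_self_sqrt (Nat.cast_nonneg n)
  have hs0 : 0 ≤ √(n : ℝ) := Real.sqrt_nonneg _
  have hlo : (s1 : ℝ) ≤ M * √(n : ℝ) := by
    refine abs_le_of_sq_le_sq' ?_ (by positivity) |>.2
    have e : (M * √(n : ℝ)) ^ 2 = (√(n : ℝ) * √(n : ℝ)) * M * M := by ring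
    rw [e, hss]; linarith
  have hhi : (M : ℝ) * √(n : ℝ) ≤ s2 := by
    refine abs_le_of_sq_le_sq' ?_ a5R.le |>.2
    have e : (M * √(n : ℝ)) ^ 2 = (√(n : ℝ) * √(n : ℝ)) * M * M := by ring
    rw [e, hss]; linarith
  intro t
  induction t with
  | nil =>
    intro c _ h1 h2
    unfold lastc at h2
    linarith
  | cons hd rest ih =>
    obtain ⟨c', Y, T, k0, z⟩ := hd
    intro c h h1 h2
    unfold modes at h
    rw [Bool.and_eq_true] at h
    unfold lastc at h2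
    rcases le_or_gt (c' * (√(n : ℝ) - 3)) (10000 * (d - √(n : ℝ) * m)) with h3 | h3
    · exact ih c' h.2 h3 h2
    · have e1 : ((c * (s1 - 3 * M) / 10000 : ℤ) : ℝ) ≤ M * (d - √(n : ℝ) * m) := by
        have f1 : (c * (s1 - 3 * M) / 10000) * 10000 ≤ c * (s1 - 3 * M) :=
          Int.ediv_mul_le _ (by norm_num)
        have f1R : (((c * (s1 - 3 * M) / 10000 : ℤ)) : ℝ) * 10000 ≤ c * (s1 - 3 * M) := by
          exact_mod_cast f1
        have f2 : (c : ℝ) * (s1 - 3 * M) ≤ c * (M * √(n : ℝ) - 3 * M) :=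
          mul_le_mul_of_nonneg_left (by linarith) (Nat.cast_nonneg c)
        have f3 := mul_le_mul_of_nonneg_left h1 a1R.le
        linarith
      have e2 : (M : ℝ) * (d - √(n : ℝ) * m) ≤ ((-(-(c' * (s2 - 3 * M)) / 10000) : ℤ) : ℝ) := by
        have f1 : (-(c' * (s2 - 3 * M)) / 10000) * 10000 ≤ -(c' * (s2 - 3 * M)) :=
          Int.ediv_mul_le _ (by norm_num)
        have f1R : (((-(c' * (s2 - 3 * M)) / 10000 : ℤ)) : ℝ) * 10000 ≤ -(c' * (s2 - 3 * M)) := by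
          exact_mod_cast f1
        have f2 : (c' : ℝ) * (M * √(n : ℝ) - 3 * M) ≤ c' * (s2 - 3 * M) :=
          mul_le_mul_of_nonneg_left (by linarith) (Nat.cast_nonneg c')
        have f3 := mul_le_mul_of_nonneg_left h3.le a1R.le
        rw [Int.cast_neg]
        linarith
      have h4 := h.1
      split_ifs at h4 with hY
      · exact emp_modeX hb hc h4 hm1 hg0 e1 e2
      · exact emp_modeC hb hc h4 hm1 hm hg0 e1 e2

end Pool.Agent.K7.H2.FO
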