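import Pool.Agent.K7.H2.FO.Div

set_option autoImplicit false

/-! First order expansion of a divisibility relation over Laurent series. -/

namespace Pool.Agent.K7.H2.FO

open Polynomial Finset Pool.Agent.TH176.Nag

section desc
variable {k Ω : Type} [Field k] [Field Ω] [Algebra k Ω]

/-- apply a linear functional to the coefficients -/
noncomputable def fmap (φ : Ω →ₗ[k] k) (p : Polynomial Ω) : Polynomial k :=
  ∑ i ∈ p.support, monomial i (φ (p.coeff i))

theorem coeff_fmap (φ : Ω →ₗ[k] k) (p : Polynomial Ω) (e : ℕ) : (fmap φ p).coeff e = φ (p.coeff e) := by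
  unfold fmap
  rw [finsetSum_coeff]
  simp only [coeff_monomial]
  rw [sum_ite_eq']
  split_ifs with h
  · rfl
  · rw [notMem_support_iff.1 h, map_zero]

theorem fmap_mul (φ : Ω →ₗ[k] k) (q : Polynomial k) (p : Polynomial Ω) :
    fmap φ (q.map (algebraMap k Ω) * p) = q * fmap φ p := by
  ext e
  rw [coeff_fmap, coeff_mul, coeff_mul, map_sum]
  apply sum_congr rfl
  intro x _
  rw [coeff_map, ← Algebra.smul_def, map_smul, smul_eq_mul, coeff_fmap]

theorem fmap_row (φ : Ω →ₗ[k] k) (T : Finset (ℕ × ℕ)) (c : ℕ × ℕ → Ω) (j : ℕ) :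
    fmap φ (row T c j) = row T (fun p => φ (c p)) j := by
  ext e
  rw [coeff_fmap, coeff_row, coeff_row, map_sum]
  apply sum_congr rfl
  intro p _
  rw [mul_comm, ← nsmul_eq_mul, map_nsmul, nsmul_eq_mul, mul_comm]

end desc

section val
variable {F : Type} [Field F]

/-- order at least `ν` -/
def vge (ν : ℤ) (a : LaurentSeries F) : Prop := ∀ i < ν, a.coeff i = 0

theorem vge_mono {μ ν : ℤ} (h : μ ≤ ν) {a : LaurentSeries F} (ha : vge ν a) : vge μ a :=
  fun i hi => ha i (by omega)

theorem vge_zero (ν : ℤ) : vge ν (0 : LaurentSeries F) := fun i _ => by simp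

theorem vge_add {ν : ℤ} {a b : LaurentSeries F} (ha : vge ν a) (hb : vge ν b) : vge ν (a + b) :=
  fun i hi => by rw [HahnSeries.coeff_add, ha i hi, hb i hi, add_zero]

theorem vge_sum {ι : Type*} {ν : ℤ} {s : Finset ι} {f : ι → LaurentSeries F} (h : ∀ i ∈ s, vge ν (f i)) :
    vge ν (∑ i ∈ s, f i) := fun i hi => by
  rw [HahnSeries.coeff_sum]
  exact sum_eq_zero fun j hj => h j hj i hi

theorem vge_mul {μ ν : ℤ} {a b : LaurentSeries F} (ha : vge μ a) (hb : vge ν b) : vge (μ + ν) (a * b) :=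
  fun i hi => by
  rw [HahnSeries.coeff_mul]
  apply sum_eq_zero
  rintro ⟨x, y⟩ hxy
  rw [Finset.mem_antidiagonal] at hxy
  obtain ⟨h1, h2, h3⟩ := hxy
  simp only at h1 h2 h3 ⊢
  by_cases h : x < μ
  · rw [ha x h, zero_mul]
  · rw [hb y (by omega), mul_zero]

theorem vge_C (c : F) : vge 0 (HahnSeries.C c : LaurentSeries F) := fun i hi => by
  rw [HahnSeries.C_apply, HahnSeries.coeff_single_of_ne (by omega)]

theorem vge_single (ν : ℤ) (c : F) : vge ν (HahnSeries.single ν c : LaurentSeries F) := fun i hi => by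
  rw [HahnSeries.coeff_single_of_ne (by omega)]

/-- all the coefficients have order at least `ν` -/
def VG (ν : ℤ) (p : Polynomial (LaurentSeries F)) : Prop := ∀ e, vge ν (p.coeff e)

theorem VG_mono {μ ν : ℤ} (h : μ ≤ ν) {p : Polynomial (LaurentSeries F)} (hp : VG ν p) : VG μ p :=
  fun e => vge_mono h (hp e)

theorem VG_add {ν : ℤ} {p q : Polynomial (LaurentSeries F)} (hp : VG ν p) (hq : VG ν q) :
    VG ν (p + q) := fun e => by rw [coeff_add]; exact vge_add (hp e) (hq e)

theorem VG_mul {μ ν : ℤ} {p q : Polynomial (LaurentSeries F)} (hp : VG μ p) (hq : VG ν q) :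
    VG (μ + ν) (p * q) := fun e => by
  rw [coeff_mul]
  exact vge_sum fun x _ => vge_mul (hp _) (hq _)

theorem VG_mul0 {ν : ℤ} {p q : Polynomial (LaurentSeries F)} (hp : VG 0 p) (hq : VG ν q) :
    VG ν (p * q) := by
  have := VG_mul hp hq
  rwa [zero_add] at this

theorem VG_C {ν : ℤ} {a : LaurentSeries F} (ha : vge ν a) : VG ν (C a) := fun e => by
  rw [coeff_C]
  split_ifs
  · exact ha
  · exact vge_zero ν

theorem VG_X_pow (n : ℕ) : VG 0 (X ^ n : Polynomial (LaurentSeries F)) := fun e => by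
  rw [coeff_X_pow]
  split_ifs
  · have := vge_C (F := F) 1
    rwa [map_one] at this
  · exact vge_zero 0

theorem VG_sum {ι : Type*} {ν : ℤ} {s : Finset ι} {f : ι → Polynomial (LaurentSeries F)}
    (h : ∀ i ∈ s, VG ν (f i)) : VG ν (∑ i ∈ s, f i) := fun e => by
  rw [finsetSum_coeff]
  exact vge_sum fun i hi => h i hi e

theorem VG_natCast (n : ℕ) : VG 0 ((n : Polynomial (LaurentSeries F))) := by
  have := VG_C (vge_C (F := F) (n : F))
  rwa [map_natCast, map_natCast] at this

theorem VG_neg {ν : ℤ} {p : Polynomial (LaurentSeries F)} (hp : VG ν p) : VG ν (-p) := fun e i hi => by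
  rw [coeff_neg, HahnSeries.coeff_neg, hp e i hi, neg_zero]

/-- the small parameter -/
noncomputable def eps : LaurentSeries F := HahnSeries.single 1 1

theorem vge_eps : vge 1 (eps : LaurentSeries F) := vge_single 1 1

theorem coeff_eps_mul (a : LaurentSeries F) (i : ℤ) : (eps * a).coeff i = a.coeff (i - 1) := by
  unfold eps
  rw [HahnSeries.coeff_single_mul, one_mul]

/-- the first order part -/
noncomputable def tauP (n : ℕ) (τ : ℕ → F) : Polynomial (LaurentSeries F) :=
  ∑ i ∈ range n, C (HahnSeries.C (τ i)) * X ^ i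

theorem VG_tauP (n : ℕ) (τ : ℕ → F) : VG 0 (tauP n τ) := by
  unfold tauP
  refine VG_sum fun i _ => ?_
  exact VG_mul0 (VG_C (vge_C _)) (VG_X_pow i)

theorem coeff_tauP_mul (n : ℕ) (τ : ℕ → F) (p : Polynomial (LaurentSeries F)) (e : ℕ) (i : ℤ) :
    ((tauP n τ * p).coeff e).coeff i =
      ∑ l ∈ range n with l ≤ e, τ l * (p.coeff (e - l)).coeff i := by
  unfold tauP
  rw [sum_mul, finsetSum_coeff, HahnSeries.coeff_sum, sum_filter]
  apply sum_congr rfl
  intro l _
  rw [mul_assoc, coeff_C_mul, coeff_X_pow_mul']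
  split_ifs with h
  · rw [coeff_cst_mul]
  · simp

/-- the polynomial `1 + ε τ(X) + c ε² X ^ n` -/
noncomputable def QQ (n : ℕ) (τ : ℕ → F) (c : F) : Polynomial (LaurentSeries F) :=
  1 + C eps * tauP n τ + C (HahnSeries.C c * eps * eps) * X ^ n

theorem QQ_pow (n : ℕ) (τ : ℕ → F) (c : F) (a : ℕ) : ∃ S : Polynomial (LaurentSeries F), VG 0 S ∧
    (1 - (a : Polynomial (LaurentSeries F)) * (C eps * tauP n τ)) * QQ n τ c ^ a = 1 + C eps * (C eps * S) := by
  obtain ⟨σ, hσ⟩ : ∃ σ : Polynomial (LaurentSeries F), σ = tauP n τ + C (HahnSeries.C c * eps) * X ^ n :=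
    ⟨_, rfl⟩
  have hσ0 : VG 0 σ := by
    rw [hσ]
    refine VG_add (VG_tauP n τ) (VG_mul0 (VG_C ?_) (VG_X_pow n))
    exact vge_mono (by norm_num) (vge_mul (vge_C c) vge_eps)
  have hE : VG 0 (C (eps : LaurentSeries F)) := VG_C (vge_mono (by norm_num) vge_eps)
  have hQ : QQ n τ c = 1 + C eps * σ := by
    unfold QQ
    rw [hσ, map_mul, map_mul]
    ring
  have h1 : ∃ S : Polynomial (LaurentSeries F), VG 0 S ∧
      QQ n τ c ^ a = 1 + (a : Polynomial (LaurentSeries F)) * (C eps * σ) + C eps * (C eps * S) := by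
    induction a with
    | zero => exact ⟨0, fun e => by rw [coeff_zero]; exact vge_zero 0, by simp⟩
    | succ a ih =>
      obtain ⟨S, hS, hS'⟩ := ih
      refine ⟨(a : Polynomial (LaurentSeries F)) * (σ * σ) + S + C eps * (S * σ), ?_, ?_⟩
      · exact VG_add (VG_add (VG_mul0 (VG_natCast a) (VG_mul0 hσ0 hσ0)) hS) (VG_mul0 hE (VG_mul0 hS hσ0))
      · rw [pow_succ, hS', hQ]
        push_cast
        ring
  obtain ⟨S, hS, hS'⟩ := h1
  refine ⟨(a : Polynomial (LaurentSeries F)) * (C (HahnSeries.C c) * X ^ n) + S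
    + -((a : Polynomial (LaurentSeries F)) * ((a : Polynomial (LaurentSeries F)) * (tauP n τ * σ)))
    + -((a : Polynomial (LaurentSeries F)) * (C eps * (tauP n τ * S))), ?_, ?_⟩
  · refine VG_add (VG_add (VG_add (VG_mul0 (VG_natCast a) (VG_mul0 (VG_C (vge_C c)) (VG_X_pow n))) hS) ?_) ?_
    · exact VG_neg (VG_mul0 (VG_natCast a) (VG_mul0 (VG_natCast a) (VG_mul0 (VG_tauP n τ) hσ0)))
    · exact VG_neg (VG_mul0 (VG_natCast a) (VG_mul0 hE (VG_mul0 (VG_tauP n τ) hS)))
  · have e1 : σ = tauP n τ + C (HahnSeries.C c) * C eps * X ^ n := by rw [hσ, map_mul]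
    have e2 : (1 - (a : Polynomial (LaurentSeries F)) * (C eps * tauP n τ)) * QQ n τ c ^ a =
      1 + (a : Polynomial (LaurentSeries F)) * (C eps * (σ - tauP n τ)) + C eps * (C eps * (S
      + -((a : Polynomial (LaurentSeries F)) * ((a : Polynomial (LaurentSeries F)) * (tauP n τ * σ)))
      + -((a : Polynomial (LaurentSeries F)) * (C eps * (tauP n τ * S))))) := by
      rw [hS']
      ring
    rw [e2]
    have e3 : σ - tauP n τ = C eps * (C (HahnSeries.C c) * X ^ n) := by rw [e1]; ring
    rw [e3]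
    ring

/-- valuation of the quotient -/
theorem VG_of_mul {S q : Polynomial (LaurentSeries F)} {ν : ℤ} (hS : VG 0 S)
    (h : VG ν (q * (1 + C eps * (C eps * S)))) : VG ν q := by
  have h0 : ∀ N : ℕ, VG (ν - N) q → VG ν q := by
    intro N
    induction N with
    | zero => intro hq; simpa using hq
    | succ N ih =>
      intro hq
      apply ih
      have e : q = q * (1 + C eps * (C eps * S)) + -(C eps * (C eps * (S * q))) := by ring
      rw [e]
      refine VG_add (VG_mono (by omega) h) (VG_neg ?_)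
      have h1 : VG (1 + (1 + (0 + (ν - (N + 1 : ℕ))))) (C eps * (C eps * (S * q))) :=
        VG_mul (VG_C vge_eps) (VG_mul (VG_C vge_eps) (VG_mul hS hq))
      exact VG_mono (by push_cast; omega) h1
  by_cases hq : q = 0
  · rw [hq]; intro e; rw [coeff_zero]; exact vge_zero ν
  · have hne : q.support.Nonempty := support_nonempty.2 hq
    obtain ⟨e0, he0, hmin⟩ := Finset.exists_min_image q.support (fun e => (q.coeff e).order) hne
    refine h0 (ν - (q.coeff e0).order).toNat ?_
    intro e i hi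
    by_cases he : q.coeff e = 0
    · rw [he]; simp
    · apply HahnSeries.coeff_eq_zero_of_lt_order
      refine lt_of_lt_of_le ?_ (hmin e (mem_support_iff.2 he))
      have := Int.self_le_toNat (ν - (q.coeff e0).order)
      omega

theorem natDegree_QQ [CharZero F] (n : ℕ) (τ : ℕ → F) {c : F} (hc : c ≠ 0) (hn : 1 ≤ n) : (QQ n τ c).natDegree = n := by
  have h1 : (1 + C eps * tauP n τ).natDegree < n := by
    have h2 : (tauP n τ).natDegree ≤ n - 1 := by
      unfold tauP
      apply natDegree_sum_le_of_forall_le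
      intro i hi
      have := mem_range.1 hi
      exact (natDegree_C_mul_X_pow_le _ _).trans (by omega)
    have h3 : (C eps * tauP n τ).natDegree ≤ n - 1 := (natDegree_C_mul_le _ _).trans h2
    have h4 := natDegree_add_le (1 : Polynomial (LaurentSeries F)) (C eps * tauP n τ)
    rw [natDegree_one] at h4
    have h5 : max 0 (C eps * tauP n τ).natDegree ≤ n - 1 := max_le (by omega) h3
    omega
  have hcc : (HahnSeries.C c * eps * eps : LaurentSeries F) ≠ 0 := by
    refine mul_ne_zero (mul_ne_zero ?_ ?_) ?_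
    · exact fun h => hc (HahnSeries.C_injective (by rw [h, map_zero]))
    · exact HahnSeries.single_ne_zero one_ne_zero
    · exact HahnSeries.single_ne_zero one_ne_zero
  unfold QQ
  rw [natDegree_add_eq_right_of_natDegree_lt, natDegree_C_mul_X_pow _ _ hcc]
  rw [natDegree_C_mul_X_pow _ _ hcc]
  exact h1

/-- first order consequences of a divisibility relation -/
theorem first_order [CharZero F] {n a D : ℕ} (hn : 1 ≤ n) (τ : ℕ → F) {c : F} (hc : c ≠ 0)
    {P : Polynomial (LaurentSeries F)} {ν : ℤ} (hP : VG ν P) (hPd : ∀ e, D < e → P.coeff e = 0)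
    (hdvd : QQ n τ c ^ a ∣ P) {e : ℕ} (he : D < e + n * a) :
    (P.coeff e).coeff ν = 0 ∧ (P.coeff e).coeff (ν + 1) =
      a * ∑ l ∈ range n with l ≤ e, τ l * (P.coeff (e - l)).coeff ν := by
  obtain ⟨q, hq⟩ := hdvd
  obtain ⟨S, hS, hS'⟩ := QQ_pow n τ c a
  have h1 : (1 - (a : Polynomial (LaurentSeries F)) * (C eps * tauP n τ)) * P =
      q * (1 + C eps * (C eps * S)) := by
    rw [← hS', hq]; ring
  have hE : VG 0 (C (eps : LaurentSeries F)) := VG_C (vge_mono (by norm_num) vge_eps)
  have hqV : VG ν q := by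
    apply VG_of_mul hS
    rw [← h1, sub_mul, one_mul, sub_eq_add_neg]
    refine VG_add hP (VG_neg ?_)
    rw [mul_assoc, mul_assoc]
    exact VG_mul0 (VG_natCast a) (VG_mul0 hE (VG_mul0 (VG_tauP n τ) hP))
  have hqe : q.coeff e = 0 := by
    by_cases hq0 : q = 0
    · rw [hq0, coeff_zero]
    · have hQ0 : QQ n τ c ≠ 0 := by
        intro h
        have := natDegree_QQ n τ hc hn
        rw [h, natDegree_zero] at this
        omega
      have hP0 : P ≠ 0 := by
        rw [hq]; exact mul_ne_zero (pow_ne_zero _ hQ0) hq0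
      have h2 : P.natDegree = a * n + q.natDegree := by
        rw [hq, natDegree_mul (pow_ne_zero _ hQ0) hq0, natDegree_pow, natDegree_QQ n τ hc hn]
      have h3 : P.natDegree ≤ D := by
        by_contra hcon
        push Not at hcon
        have := hPd _ hcon
        rw [coeff_natDegree, leadingCoeff_eq_zero] at this
        exact hP0 this
      apply coeff_eq_zero_of_natDegree_lt
      nlinarith
  have h4 : ∀ i : ℤ, i ≤ ν + 1 → ((q * (1 + C eps * (C eps * S))).coeff e).coeff i = 0 := by
    intro i hi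
    have e1 : q * (1 + C eps * (C eps * S)) = q + C eps * (C eps * (S * q)) := by ring
    rw [e1, coeff_add, hqe, zero_add]
    have h5 : VG (1 + (1 + (0 + ν))) (C eps * (C eps * (S * q))) :=
      VG_mul (VG_C vge_eps) (VG_mul (VG_C vge_eps) (VG_mul hS hqV))
    exact h5 e i (by omega)
  have h6 : ∀ i : ℤ, ((((1 : Polynomial (LaurentSeries F)) - (a : Polynomial (LaurentSeries F)) *
      (C eps * tauP n τ)) * P).coeff e).coeff i =
      (P.coeff e).coeff i - a * ∑ l ∈ range n with l ≤ e, τ l * (P.coeff (e - l)).coeff (i - 1) := by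
    intro i
    rw [sub_mul, one_mul, coeff_sub, HahnSeries.coeff_sub]
    congr 1
    have e2 : (a : Polynomial (LaurentSeries F)) * (C eps * tauP n τ) * P =
      C (HahnSeries.C (a : F)) * (C eps * (tauP n τ * P)) := by
      rw [map_natCast, map_natCast]; ring
    rw [e2, coeff_C_mul, coeff_cst_mul, coeff_C_mul, coeff_eps_mul, coeff_tauP_mul]
  constructor
  · have h7 := h4 ν (by omega)
    rw [← h1, h6] at h7
    have h8 : ∑ l ∈ range n with l ≤ e, τ l * (P.coeff (e - l)).coeff (ν - 1) = 0 := by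
      apply sum_eq_zero
      intro l _
      rw [hP (e - l) (ν - 1) (by omega), mul_zero]
    rw [h8, mul_zero, sub_zero] at h7
    exact h7
  · have h7 := h4 (ν + 1) (by omega)
    rw [← h1, h6] at h7
    have e3 : ν + 1 - 1 = ν := by ring
    rw [e3] at h7
    linear_combination h7

end val

end Pool.Agent.K7.H2.FO
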